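import Pool.Agent.Q180.SC.Str

/-!
# Limits of the factors of a family of algebras
-/

set_option autoImplicit false

namespace Pool.Agent.Q180.SC.Str

open scoped TensorProduct PowerSeries Topology
open Pool.Agent.H826R3.SM Pool.Agent.TH671.DU Filter

variable {k : Type} [Field k]

/-- the product of the elements `x - ρ j`, `j ∈ T` -/
noncomputable def pr {n : ℕ} {A : Type} [CommRing A] [Algebra k A] (T : Finset (Fin n))
    (ρ : Fin n → k) (x : A) : A :=
  ∏ j ∈ T, (x - algebraMap k A (ρ j))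

/-- the element with the coordinates `α` -/
noncomputable def el {ι : Type} [Fintype ι] {A : Type} [CommRing A] [Algebra k A] (α : ι → k)
    (v : Module.Basis ι k A) : A := ∑ l, α l • v l

section mul

variable {A : Type} [CommRing A] [Algebra k A]

theorem map_mulLeft (g : A) (N : ℕ) (y : Pow k A N) :
    PiTensorProduct.map (fun _ : Fin N => LinearMap.mulLeft k g) y = y * ∏ m, sg k A m g := by
  have h : PiTensorProduct.map (fun _ : Fin N => LinearMap.mulLeft k g) =
      LinearMap.mulRight k (∏ m, sg k A m g) := by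
    refine PiTensorProduct.ext (MultilinearMap.ext fun x => ?_)
    change PiTensorProduct.map _ (PiTensorProduct.tprod k x) =
      PiTensorProduct.tprod k x * ∏ m, sg k A m g
    rw [PiTensorProduct.map_tprod, tprod_eq_prod_single, tprod_eq_prod_single,
      ← Finset.prod_mul_distrib]
    refine Finset.prod_congr rfl fun m _ => ?_
    have h1 : sg k A m (g * x m) = sg k A m (x m) * sg k A m g := by
      rw [mul_comm, map_mul]
    exact h1
  rw [h]
  rfl

theorem mul_eq_zero_of_powMap {f g : A} (hfg : f * g = 0) (N : ℕ) (y : Pow k A N)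
    (h : powMap (Ideal.Quotient.mkₐ k (Ideal.span {f})) N y = 0) : y * ∏ m, sg k A m g = 0 := by
  obtain ⟨σ, hσ⟩ :=
    (Ideal.Quotient.mkₐ k (Ideal.span {f})).toLinearMap.exists_rightInverse_of_surjective
      (LinearMap.range_eq_top.2 Ideal.Quotient.mk_surjective)
  have hσ' : ∀ y : A ⧸ Ideal.span {f}, Ideal.Quotient.mk (Ideal.span {f}) (σ y) = y :=
    fun y => LinearMap.congr_fun hσ y
  have h1 : (LinearMap.mulLeft k g ∘ₗ σ) ∘ₗ (Ideal.Quotient.mkₐ k (Ideal.span {f})).toLinearMap =
      LinearMap.mulLeft k g := by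
    refine LinearMap.ext fun y => ?_
    change g * σ (Ideal.Quotient.mk _ y) = g * y
    have h2 : σ (Ideal.Quotient.mk (Ideal.span {f}) y) - y ∈ Ideal.span {f} := by
      rw [← Ideal.Quotient.eq]
      exact hσ' _
    obtain ⟨z, hz⟩ := Ideal.mem_span_singleton'.1 h2
    rw [← sub_eq_zero, ← mul_sub, ← hz]
    calc g * (z * f) = z * (f * g) := by ring
      _ = 0 := by rw [hfg, mul_zero]
  have h3 := LinearMap.congr_fun (powMap_eq_map (Ideal.Quotient.mkₐ k (Ideal.span {f})) N) y
  rw [AlgHom.toLinearMap_apply, h] at h3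
  rw [← map_mulLeft, ← h1, PiTensorProduct.map_comp, LinearMap.comp_apply, ← h3, map_zero]

theorem powMap_eq_zero_of_mul {f g : A} (hfg : IsCoprime f g) (N : ℕ) (y : Pow k A N)
    (h : y * ∏ m, sg k A m g = 0) :
    powMap (Ideal.Quotient.mkₐ k (Ideal.span {f})) N y = 0 := by
  obtain ⟨u, w, huw⟩ := hfg
  set π := Ideal.Quotient.mkₐ k (Ideal.span {f}) with hπ
  have h0 : π f = 0 := Ideal.Quotient.eq_zero_iff_mem.2 (Ideal.mem_span_singleton_self f)
  have h1 : π g * π w = 1 := by
    rw [← map_one π, ← huw, map_add, map_mul, map_mul, h0, mul_zero, zero_add, mul_comm]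
  have h2 : ∀ (z : A) (m : Fin N), powMap π N (sg k A m z) = sg k _ m (π z) := fun z m =>
    powLift_single _ m z
  have h3 : powMap π N y * ∏ m, sg k _ m (π g) = 0 := by
    have h4 := congrArg (powMap π N) h
    rw [map_mul, map_prod, map_zero] at h4
    simp only [h2] at h4
    exact h4
  have h5 : (∏ m : Fin N, sg k _ m (π g)) * ∏ m : Fin N, sg k _ m (π w) = 1 := by
    rw [← Finset.prod_mul_distrib]
    refine Finset.prod_eq_one fun m _ => ?_
    rw [← map_mul, h1, map_one]
  calc powMap π N y = powMap π N y *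
        ((∏ m : Fin N, sg k _ m (π g)) * ∏ m : Fin N, sg k _ m (π w)) := by rw [h5, mul_one]
    _ = 0 := by rw [← mul_assoc, h3, zero_mul]

theorem phiPow_comp {σ B : Type} [CommRing B] [Algebra k B] (φ : MvPolynomial σ k →ₐ[k] A)
    (f : A →ₐ[k] B) (N : ℕ) (F : MvPolynomial (Fin N × σ) k) :
    phiPow (f.comp φ) N F = powMap f N (phiPow φ N F) := by
  have h : phiPow (f.comp φ) N = (powMap f N).comp (phiPow φ N) := by
    refine MvPolynomial.algHom_ext fun x => ?_
    have h1 : phiPow (f.comp φ) N (MvPolynomial.X x) =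
        sg k B x.1 ((f.comp φ) (MvPolynomial.X x.2)) := MvPolynomial.aeval_X _ _
    have h2 : phiPow φ N (MvPolynomial.X x) = sg k A x.1 (φ (MvPolynomial.X x.2)) :=
      MvPolynomial.aeval_X _ _
    rw [h1, AlgHom.comp_apply, AlgHom.comp_apply, h2]
    exact (powLift_single (fun i => (sg k B i).comp f) x.1 _).symm
  exact AlgHom.congr_fun h F

theorem fam_pow_one {D : ℕ} (h : Fam k A D) : Fam k (Pow k A 1) D := by
  have h1 : (sg k A (0 : Fin 1)).range = ⊤ := by
    refine pow_eq_top _ fun i a => ?_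
    have : i = 0 := Subsingleton.elim _ _
    subst this
    exact ⟨a, rfl⟩
  exact h.of_surjective (sg k A (0 : Fin 1)) (AlgHom.range_eq_top _ |>.1 h1)

end mul

section blocks

variable {ι : Type} [Fintype ι] {n : ℕ}

/-- the polynomial with parameters which describes vanishing on a factor -/
noncomputable def hp (a α : ι → k) (T : Finset (Fin n)) {N : ℕ}
    (F : MvPolynomial (Fin N × ι) k) : MvPolynomial (Fin N × ι) (MvPolynomial (Fin n) k) :=
  MvPolynomial.map MvPolynomial.C F * ∏ m : Fin N, ∏ j ∈ T,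
    ((∑ l, MvPolynomial.C (MvPolynomial.C (α l)) *
      (MvPolynomial.X (m, l) + MvPolynomial.C (MvPolynomial.C (a l)))) -
        MvPolynomial.C (MvPolynomial.X j))

theorem phiPow_hp (a α : ι → k) (T : Finset (Fin n)) {N : ℕ} (F : MvPolynomial (Fin N × ι) k)
    (ρ : Fin n → k) {A : Type} [CommRing A] [Algebra k A] (v : Module.Basis ι k A) :
    phiPow (crd a v) N (MvPolynomial.map (MvPolynomial.eval ρ) (hp a α T F)) =
      phiPow (crd a v) N F * ∏ m, sg k A m (pr T ρ (el α v)) := by
  have hC : ∀ (N : ℕ) (b : k), phiPow (crd a v) N (MvPolynomial.C b) =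
      algebraMap k _ b := fun N b => (phiPow (crd a v) N).commutes b
  unfold hp
  rw [map_mul, map_mul]
  congr 1
  · rw [MvPolynomial.map_map]
    have h1 : (MvPolynomial.eval ρ).comp (MvPolynomial.C : k →+* MvPolynomial (Fin n) k) =
        RingHom.id k := by
      ext b
      simp
    rw [h1, MvPolynomial.map_id]
  · rw [map_prod, map_prod]
    refine Finset.prod_congr rfl fun m _ => ?_
    rw [map_prod, map_prod, pr, map_prod]
    refine Finset.prod_congr rfl fun j _ => ?_
    rw [map_sub, map_sub, map_sum, map_sum, map_sub, MvPolynomial.map_C, MvPolynomial.eval_X, hC,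
      AlgHom.commutes]
    congr 1
    rw [el, map_sum]
    refine Finset.sum_congr rfl fun l _ => ?_
    rw [map_mul, map_add, MvPolynomial.map_C, MvPolynomial.map_C, MvPolynomial.eval_C,
      MvPolynomial.eval_C, MvPolynomial.map_X, map_mul, map_add, hC, hC]
    have h2 : phiPow (crd a v) N (MvPolynomial.X (m, l)) =
        sg k A m (crd a v (MvPolynomial.X l)) := MvPolynomial.aeval_X _ _
    rw [h2, crd_X, map_sub, AlgHom.commutes, sub_add_cancel, map_smul, Algebra.smul_def]

variable [DecidableEq ι]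

/-- **Limits of the factors.** -/
theorem block [IsAlgClosed k] (o : ι) (α : ι → k) (T : Finset (Fin n)) {D : ℕ} (hD : 1 ≤ D)
    {S : Set ((ι × ι × ι) ⊕ Fin n → k)}
    (hS : ∀ z ∈ S, ∃ (A : Type) (_ : CommRing A) (_ : Algebra k A) (v : Module.Basis ι k A),
      IsStr o (z ∘ Sum.inl) A v ∧
      pr T (z ∘ Sum.inr) (el α v) * pr Tᶜ (z ∘ Sum.inr) (el α v) = 0 ∧
      Nontrivial (A ⧸ Ideal.span {pr T (z ∘ Sum.inr) (el α v)}) ∧
      mdeg k (A ⧸ Ideal.span {pr T (z ∘ Sum.inr) (el α v)}) ≤ D)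
    {c : (ι × ι × ι) ⊕ Fin n → k} (hc : InClosure S c)
    {A : Type} [CommRing A] [Algebra k A] {v : Module.Basis ι k A}
    (h : IsStr o (c ∘ Sum.inl) A v)
    (hcop : IsCoprime (pr T (c ∘ Sum.inr) (el α v)) (pr Tᶜ (c ∘ Sum.inr) (el α v)))
    (hloc : IsLocalRing (A ⧸ Ideal.span {pr T (c ∘ Sum.inr) (el α v)})) :
    rate k (A ⧸ Ideal.span {pr T (c ∘ Sum.inr) (el α v)}) ≤ D := by
  have hfin : Module.Finite k A := Module.Finite.of_basis v
  set I := Ideal.span {pr T (c ∘ Sum.inr) (el α v)} with hI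
  obtain ⟨χ⟩ := exists_aug (k := k) (A ⧸ I)
  let a : ι → k := fun i => χ (Ideal.Quotient.mkₐ k I (v i))
  have hX : ∀ i, ((Ideal.Quotient.mkₐ k I).comp (crd a v)) (MvPolynomial.X i) ∈
      IsLocalRing.maximalIdeal (A ⧸ I) := by
    intro i
    apply aug_mem χ
    rw [AlgHom.comp_apply, crd_X, map_sub, map_sub, AlgHom.commutes, AlgHom.commutes]
    exact sub_self _
  have hnil := nil_of_local ((Ideal.Quotient.mkₐ k I).comp (crd a v)) hX
    (Module.finrank k (A ⧸ I)) le_rfl
  have hsurj : Function.Surjective ((Ideal.Quotient.mkₐ k I).comp (crd a v)) :=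
    Ideal.Quotient.mk_surjective.comp (crd_surjective a v)
  have key : rate k (A ⧸ I) ^ 1 ≤ D := by
    refine rate_pow_le_of_covers ((Ideal.Quotient.mkₐ k I).comp (crd a v)) hsurj
      (Module.finrank k (A ⧸ I)) hnil 1 D hD fun M Θ hΘ F hdeg hF => ?_
    rw [phiPow_comp]
    refine powMap_eq_zero_of_mul hcop _ _ ?_
    rw [← phiPow_hp]
    refine phiPow_eq_zero_of_closure o a (M * 1) (hp a α Tᶜ F) (fun z hz => ?_) hc h
    obtain ⟨B, _, _, w, h1, h2, h3, h4⟩ := hS z hz
    refine ⟨B, _, _, w, h1, ?_⟩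
    have hfinB : Module.Finite k B := Module.Finite.of_basis w
    rw [phiPow_hp]
    refine mul_eq_zero_of_powMap h2 _ _ ?_
    rw [← phiPow_comp]
    obtain ⟨D', hD'⟩ := exists_fam (k := k) (B ⧸ Ideal.span {pr T (z ∘ Sum.inr) (el α w)})
    have h5 := fam_pow_one ((mdeg_spec hD').mono h4)
    exact covers_gridSet ((Ideal.Quotient.mkₐ k _).comp (crd a w)) h5 (M * 1) M _ le_rfl Θ hΘ F
      hdeg hF
  rwa [pow_one] at key

end blocks

end Pool.Agent.Q180.SC.Str
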