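import Pool.Agent.Q180.SC.Univ2
import Mathlib.RingTheory.Nullstellensatz

/-!
# Growth rates are well-ordered; uniform bounds; finitely many polynomials
-/

set_option autoImplicit false

namespace Pool.Agent.Q180.SC

open scoped TensorProduct PowerSeries Topology
open Pool.Agent.H826R3.SM Pool.Agent.TH671.DU Filter

variable {k : Type} [Field k]

theorem irate_mono {u v : ℕ → ℕ} (h : ∀ n, u n ≤ v n) : irate u ≤ irate v := by
  refine le_ciInf fun n => (irate_le u n).trans ?_
  refine Real.rpow_le_rpow (Nat.cast_nonneg _) ?_ (by positivity)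
  exact_mod_cast h (n + 1)

section

variable [IsAlgClosed k]

theorem mdeg_of_surjective {A B : Type} [CommRing A] [Algebra k A] [Module.Finite k A]
    [CommRing B] [Algebra k B] (f : A →ₐ[k] B)
    (hf : Function.Surjective f) (n : ℕ) : mdeg k (Pow k B n) ≤ mdeg k (Pow k A n) := by
  have := finite_Pow (k := k) (R := A) n
  obtain ⟨D, hD⟩ := exists_fam (k := k) (Pow k A n)
  exact mdeg_le ((mdeg_spec hD).of_surjective (powMap f n) (powMap_surjective f hf n))

/-- the growth rate is monotone under quotients -/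
theorem rate_of_surjective {A B : Type} [CommRing A] [Algebra k A] [Module.Finite k A]
    [CommRing B] [Algebra k B] [Module.Finite k B] (f : A →ₐ[k] B)
    (hf : Function.Surjective f) : rate k B ≤ rate k A := by
  rw [rate_eq, rate_eq]
  exact irate_mono fun n => mdeg_of_surjective f hf n

/-- the growth rate is monotone under subalgebras -/
theorem rate_of_injective {A B : Type} [CommRing A] [Algebra k A] [Module.Finite k A]
    [CommRing B] [Algebra k B] [Module.Finite k B] (f : A →ₐ[k] B)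
    (hf : Function.Injective f) : rate k A ≤ rate k B := by
  rw [rate_eq, rate_eq]
  refine irate_mono fun n => ?_
  have := finite_Pow (k := k) (R := B) n
  obtain ⟨D, hD⟩ := exists_fam (k := k) (Pow k B n)
  exact mdeg_le (fam_of_injective (mdeg_spec hD) (powMap f n) (powMap_injective f hf n))

theorem rate_congr {A B : Type} [CommRing A] [Algebra k A] [Module.Finite k A]
    [CommRing B] [Algebra k B] [Module.Finite k B] (e : A ≃ₐ[k] B) : rate k A = rate k B :=
  le_antisymm (rate_of_injective e.toAlgHom e.injective)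
    (rate_of_surjective e.toAlgHom e.surjective)

/-- the index set of a basis of the universal algebra -/
abbrev UI (k : Type) [Field k] (d : ℕ) : Type := Fin (Module.finrank k (Univ k d))

/-- a basis of the universal algebra -/
noncomputable def ub (k : Type) [Field k] (d : ℕ) : Module.Basis (UI k d) k (Univ k d) :=
  Module.finBasis k (Univ k d)

omit [IsAlgClosed k] in
theorem exists_matrix {R : Type} [CommRing R] [Algebra k R] {κ : Type} [Fintype κ] (d : ℕ)
    (b : Module.Basis κ k R) (A : Type) [CommRing A] [Algebra k A] [Module.Finite k A]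
    (hA : Module.finrank k A ≤ d) (f : R →ₐ[k] A) (hf : Function.Surjective f) :
    ∃ (c : κ × Fin d → k) (I : Ideal R), IsKernel b c I ∧ Nonempty ((R ⧸ I) ≃ₐ[k] A) := by
  classical
  obtain ⟨j, hj⟩ : ∃ j : A →ₗ[k] (Fin d → k), Function.Injective j := by
    let β := Module.finBasis k A
    refine ⟨LinearMap.pi fun l : Fin d => if h : (l : ℕ) < Module.finrank k A then
      β.coord ⟨l, h⟩ else 0, ?_⟩
    rw [injective_iff_map_eq_zero]
    intro a ha
    apply β.repr.injective
    rw [map_zero]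
    ext i
    have h1 := congrFun ha ⟨i, i.2.trans_le hA⟩
    rw [LinearMap.pi_apply] at h1
    simp only [Fin.eta, i.2, dif_pos] at h1
    exact h1
  refine ⟨fun q => j (f (b q.1)) q.2, RingHom.ker f, ?_,
    ⟨Ideal.quotientKerAlgEquivOfSurjective hf⟩⟩
  have hlin : lin b (fun q : κ × Fin d => j (f (b q.1)) q.2) = j ∘ₗ f.toLinearMap := by
    refine b.ext fun i => ?_
    funext l
    rw [lin_basis]
    rfl
  intro x
  rw [hlin, RingHom.mem_ker]
  change f x = 0 ↔ j (f x) = 0
  rw [map_eq_zero_iff j hj]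

theorem exists_param (d : ℕ) (A : Type) [CommRing A] [Algebra k A] [Module.Finite k A]
    (hA : Module.finrank k A ≤ d) :
    ∃ (c : UI k d × Fin d → k) (I : Ideal (Univ k d)), IsKernel (ub k d) c I ∧
      Nonempty ((Univ k d ⧸ I) ≃ₐ[k] A) := by
  obtain ⟨f, hf⟩ := exists_surj d A hA
  exact exists_matrix d (ub k d) A hA f hf

/-- **Finitely many polynomials** describe the condition that the growth rate is at most `x`. -/
theorem exists_polynomials {R : Type} [CommRing R] [Algebra k R] [Module.Finite k R]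
    {κ ι : Type} [Fintype κ] [Fintype ι] (b : Module.Basis κ k R) (x : ℝ) :
    ∃ P : Finset (MvPolynomial (κ × ι) k), ∀ (c : κ × ι → k) (I : Ideal R), IsKernel b c I →
      I ≠ ⊤ → (rate k (R ⧸ I) ≤ x ↔ ∀ p ∈ P, MvPolynomial.eval c p = 0) := by
  classical
  let S : Set (κ × ι → k) := {s | ∃ I : Ideal R, IsKernel b s I ∧ I ≠ ⊤ ∧ rate k (R ⧸ I) ≤ x}
  let V : Ideal (MvPolynomial (κ × ι) k) :=
    { carrier := {P | ∀ s ∈ S, MvPolynomial.eval s P = 0}
      zero_mem' := fun s _ => map_zero _
      add_mem' := fun {p q} hp hq s hs => by rw [map_add, hp s hs, hq s hs, add_zero]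
      smul_mem' := fun c p hp s hs => by rw [smul_eq_mul, map_mul, hp s hs, mul_zero] }
  obtain ⟨P, hP⟩ : V.FG := IsNoetherian.noetherian V
  have hV : ∀ p, p ∈ V ↔ ∀ s ∈ S, MvPolynomial.eval s p = 0 := fun p => Iff.rfl
  refine ⟨P, fun c I hI hI' => ⟨fun h p hp => ?_, fun h => ?_⟩⟩
  · have h1 : p ∈ V := by rw [← hP]; exact Ideal.subset_span hp
    exact (hV p).1 h1 c ⟨I, hI, hI', h⟩
  · refine rate_le_of_closure b S x (fun s hs => hs) (fun p hp => ?_) hI hI'
    have h1 : p ∈ Ideal.span (P : Set (MvPolynomial (κ × ι) k)) := by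
      have h0 : p ∈ V := (hV p).2 hp
      rw [← hP] at h0
      exact h0
    have h2 : Ideal.span (P : Set (MvPolynomial (κ × ι) k)) ≤
        RingHom.ker (MvPolynomial.eval c) := by
      rw [Ideal.span_le]
      intro q hq
      exact h q hq
    exact h2 h1

/-- **Well-ordered.** -/
theorem rates_isWF (d : ℕ) :
    {r : ℝ | ∃ (A : Type) (_ : CommRing A) (_ : Algebra k A), Module.Finite k A ∧ Nontrivial A ∧
      Module.finrank k A ≤ d ∧ rate k A = r}.IsWF := by
  rw [Set.isWF_iff_no_descending_seq]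
  intro r hr hmem
  have hex : ∀ n, ∃ (c : UI k d × Fin d → k), ∃ I : Ideal (Univ k d), IsKernel (ub k d) c I ∧
      I ≠ ⊤ ∧ rate k (Univ k d ⧸ I) = r n := by
    intro n
    obtain ⟨A, _, _, h1, h2, h3, h4⟩ := hmem n
    obtain ⟨c, I, h5, ⟨e⟩⟩ := exists_param d A h3
    have hnt : Nontrivial (Univ k d ⧸ I) := e.toEquiv.nontrivial
    exact ⟨c, I, h5, Ideal.Quotient.nontrivial_iff.1 hnt, (rate_congr e).trans h4⟩
  choose c I hI1 hI2 hI3 using hex
  let S : ℕ → Set (UI k d × Fin d → k) := fun n => {s | ∃ j, n ≤ j ∧ s = c j}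
  let V : ℕ → Ideal (MvPolynomial (UI k d × Fin d) k) := fun n =>
    { carrier := {P | ∀ s ∈ S n, MvPolynomial.eval s P = 0}
      zero_mem' := fun s _ => map_zero _
      add_mem' := fun {p q} hp hq s hs => by rw [map_add, hp s hs, hq s hs, add_zero]
      smul_mem' := fun c p hp s hs => by rw [smul_eq_mul, map_mul, hp s hs, mul_zero] }
  have hV : ∀ n p, p ∈ V n ↔ ∀ s ∈ S n, MvPolynomial.eval s p = 0 := fun n p => Iff.rfl
  have hmono : Monotone V := by
    intro m n hmn p hp
    rw [hV] at hp ⊢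
    rintro s ⟨j, hj, rfl⟩
    exact hp _ ⟨j, hmn.trans hj, rfl⟩
  obtain ⟨n, hn⟩ := monotone_stabilizes_iff_noetherian.2
    (inferInstance : IsNoetherian (MvPolynomial (UI k d × Fin d) k)
      (MvPolynomial (UI k d × Fin d) k)) ⟨V, hmono⟩
  have h1 : V n = V (n + 1) := hn (n + 1) (Nat.le_succ n)
  have h2 : InClosure (S (n + 1)) (c n) := by
    intro p hp
    have h3 : p ∈ V (n + 1) := (hV _ p).2 hp
    rw [← h1] at h3
    exact (hV n p).1 h3 _ ⟨n, le_rfl, rfl⟩
  have h3 : rate k (Univ k d ⧸ I n) ≤ r (n + 1) := by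
    refine rate_le_of_closure (ub k d) (S (n + 1)) (r (n + 1)) ?_ h2 (hI1 n) (hI2 n)
    rintro s ⟨j, hj, rfl⟩
    refine ⟨I j, hI1 j, hI2 j, ?_⟩
    rw [hI3]
    exact hr.antitone hj
  rw [hI3] at h3
  exact absurd (hr (Nat.lt_succ_self n)) (not_lt.2 h3)

theorem finrank_add_eq (A : Type) [CommRing A] [Algebra k A] [Module.Finite k A] (n : ℕ) :
    (Module.finrank k A : ℝ) ^ n + defect k (Pow k A n) = mdeg k (Pow k A n) := by
  have hfin := finite_Pow (k := k) (R := A) n
  have h2 := fadd k (Pow k A n)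
  have h5 : Module.finrank k (Pow k A n) = Module.finrank k A ^ n := finrank_Pow' A n
  have h6 : ((Module.finrank k A ^ n + defect k (Pow k A n) : ℕ) : ℝ) =
      (mdeg k (Pow k A n) : ℕ) := by
    rw [← h5]
    exact congrArg _ h2
  push_cast at h6
  exact h6

/-- **Uniform bound** for all algebras of degree `d` with growth rate at most `x`. -/
theorem uniform_degree (d : ℕ) (x η : ℝ) (hη : 0 < η) : ∃ C : ℝ, 0 ≤ C ∧
    ∀ (A : Type) [CommRing A] [Algebra k A] [Module.Finite k A] [Nontrivial A],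
      Module.finrank k A ≤ d → rate k A ≤ x → ∀ n : ℕ,
        (Module.finrank k A : ℝ) ^ n + defect k (Pow k A n) ≤ C * (x + η) ^ n := by
  let S : Set (UI k d × Fin d → k) := {s | ∃ I : Ideal (Univ k d), IsKernel (ub k d) s I ∧
    I ≠ ⊤ ∧ rate k (Univ k d ⧸ I) ≤ x}
  obtain ⟨C, hC, h⟩ := uniform (ub k d) S x (fun s hs => hs) η hη
  refine ⟨C, hC, fun A _ _ _ _ hA hx n => ?_⟩
  obtain ⟨c, I, hI, ⟨e⟩⟩ := exists_param d A hA
  have hnt : Nontrivial (Univ k d ⧸ I) := e.toEquiv.nontrivial
  have h1 := h c (inClosure_of_mem ⟨I, hI, Ideal.Quotient.nontrivial_iff.1 hnt,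
    (rate_congr e).le.trans hx⟩) I hI n
  have h4 : (Module.finrank k A : ℝ) ^ n + defect k (Pow k A n) = mdeg k (Pow k A n) :=
    finrank_add_eq A n
  have h3 : (mdeg k (Pow k A n) : ℝ) ≤ mdeg k (Pow k (Univ k d ⧸ I) n) :=
    Nat.cast_le.2 (mdeg_of_surjective e.toAlgHom e.surjective n)
  rw [h4]
  exact h3.trans h1

/-- **The gap.** -/
theorem gap (d : ℕ) : ∃ ε : ℝ, 0 < ε ∧
    ∀ (A : Type) [CommRing A] [Algebra k A] [Module.Finite k A] [Nontrivial A],
      Module.finrank k A = d → rate k A < d + ε → rate k A = d := by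
  let W : Set ℝ := {r : ℝ | ∃ (A : Type) (_ : CommRing A) (_ : Algebra k A), Module.Finite k A ∧
    Nontrivial A ∧ Module.finrank k A ≤ d ∧ rate k A = r}
  have hW : W.IsWF := rates_isWF d
  let W' : Set ℝ := {r ∈ W | (d : ℝ) < r}
  have hW' : W'.IsWF := hW.mono fun r hr => hr.1
  rcases W'.eq_empty_or_nonempty with h0 | h0
  · refine ⟨1, one_pos, fun A _ _ _ _ hA _ => ?_⟩
    have h1 := finrank_le_rate (k := k) A
    rw [hA] at h1
    refine le_antisymm ?_ h1
    by_contra hcon
    push Not at hcon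
    have : rate k A ∈ W' := ⟨⟨A, _, _, inferInstance, inferInstance, hA.le, rfl⟩, hcon⟩
    rw [h0] at this
    exact this
  · have h2 : (d : ℝ) < hW'.min h0 := (hW'.min_mem h0).2
    refine ⟨hW'.min h0 - d, by linarith, fun A _ _ _ _ hA hlt => ?_⟩
    have h1 := finrank_le_rate (k := k) A
    rw [hA] at h1
    refine le_antisymm ?_ h1
    by_contra hcon
    push Not at hcon
    have hm : rate k A ∈ W' := ⟨⟨A, _, _, inferInstance, inferInstance, hA.le, rfl⟩, hcon⟩
    have h3 : hW'.min h0 ≤ rate k A := hW'.min_le h0 hm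
    linarith

end

end Pool.Agent.Q180.SC
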