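import Pool.Agent.Q180.SC.Cons

/-!
# Final forms
-/

set_option autoImplicit false

namespace Pool.Agent.Q180.SC

open scoped TensorProduct PowerSeries Topology
open Pool.Agent.H826R3.SM Pool.Agent.TH671.DU Filter

variable {k : Type} [Field k]

/-- The values at the point `c` of the family `F` of polynomials. -/
noncomputable def evalAt {τ θ : Type} (F : θ → MvPolynomial τ k) (c : τ → k) : θ → k :=
  fun q => MvPolynomial.eval c (F q)

theorem closure_image {τ θ : Type} (F : θ → MvPolynomial τ k) {S : Set (τ → k)} {c : τ → k}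
    (h : InClosure S c) : InClosure (evalAt F '' S) (evalAt F c) := by
  intro P hP
  have key : ∀ s, MvPolynomial.eval s (MvPolynomial.bind₁ F P) =
      MvPolynomial.eval (evalAt F s) P := by
    intro s
    rw [← MvPolynomial.coe_aeval_eq_eval, RingHom.coe_coe, MvPolynomial.aeval_bind₁]
    rfl
  rw [← key]
  refine h _ fun s hs => ?_
  rw [key]
  exact hP _ ⟨s, hs, rfl⟩

/-- a well-ordered set of real numbers is countable -/
theorem countable_of_isWF {s : Set ℝ} (hs : s.IsWF) : s.Countable := by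
  have h : ∀ r : ℝ, ∃ q : ℚ, r < q ∧ ∀ r' ∈ s, r < r' → (q : ℝ) < r' := by
    intro r
    let T : Set ℝ := {r' ∈ s | r < r'}
    have hT : T.IsWF := hs.mono fun x hx => hx.1
    rcases T.eq_empty_or_nonempty with h0 | h0
    · obtain ⟨q, hq⟩ := exists_rat_gt r
      refine ⟨q, hq, fun r' h1 h2 => ?_⟩
      have : r' ∈ T := ⟨h1, h2⟩
      rw [h0] at this
      exact absurd this (Set.notMem_empty r')
    · have h1 : r < hT.min h0 := (hT.min_mem h0).2
      obtain ⟨q, hq1, hq2⟩ := exists_rat_btwn h1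
      exact ⟨q, hq1, fun r' h2 h3 => hq2.trans_le (hT.min_le h0 ⟨h2, h3⟩)⟩
  choose q hq1 hq2 using h
  have hinj : Set.InjOn q s := by
    intro a ha b hb hab
    rcases lt_trichotomy a b with h | h | h
    · have h1 := hq2 a b hb h
      rw [hab] at h1
      exact absurd (hq1 b) (not_lt.2 h1.le)
    · exact h
    · have h1 := hq2 b a ha h
      rw [← hab] at h1
      exact absurd (hq1 a) (not_lt.2 h1.le)
  exact (Set.mapsTo_image q s).countable_of_injOn hinj (Set.to_countable _)

section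

variable [IsAlgClosed k]

theorem rates_countable :
    {r : ℝ | ∃ (A : Type) (_ : CommRing A) (_ : Algebra k A), Module.Finite k A ∧ Nontrivial A ∧
      rate k A = r}.Countable := by
  refine (Set.countable_iUnion fun d : ℕ => countable_of_isWF (rates_isWF (k := k) d)).mono ?_
  rintro r ⟨A, _, _, h1, h2, h3⟩
  exact Set.mem_iUnion.2 ⟨Module.finrank k A, A, _, _, h1, h2, le_rfl, h3⟩

theorem rate_lt_of {A : Type} [CommRing A] [Algebra k A] [Module.Finite k A] [Nontrivial A]
    {x : ℝ} {n : ℕ} (hx : 0 ≤ x)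
    (h : (Module.finrank k A : ℝ) ^ n + defect k (Pow k A n) < x ^ n) : rate k A < x := by
  rw [finrank_add_eq A n] at h
  have h1 := rate_pow_le (k := k) A n
  have h2 : rate k A ^ n < x ^ n := h1.trans_lt h
  exact lt_of_pow_lt_pow_left₀ n hx h2

/-- the gap in terms of one power -/
theorem certificate (d : ℕ) : ∃ ε : ℝ, 0 < ε ∧
    ∀ (A : Type) [CommRing A] [Algebra k A] [Module.Finite k A] [Nontrivial A],
      Module.finrank k A = d → (QOne k A ↔
        ∃ n : ℕ, 1 ≤ n ∧ (d : ℝ) ^ n + defect k (Pow k A n) < (d + ε) ^ n) := by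
  obtain ⟨ε, hε, h⟩ := gap (k := k) d
  refine ⟨ε, hε, fun A _ _ _ _ hA => ?_⟩
  rw [qOne_iff_rate, hA]
  constructor
  · intro hr
    obtain ⟨C, hC, hG⟩ := rate_growth (k := k) A (ε / 2) (half_pos hε)
    have hd : 0 < d := by
      rw [← hA]
      exact Module.finrank_pos
    have hd0 : (0 : ℝ) < d := by exact_mod_cast hd
    obtain ⟨n, hn, h1⟩ := exists_exp 0 0 (C + 1) (by positivity)
      (show (0 : ℝ) < d + ε / 2 by linarith) (show (d : ℝ) + ε / 2 < d + ε by linarith)
    refine ⟨n, hn, ?_⟩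
    have h2 := finrank_add_eq (k := k) A n
    rw [hA] at h2
    rw [h2]
    refine (hG n).trans_lt ?_
    rw [hr]
    rw [pow_zero, mul_one, add_zero] at h1
    refine lt_of_lt_of_le ?_ h1
    have h3 : (0 : ℝ) < ((d : ℝ) + ε / 2) ^ n := by positivity
    nlinarith
  · rintro ⟨n, hn, h1⟩
    refine h A hA (rate_lt_of (n := n) (by positivity) ?_)
    rw [hA]
    exact h1

/-- Q1 in degree `d` holds uniformly -/
theorem uniform_qOne (d : ℕ)
    (h : ∀ (A : Type) [CommRing A] [Algebra k A] [Module.Finite k A] [Nontrivial A],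
      Module.finrank k A = d → QOne k A) (ε : ℝ) (hε : 0 < ε) (δ : ℝ) (hδ : 0 < δ) :
    ∃ N : ℕ, ∀ n : ℕ, N ≤ n →
      ∀ (A : Type) [CommRing A] [Algebra k A] [Module.Finite k A] [Nontrivial A],
        Module.finrank k A = d →
          (defect k (Pow k A n) : ℝ) / (Module.finrank k A : ℝ) ^ ((1 + ε) * (n : ℝ)) < δ := by
  rcases Nat.lt_or_ge 1 d with hd | hd
  swap
  · refine ⟨1, fun n _ A _ _ _ _ hA => ?_⟩
    have hp : 0 < Module.finrank k A := Module.finrank_pos
    have h1 : Module.finrank k A = 1 := by omega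
    have h2 := finrank_add_eq (k := k) A n
    have h3 : mdeg k (Pow k A n) ≤ 1 := mdeg_le (Growth.one_of_finrank h1 n)
    have h4 : (mdeg k (Pow k A n) : ℝ) ≤ 1 := by exact_mod_cast h3
    rw [h1, Nat.cast_one, one_pow] at h2
    have h5 : (defect k (Pow k A n) : ℝ) = 0 := by
      have : (0 : ℝ) ≤ defect k (Pow k A n) := Nat.cast_nonneg _
      linarith
    rw [h5, zero_div]
    exact hδ
  have hd1 : (1 : ℝ) < d := by exact_mod_cast hd
  have hlt : (d : ℝ) < (d : ℝ) ^ (1 + ε) := by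
    conv_lhs => rw [← Real.rpow_one (d : ℝ)]
    exact Real.rpow_lt_rpow_of_exponent_lt hd1 (by linarith)
  obtain ⟨C, hC, hU⟩ := uniform_degree (k := k) d d (((d : ℝ) ^ (1 + ε) - d) / 2) (by linarith)
  set y : ℝ := d + ((d : ℝ) ^ (1 + ε) - d) / 2 with hy
  have hy1 : 0 < y := by rw [hy]; linarith
  have hy2 : y < (d : ℝ) ^ (1 + ε) := by rw [hy]; linarith
  have hq1 : y / (d : ℝ) ^ (1 + ε) < 1 := by
    rw [div_lt_one (by positivity)]
    exact hy2
  have hq0 : 0 ≤ y / (d : ℝ) ^ (1 + ε) := by positivity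
  have hlim : Tendsto (fun n : ℕ => C * (y / (d : ℝ) ^ (1 + ε)) ^ n) atTop (𝓝 0) := by
    have := (tendsto_pow_atTop_nhds_zero_of_lt_one hq0 hq1).const_mul C
    rwa [mul_zero] at this
  obtain ⟨N, hN⟩ := eventually_atTop.1 (hlim.eventually_lt_const hδ)
  refine ⟨N, fun n hn A _ _ _ _ hA => ?_⟩
  have hr : rate k A ≤ d := by
    have := (qOne_iff_rate (k := k) A).1 (h A hA)
    rw [this, hA]
  have h1 := hU A hA.le hr n
  refine lt_of_le_of_lt ?_ (hN n hn)
  rw [hA]
  rw [hA] at h1
  rw [Real.rpow_mul (Nat.cast_nonneg _), Real.rpow_natCast, div_pow, ← mul_div_assoc]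
  refine div_le_div_of_nonneg_right ?_ (by positivity)
  have h2 : (0 : ℝ) ≤ (d : ℝ) ^ n := by positivity
  linarith

end

end Pool.Agent.Q180.SC
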