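import Pool.Agent.Q180.SC.Sep
import Pool.Agent.Q180.SC.Fin

/-!
# Points of a grid which cover the powers of a local scheme in bounded degree
-/

set_option autoImplicit false

namespace Pool.Agent.Q180.SC

open scoped TensorProduct PowerSeries Topology
open Pool.Agent.H826R3.SM Pool.Agent.TH671.DU Filter

variable {k : Type} [Field k]

/-- Every polynomial of degree at most `h` which vanishes at the points of `P` vanishes on
`Γ^N`. -/
def Covers {σ A : Type} [CommRing A] [Algebra k A] (φ : MvPolynomial σ k →ₐ[k] A) (N h : ℕ)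
    (P : Finset (Fin N × σ → k)) : Prop :=
  ∀ F : MvPolynomial (Fin N × σ) k, F.totalDegree ≤ h →
    (∀ p ∈ P, MvPolynomial.eval p F = 0) → phiPow φ N F = 0

/-- `n` points -/
theorem fam_points (n : ℕ) : Fam k (Fin n → k) n := by
  refine ⟨Fin n → k⟦X⟧, inferInstance, inferInstance, inferInstance, inferInstance, ?_, ?_,
    RingHom.pi fun i => (PowerSeries.constantCoeff (R := k)).comp (Pi.evalRingHom _ i), ?_,
      fun c => rfl⟩
  · refine isReduced_pi n ?_
    let e := Algebra.TensorProduct.rid k⟦X⟧ (LL k) (LL k)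
    exact isReduced_of_injective e e.injective
  · rw [Module.finrank_fin_fun]
  · intro y
    refine ⟨fun i => PowerSeries.C (y i), ?_⟩
    funext i
    change PowerSeries.constantCoeff (PowerSeries.C (y i)) = y i
    simp

theorem phiPow_surjective {σ A : Type} [CommRing A] [Algebra k A]
    (φ : MvPolynomial σ k →ₐ[k] A) (hφ : Function.Surjective φ) (N : ℕ) :
    Function.Surjective (phiPow φ N) := by
  rw [← AlgHom.range_eq_top]
  refine pow_eq_top _ fun i a => ?_
  obtain ⟨F, rfl⟩ := hφ a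
  exact ⟨MvPolynomial.rename (Prod.mk i) F, phiPow_rename φ N i F⟩

theorem degree_eq_sum_part {σ : Type} {N : ℕ} (s : Fin N × σ →₀ ℕ) :
    s.degree = ∑ l, (part s l).degree := by
  conv_lhs => rw [← sum_mapDomain_part s]
  rw [map_sum]
  refine Finset.sum_congr rfl fun l _ => ?_
  rw [Finsupp.degree_mapDomain]

theorem phiPow_nil {σ A : Type} [CommRing A] [Algebra k A] (φ : MvPolynomial σ k →ₐ[k] A) (e : ℕ)
    (hnil : ∀ s : σ →₀ ℕ, e < s.degree → φ (MvPolynomial.monomial s 1) = 0) (N : ℕ)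
    (s : Fin N × σ →₀ ℕ) (hs : e * N < s.degree) : phiPow φ N (MvPolynomial.monomial s 1) = 0 := by
  obtain ⟨l, hl⟩ : ∃ l, e < (part s l).degree := by
    by_contra hcon
    push Not at hcon
    rw [degree_eq_sum_part] at hs
    have h1 : ∑ l, (part s l).degree ≤ ∑ _l : Fin N, e := Finset.sum_le_sum fun l _ => hcon l
    rw [Finset.sum_const, Finset.card_univ, Fintype.card_fin, smul_eq_mul, mul_comm] at h1
    omega
  rw [phiPow_monomial]
  exact (PiTensorProduct.tprod k).map_coord_zero l (hnil _ hl)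

/-- **From points to smoothable schemes.** -/
theorem fam_of_covers [Infinite k] {σ A : Type} [CommRing A] [Algebra k A]
    (φ : MvPolynomial σ k →ₐ[k] A) (hφ : Function.Surjective φ) (e : ℕ)
    (hnil : ∀ s : σ →₀ ℕ, e < s.degree → φ (MvPolynomial.monomial s 1) = 0) (N : ℕ)
    (P : Finset (Fin N × σ → k)) (hP : Covers φ N (e * N) P) :
    Fam k (Pow k A N) ((e * N + 1) * P.card) := by
  let γ : MvPolynomial (Fin N × σ) k →ₐ[k] (Fin P.card → k) :=
    AlgHom.pi fun j => MvPolynomial.aeval (P.equivFin.symm j : Fin N × σ → k)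
  refine fam_of_degree (phiPow φ N) (phiPow_surjective φ hφ N) γ (e * N)
    (phiPow_nil φ e hnil N) (fun F hF h0 => hP F ?_ fun p hp => ?_) (fam_points P.card)
  · rw [MvPolynomial.totalDegree]
    refine Finset.sup_le fun s hs => ?_
    exact hF s hs
  · have h1 := congrFun h0 (P.equivFin ⟨p, hp⟩)
    change MvPolynomial.aeval (P.equivFin.symm (P.equivFin ⟨p, hp⟩) : Fin N × σ → k) F = 0 at h1
    rw [Equiv.symm_apply_apply] at h1
    exact h1

theorem exists_aug [IsAlgClosed k] (A : Type) [CommRing A] [Algebra k A] [Module.Finite k A]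
    [Nontrivial A] : Nonempty (A →ₐ[k] k) := by
  obtain ⟨M, hM⟩ := Ideal.exists_maximal A
  let _ : Field (A ⧸ M) := Ideal.Quotient.field M
  have hbij : Function.Bijective (algebraMap k (A ⧸ M)) :=
    IsAlgClosed.algebraMap_bijective_of_isIntegral
  let ee : k ≃ₐ[k] (A ⧸ M) := AlgEquiv.ofBijective (Algebra.ofId k (A ⧸ M)) hbij
  exact ⟨ee.symm.toAlgHom.comp (Ideal.Quotient.mkₐ k M)⟩

section grid

open Classical in
/-- The set of the points of `(Γ')^N` (`N ≤ M n`) in affine space, where `Γ'` runs through the sets of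
`D` points of the `n`-th power of affine space with coordinates in `Θ`. -/
noncomputable def gridSet {σ : Type} [Fintype σ] (D n N M : ℕ) (hN : N ≤ M * n) (Θ : Finset k) :
    Finset (Fin N × σ → k) :=
  ((Fintype.piFinset fun _ : Fin D × (Fin n × σ) => Θ) ×ˢ
    (Finset.univ : Finset (Fin M → Fin D))).image fun z x =>
      z.1 (z.2 (finProdFinEquiv.symm (Fin.castLE hN x.1)).1,
        ((finProdFinEquiv.symm (Fin.castLE hN x.1)).2, x.2))

theorem card_gridSet {σ : Type} [Fintype σ] (D n N M : ℕ) (hN : N ≤ M * n) (Θ : Finset k) :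
    (gridSet (σ := σ) D n N M hN Θ).card ≤ Θ.card ^ (D * (n * Fintype.card σ)) * D ^ M := by
  classical
  refine Finset.card_image_le.trans (le_of_eq ?_)
  rw [Finset.card_product, Fintype.card_piFinset]
  simp only [Finset.prod_const, Finset.card_univ, Fintype.card_prod, Fintype.card_fin,
    Fintype.card_pi]

theorem mem_gridSet {σ : Type} [Fintype σ] {D n N M : ℕ} {hN : N ≤ M * n} {Θ : Finset k}
    {p : Fin N × σ → k} (hp : p ∈ gridSet D n N M hN Θ) (x : Fin N × σ) : p x ∈ Θ := by
  classical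
  obtain ⟨z, hz, rfl⟩ := Finset.mem_image.1 hp
  exact Fintype.mem_piFinset.1 (Finset.mem_product.1 hz).1 _

/-- **From smoothable schemes to points of a grid.** -/
theorem covers_gridSet [IsAlgClosed k] {σ A : Type} [Fintype σ] [CommRing A] [Algebra k A]
    [Module.Finite k A] [Nontrivial A] (φ : MvPolynomial σ k →ₐ[k] A) {n D : ℕ}
    (hD : Fam k (Pow k A n) D) (N M h : ℕ) (hN : N ≤ M * n) (Θ : Finset k) (hΘ : h < Θ.card) :
    Covers φ N h (gridSet D n N M hN Θ) := by
  classical
  obtain ⟨ε⟩ := exists_aug (k := k) A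
  let j : Fin N → Fin M × Fin n := fun l => finProdFinEquiv.symm (Fin.castLE hN l)
  have hj : Function.Injective j :=
    finProdFinEquiv.symm.injective.comp (Fin.castLE_injective hN)
  intro F hdeg hF
  -- the polynomial in more variables
  let r : Fin N × σ → Fin M × (Fin n × σ) := fun x => ((j x.1).1, ((j x.1).2, x.2))
  have h1 : phiPow (phiPow φ n) M (MvPolynomial.rename r F) = 0 := by
    refine sep_grid (phiPow φ n) hD M h Θ hΘ _
      ((MvPolynomial.totalDegree_rename_le _ _).trans hdeg) fun q f hq => ?_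
    rw [MvPolynomial.eval_rename]
    refine hF _ (Finset.mem_image.2 ⟨(q, f), Finset.mem_product.2
      ⟨Fintype.mem_piFinset.2 hq, Finset.mem_univ _⟩, rfl⟩)
  -- the inclusion of powers and a retraction
  let Inc : Pow k A N →ₐ[k] Pow k (Pow k A n) M :=
    powLift fun l => (sg k (Pow k A n) (j l).1).comp (sg k A (j l).2)
  let Ret : Pow k (Pow k A n) M →ₐ[k] Pow k A N :=
    powLift fun a => powLift fun b => if h : ∃ l, j l = (a, b) then sg k A h.choose else
      (Algebra.ofId k (Pow k A N)).comp ε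
  have hret : ∀ y, Ret (Inc y) = y := by
    have h2 : Ret.comp Inc = AlgHom.id k _ := by
      have h3 : AlgHom.equalizer (Ret.comp Inc) (AlgHom.id k (Pow k A N)) = ⊤ := by
        refine pow_eq_top _ fun l a => ?_
        change Ret (Inc (sg k A l a)) = sg k A l a
        have h4 : Inc (sg k A l a) = sg k (Pow k A n) (j l).1 (sg k A (j l).2 a) :=
          powLift_single _ l a
        rw [h4]
        have h5 : Ret (sg k (Pow k A n) (j l).1 (sg k A (j l).2 a)) =
            (powLift fun b => if h : ∃ l', j l' = ((j l).1, b) then sg k A h.choose else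
              (Algebra.ofId k (Pow k A N)).comp ε) (sg k A (j l).2 a) :=
          powLift_single _ _ _
        rw [h5, powLift_single]
        have h6 : ∃ l', j l' = ((j l).1, (j l).2) := ⟨l, rfl⟩
        rw [dif_pos h6]
        have h7 : h6.choose = l := hj h6.choose_spec
        rw [h7]
      refine AlgHom.ext fun y => ?_
      have h4 : y ∈ AlgHom.equalizer (Ret.comp Inc) (AlgHom.id k (Pow k A N)) := by
        rw [h3]; trivial
      exact h4
    exact fun y => AlgHom.congr_fun h2 y
  have hinc : phiPow (phiPow φ n) M (MvPolynomial.rename r F) = Inc (phiPow φ N F) := by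
    have h2 : (phiPow (phiPow φ n) M).comp (MvPolynomial.rename r) = Inc.comp (phiPow φ N) := by
      refine MvPolynomial.algHom_ext fun x => ?_
      rw [AlgHom.comp_apply, MvPolynomial.rename_X, AlgHom.comp_apply]
      have h3 : phiPow φ N (MvPolynomial.X x) = sg k A x.1 (φ (MvPolynomial.X x.2)) :=
        MvPolynomial.aeval_X _ _
      have h4 : phiPow (phiPow φ n) M (MvPolynomial.X (r x)) = sg k (Pow k A n) (r x).1
          (phiPow φ n (MvPolynomial.X (r x).2)) := MvPolynomial.aeval_X _ _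
      have h5 : phiPow φ n (MvPolynomial.X (r x).2) =
          sg k A (r x).2.1 (φ (MvPolynomial.X (r x).2.2)) := MvPolynomial.aeval_X _ _
      have h6 : Inc (sg k A x.1 (φ (MvPolynomial.X x.2))) = sg k (Pow k A n) (j x.1).1
          (sg k A (j x.1).2 (φ (MvPolynomial.X x.2))) := powLift_single _ x.1 _
      rw [h3, h4, h5, h6]
    exact AlgHom.congr_fun h2 F
  rw [hinc] at h1
  rw [← hret (phiPow φ N F), h1, map_zero]

end grid

theorem exists_bound (E a : ℕ) {x y : ℝ} (hx : 0 < x) (hxy : x < y) :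
    ∃ C : ℝ, 0 ≤ C ∧ ∀ N : ℕ, ((a : ℝ) * N + 1) ^ E * x ^ N ≤ C * y ^ N := by
  have hr : 1 < y / x := (one_lt_div hx).2 hxy
  have h1 : Tendsto (fun n : ℕ => (n : ℝ) ^ E / (y / x) ^ n) atTop (𝓝 0) :=
    tendsto_pow_const_div_const_pow_of_one_lt E hr
  obtain ⟨B, hB⟩ := h1.bddAbove_range
  have hB' : ∀ N : ℕ, (N : ℝ) ^ E / (y / x) ^ N ≤ B := fun N => hB ⟨N, rfl⟩
  have hy : 0 < y := hx.trans hxy
  refine ⟨((a : ℝ) + 1) ^ E * max B 0 + 1, by positivity, fun N => ?_⟩
  rcases Nat.eq_zero_or_pos N with rfl | hN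
  · have h2 : (0 : ℝ) ≤ ((a : ℝ) + 1) ^ E * max B 0 := by positivity
    simp only [CharP.cast_eq_zero, mul_zero, zero_add, one_pow, pow_zero, mul_one]
    linarith
  have hN1 : (1 : ℝ) ≤ N := by exact_mod_cast hN
  have h2 : ((a : ℝ) * N + 1) ^ E ≤ ((a : ℝ) + 1) ^ E * (N : ℝ) ^ E := by
    rw [← mul_pow]
    exact pow_le_pow_left₀ (by positivity) (by nlinarith) E
  have h3 : (N : ℝ) ^ E * x ^ N ≤ max B 0 * y ^ N := by
    have h4 := hB' N
    rw [div_pow, div_div_eq_mul_div, div_le_iff₀ (by positivity)] at h4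
    exact h4.trans (mul_le_mul_of_nonneg_right (le_max_left _ _) (by positivity))
  have h5 : (0 : ℝ) ≤ y ^ N := by positivity
  calc ((a : ℝ) * N + 1) ^ E * x ^ N ≤ ((a : ℝ) + 1) ^ E * (N : ℝ) ^ E * x ^ N :=
        mul_le_mul_of_nonneg_right h2 (by positivity)
    _ = ((a : ℝ) + 1) ^ E * ((N : ℝ) ^ E * x ^ N) := by ring
    _ ≤ ((a : ℝ) + 1) ^ E * (max B 0 * y ^ N) := mul_le_mul_of_nonneg_left h3 (by positivity)
    _ ≤ _ := by nlinarith

/-- **Covering sets of the expected size**, with coordinates in any set of `e N + 1` elements. -/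
theorem exists_covers [IsAlgClosed k] {σ A : Type} [Fintype σ] [CommRing A] [Algebra k A]
    [Module.Finite k A] [Nontrivial A] (φ : MvPolynomial σ k →ₐ[k] A) (e : ℕ) (η : ℝ)
    (hη : 0 < η) : ∃ C : ℝ, 0 ≤ C ∧ ∀ (N : ℕ) (Θ : Finset k), e * N < Θ.card →
      ∃ P : Finset (Fin N × σ → k), (∀ p ∈ P, ∀ x, p x ∈ Θ) ∧ Covers φ N (e * N) P ∧
        (P.card : ℝ) ≤ C * (rate k A + η) ^ N := by
  have hr1 : (1 : ℝ) ≤ rate k A := by
    refine le_trans ?_ (finrank_le_rate A)
    exact_mod_cast (Module.finrank_pos (R := k) (M := A))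
  obtain ⟨C₀, hC₀, hG⟩ := rate_growth (k := k) A (η / 3) (by linarith)
  obtain ⟨n, hn, hn2⟩ := exists_exp 0 C₀ 0 le_rfl (show (0 : ℝ) < rate k A + η / 3 by linarith)
    (show rate k A + η / 3 < rate k A + η / 2 by linarith)
  rw [zero_mul, zero_add] at hn2
  set D := mdeg k (Pow k A n) with hD
  have hDn : (D : ℝ) ≤ (rate k A + η / 2) ^ n := (hG n).trans hn2
  have hfam : Fam k (Pow k A n) D := by
    have := finite_Pow (k := k) (R := A) n
    obtain ⟨D', hD'⟩ := exists_fam (k := k) (Pow k A n)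
    exact mdeg_spec hD'
  obtain ⟨C₁, hC₁, hB⟩ := exists_bound (D * (n * Fintype.card σ)) e
    (show (0 : ℝ) < rate k A + η / 2 by linarith) (show rate k A + η / 2 < rate k A + η by linarith)
  refine ⟨(rate k A + η / 2) ^ n * C₁, by positivity, fun N Θ hΘ => ?_⟩
  obtain ⟨Θ', hΘ', hcard⟩ := Finset.exists_subset_card_eq (show e * N + 1 ≤ Θ.card by omega)
  have hN : N ≤ (N / n + 1) * n := by
    have := Nat.div_add_mod N n
    have h2 := Nat.mod_lt N hn
    nlinarith
  set P := gridSet (σ := σ) D n N (N / n + 1) hN Θ' with hP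
  have hP2 : Covers φ N (e * N) P := covers_gridSet φ hfam N (N / n + 1) (e * N) hN Θ' (by omega)
  have hP3 := card_gridSet (σ := σ) D n N (N / n + 1) hN Θ'
  refine ⟨P, fun p hp x => hΘ' (mem_gridSet hp x), hP2, ?_⟩
  rw [hcard] at hP3
  have h1 : (P.card : ℝ) ≤ ((e : ℝ) * N + 1) ^ (D * (n * Fintype.card σ)) *
      (D : ℝ) ^ (N / n + 1) := by exact_mod_cast hP3
  have h2 : (D : ℝ) ^ (N / n + 1) ≤ (rate k A + η / 2) ^ n * (rate k A + η / 2) ^ N := by
    calc (D : ℝ) ^ (N / n + 1) ≤ ((rate k A + η / 2) ^ n) ^ (N / n + 1) :=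
          pow_le_pow_left₀ (Nat.cast_nonneg _) hDn _
      _ = (rate k A + η / 2) ^ n * (rate k A + η / 2) ^ (n * (N / n)) := by
          rw [← pow_mul, ← pow_add]
          congr 1
          ring
      _ ≤ _ := mul_le_mul_of_nonneg_left
          (pow_le_pow_right₀ (by linarith) (Nat.mul_div_le N n)) (by positivity)
  calc (P.card : ℝ) ≤ ((e : ℝ) * N + 1) ^ (D * (n * Fintype.card σ)) *
        (D : ℝ) ^ (N / n + 1) := h1
    _ ≤ ((e : ℝ) * N + 1) ^ (D * (n * Fintype.card σ)) *
        ((rate k A + η / 2) ^ n * (rate k A + η / 2) ^ N) :=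
        mul_le_mul_of_nonneg_left h2 (by positivity)
    _ = (rate k A + η / 2) ^ n * (((e : ℝ) * N + 1) ^ (D * (n * Fintype.card σ)) *
        (rate k A + η / 2) ^ N) := by ring
    _ ≤ (rate k A + η / 2) ^ n * (C₁ * (rate k A + η) ^ N) :=
        mul_le_mul_of_nonneg_left (hB N) (by positivity)
    _ = _ := by ring

/-- A bound for the growth rate from covering sets of the form `gridSet`. -/
theorem rate_pow_le_of_covers [IsAlgClosed k] {σ A : Type} [Fintype σ] [CommRing A] [Algebra k A]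
    [Module.Finite k A] [Nontrivial A] (φ : MvPolynomial σ k →ₐ[k] A)
    (hφ : Function.Surjective φ) (e : ℕ)
    (hnil : ∀ s : σ →₀ ℕ, e < s.degree → φ (MvPolynomial.monomial s 1) = 0) (n D : ℕ)
    (hD : 1 ≤ D)
    (h : ∀ (M : ℕ) (Θ : Finset k), e * (M * n) < Θ.card →
      Covers φ (M * n) (e * (M * n)) (gridSet D n (M * n) M le_rfl Θ)) :
    rate k A ^ n ≤ D := by
  have hinf : Infinite k := IsAlgClosed.instInfinite
  have hr1 : (1 : ℝ) ≤ rate k A := by
    refine le_trans ?_ (finrank_le_rate A)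
    exact_mod_cast (Module.finrank_pos (R := k) (M := A))
  have hD1 : (1 : ℝ) ≤ D := by exact_mod_cast hD
  by_contra hcon
  push Not at hcon
  obtain ⟨y, hy1, hy2⟩ := exists_between hcon
  -- the bound for all powers
  obtain ⟨C, hC, hB⟩ := exists_bound (D * (n * Fintype.card σ) + 1) (e * n)
    (show (0 : ℝ) < D by linarith) hy1
  have hall : ∀ M : ℕ, (rate k A ^ n) ^ M ≤ C * y ^ M := by
    intro M
    obtain ⟨Θ, -, hΘ⟩ := Set.Infinite.exists_subset_card_eq (Set.infinite_univ (α := k))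
      (e * (M * n) + 1)
    have h1 := mdeg_le (fam_of_covers φ hφ e hnil (M * n) _ (h M Θ (by omega)))
    have h2 := card_gridSet (σ := σ) D n (M * n) M le_rfl Θ
    rw [hΘ] at h2
    have h3 : mdeg k (Pow k A (M * n)) ≤
        (e * n * M + 1) ^ (D * (n * Fintype.card σ) + 1) * D ^ M := by
      have h4 : e * (M * n) = e * n * M := by ring
      rw [h4] at h1 h2
      calc mdeg k (Pow k A (M * n)) ≤ (e * n * M + 1) * (gridSet (σ := σ) D n (M * n) M le_rfl Θ).card := h1
        _ ≤ (e * n * M + 1) * ((e * n * M + 1) ^ (D * (n * Fintype.card σ)) * D ^ M) :=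
            Nat.mul_le_mul_left _ h2
        _ = _ := by ring
    calc (rate k A ^ n) ^ M = rate k A ^ (M * n) := by rw [← pow_mul, mul_comm]
      _ ≤ mdeg k (Pow k A (M * n)) := rate_pow_le A (M * n)
      _ ≤ (((e * n * M + 1) ^ (D * (n * Fintype.card σ) + 1) * D ^ M : ℕ) : ℝ) := by
          exact_mod_cast h3
      _ = ((((e * n : ℕ) : ℝ) * M + 1) ^ (D * (n * Fintype.card σ) + 1)) * (D : ℝ) ^ M := by
          push_cast
          ring
      _ ≤ C * y ^ M := hB M
  have hy0 : 0 < y := by linarith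
  have hq : 1 < rate k A ^ n / y := (one_lt_div hy0).2 hy2
  obtain ⟨M, hM⟩ := pow_unbounded_of_one_lt C hq
  have h5 := hall M
  rw [div_pow, lt_div_iff₀ (by positivity)] at hM
  linarith

end Pool.Agent.Q180.SC
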