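import Pool.Agent.Q180.SC.Sub

/-!
# Unions of subschemes, powers of powers
-/

set_option autoImplicit false

namespace Pool.Agent.Q180.SC

open scoped TensorProduct PowerSeries
open Pool.Agent.H826R3.SM Pool.Agent.TH671.DU

variable {k : Type} [Field k]

section inf

variable {R : Type} [CommRing R] [Algebra k R]

theorem growth_mono_ideal {I J : Ideal R} (hIJ : I ≤ J) {x : ℝ} (h : Growth k (R ⧸ I) x) :
    Growth k (R ⧸ J) x :=
  h.of_surjective (Ideal.Quotient.factorₐ k hIJ) (Ideal.Quotient.factor_surjective hIJ)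

theorem growth_inf {I J : Ideal R} {x y : ℝ} (hx : 0 ≤ x) (hI : Growth k (R ⧸ I) x)
    (hJ : Growth k (R ⧸ J) y) : Growth k (R ⧸ (I ⊓ J)) (x + y) := by
  refine growth_of_injective (hI.prod hJ hx)
    ((Ideal.Quotient.factorₐ k (inf_le_left : I ⊓ J ≤ I)).prod
      (Ideal.Quotient.factorₐ k (inf_le_right : I ⊓ J ≤ J))) ?_
  rw [injective_iff_map_eq_zero]
  intro a ha
  obtain ⟨a, rfl⟩ := Ideal.Quotient.mk_surjective a
  have h1 : Ideal.Quotient.mk I a = 0 := congrArg Prod.fst ha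
  have h2 : Ideal.Quotient.mk J a = 0 := congrArg Prod.snd ha
  rw [Ideal.Quotient.eq_zero_iff_mem] at h1 h2 ⊢
  exact ⟨h1, h2⟩

theorem growth_biInf {ι : Type} (I : ι → Ideal R) (s : Finset ι) (hs : s.Nonempty) {x : ℝ}
    (hx : 0 ≤ x) (h : ∀ i ∈ s, Growth k (R ⧸ I i) x) :
    Growth k (R ⧸ ⨅ i ∈ s, I i) (s.card * x) := by
  classical
  induction hs using Finset.Nonempty.cons_induction with
  | singleton a =>
    rw [Finset.card_singleton, Nat.cast_one, one_mul]
    exact growth_mono_ideal (by simp) (h a (Finset.mem_singleton_self a))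
  | cons a s ha hs ih =>
    have h1 := growth_inf hx (h a (Finset.mem_cons_self a s))
      (ih fun i hi => h i (Finset.mem_cons_of_mem hi))
    rw [Finset.card_cons]
    have h2 : ((s.card + 1 : ℕ) : ℝ) * x = x + s.card * x := by push_cast; ring
    rw [h2]
    refine growth_mono_ideal ?_ h1
    rw [Finset.cons_eq_insert, Finset.iInf_insert]

end inf

section pow

variable {A : Type} [CommRing A] [Algebra k A]

/-- powers of powers are quotients of powers -/
theorem fam_pow_pow {n m D : ℕ} (h : Fam k (Pow k A (n * m)) D) :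
    Fam k (Pow k (Pow k A n) m) D := by
  refine h.of_pow (fun j => (sg k (Pow k A n) (finProdFinEquiv.symm j).2).comp
    (sg k A (finProdFinEquiv.symm j).1)) fun S hS => pow_eq_top S fun j => ?_
  have h1 : S.comap (sg k (Pow k A n) j) = ⊤ := by
    refine pow_eq_top _ fun i a => ?_
    have := hS (finProdFinEquiv (i, j)) a
    rw [Equiv.symm_apply_apply] at this
    exact this
  intro y
  have h2 : y ∈ S.comap (sg k (Pow k A n) j) := by rw [h1]; trivial
  exact h2

theorem growth_pow {x : ℝ} (h : Growth k A x) (n : ℕ) : Growth k (Pow k A n) (x ^ n) := by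
  obtain ⟨C, hC, h⟩ := h
  refine ⟨C, hC, fun m => ?_⟩
  obtain ⟨D, h1, h2⟩ := h (n * m)
  refine ⟨D, ?_, fam_pow_pow h2⟩
  rw [← pow_mul]
  exact h1

/-- powers and powers of powers -/
theorem fam_blocks {n m r D E : ℕ} (h : Fam k (Pow k (Pow k A n) m) D)
    (h' : Fam k (Pow k A r) E) : Fam k (Pow k A (n * m + r)) (D * E) := by
  refine Fam.join h h'
    (powLift fun j => powLift fun i => sg k A (Fin.castAdd r (finProdFinEquiv (i, j))))
    (powLift fun i => sg k A (Fin.natAdd (n * m) i)) ?_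
  refine pow_eq_top _ fun l a => ?_
  refine Fin.addCases (fun l => ?_) (fun i => ?_) l
  · refine (le_sup_left : AlgHom.range _ ≤ _) ?_
    refine ⟨sg k (Pow k A n) (finProdFinEquiv.symm l).2
      (sg k A (finProdFinEquiv.symm l).1 a), ?_⟩
    change powLift _ _ = _
    have h5 : finProdFinEquiv ((finProdFinEquiv.symm l).1, (finProdFinEquiv.symm l).2) = l :=
      finProdFinEquiv.apply_symm_apply l
    rw [powLift_single, powLift_single, h5]
  · exact (le_sup_right : AlgHom.range _ ≤ _) ⟨sg k A i a, powLift_single _ i a⟩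

theorem pow_quot_equiv {R : Type} [CommRing R] [Algebra k R] (I : Ideal R) (n : ℕ) :
    Nonempty ((Pow k R n ⧸ RingHom.ker (powMap (Ideal.Quotient.mkₐ k I) n)) ≃ₐ[k]
      Pow k (R ⧸ I) n) :=
  ⟨Ideal.quotientKerAlgEquivOfSurjective
    (powMap_surjective (Ideal.Quotient.mkₐ k I) Ideal.Quotient.mk_surjective n)⟩

/-- **A uniform bound from one power.** -/
theorem uniform_bound {R Q : Type} [CommRing R] [Algebra k R] [CommRing Q] [Algebra k Q] {n : ℕ}
    (hn : 0 < n) (hR : ∀ r, ∃ D, Fam k (Pow k R r) D) {y z : ℝ} (hz : 1 ≤ z) (hyz : y ≤ z ^ n)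
    (hy : 0 ≤ y) (hQ : Growth k Q y) :
    ∃ C : ℝ, 0 ≤ C ∧ ∀ (A : Type) [CommRing A] [Algebra k A] (f : R →ₐ[k] A)
      (g : Q →ₐ[k] Pow k A n), Function.Surjective f → Function.Surjective g →
        ∀ N : ℕ, ∃ D : ℕ, (D : ℝ) ≤ C * z ^ N ∧ Fam k (Pow k A N) D := by
  obtain ⟨C, hC, hQ⟩ := hQ
  choose F hF using hR
  refine ⟨C * ∑ r ∈ Finset.range n, (F r : ℝ), mul_nonneg hC
    (Finset.sum_nonneg fun _ _ => Nat.cast_nonneg _), ?_⟩
  intro A _ _ f g hf hg N
  obtain ⟨D, hD1, hD2⟩ := hQ (N / n)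
  have h1 : Fam k (Pow k (Pow k A n) (N / n)) D :=
    hD2.of_surjective (powMap g _) (powMap_surjective g hg _)
  have h2 : Fam k (Pow k A (N % n)) (F (N % n)) :=
    (hF (N % n)).of_surjective (powMap f _) (powMap_surjective f hf _)
  have h3 := fam_blocks h1 h2
  rw [Nat.div_add_mod] at h3
  refine ⟨_, ?_, h3⟩
  have hr : N % n < n := Nat.mod_lt _ hn
  have h4 : (F (N % n) : ℝ) ≤ ∑ r ∈ Finset.range n, (F r : ℝ) :=
    Finset.single_le_sum (f := fun r => (F r : ℝ)) (fun _ _ => Nat.cast_nonneg _)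
      (Finset.mem_range.2 hr)
  have h5 : y ^ (N / n) ≤ z ^ N := by
    calc y ^ (N / n) ≤ (z ^ n) ^ (N / n) := pow_le_pow_left₀ hy hyz _
      _ = z ^ (n * (N / n)) := (pow_mul _ _ _).symm
      _ ≤ z ^ N := pow_le_pow_right₀ hz (Nat.mul_div_le N n)
  push_cast
  calc (D : ℝ) * F (N % n) ≤ (C * y ^ (N / n)) * ∑ r ∈ Finset.range n, (F r : ℝ) :=
        mul_le_mul hD1 h4 (Nat.cast_nonneg _) (by positivity)
    _ ≤ (C * z ^ N) * ∑ r ∈ Finset.range n, (F r : ℝ) := by gcongr
    _ = C * (∑ r ∈ Finset.range n, (F r : ℝ)) * z ^ N := by ring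

end pow

end Pool.Agent.Q180.SC
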