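import Pool.Agent.Q180.SC.Inter

/-!
# Interpolation: the powers of a point of the Zariski closure
-/

set_option autoImplicit false

namespace Pool.Agent.Q180.SC

open scoped TensorProduct PowerSeries
open Pool.Agent.H826R3.SM Pool.Agent.TH671.DU

variable {k : Type} [Field k]

/-- `c` lies in the Zariski closure of the set `S` of points of affine space: every polynomial that
vanishes on `S` vanishes at `c`. -/
def InClosure {τ : Type} (S : Set (τ → k)) (c : τ → k) : Prop :=
  ∀ P : MvPolynomial τ k, (∀ s ∈ S, MvPolynomial.eval s P = 0) → MvPolynomial.eval c P = 0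

theorem inClosure_of_mem {τ : Type} {S : Set (τ → k)} {c : τ → k} (h : c ∈ S) : InClosure S c :=
  fun _ hP => hP c h

section veronese

variable {τ : Type} [Fintype τ]

/-- the monomials with all exponents at most `n` -/
def ver (n : ℕ) (c : τ → k) : (τ → Fin (n + 1)) → k := fun m => ∏ q, c q ^ (m q : ℕ)

theorem ver_mem_span (n : ℕ) {S : Set (τ → k)} {c : τ → k} (h : InClosure S c) :
    ver n c ∈ Submodule.span k (ver n '' S) := by
  classical
  by_contra hc
  obtain ⟨l, hl1, hl2⟩ := Submodule.exists_le_ker_of_notMem hc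
  apply hl1
  let P : MvPolynomial τ k := ∑ m : τ → Fin (n + 1),
    MvPolynomial.C (l (Pi.single m 1)) * ∏ q, MvPolynomial.X q ^ (m q : ℕ)
  have hP : ∀ s, MvPolynomial.eval s P = l (ver n s) := by
    intro s
    have h1 : ver n s = ∑ m, ver n s m • Pi.single m (1 : k) := by
      funext m
      simp [Finset.sum_apply, Pi.single_apply]
    conv_rhs => rw [h1, map_sum]
    simp only [P, map_sum, map_mul, MvPolynomial.eval_C, map_prod, map_pow,
      MvPolynomial.eval_X, map_smul, smul_eq_mul]
    refine Finset.sum_congr rfl fun m _ => ?_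
    rw [mul_comm]
    rfl
  rw [← hP]
  refine h P fun s hs => ?_
  rw [hP]
  exact hl2 (Submodule.subset_span ⟨s, hs, rfl⟩)

theorem exists_finset_ver (n : ℕ) (S : Set (τ → k)) :
    ∃ T : Finset (τ → k), (T : Set (τ → k)) ⊆ S ∧ T.card ≤ (n + 1) ^ Fintype.card τ ∧
      ∀ c, InClosure S c → ver n c ∈ Submodule.span k (ver n '' (T : Set (τ → k))) := by
  classical
  obtain ⟨b, hb1, hb2, hb3⟩ := exists_linearIndependent k (ver n '' S)
  have hfin : b.Finite := hb3.setFinite
  obtain ⟨T, hT1, hT2⟩ : ∃ T : Finset (τ → k), (T : Set (τ → k)) ⊆ S ∧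
      ver n '' (T : Set (τ → k)) = b ∧ T.card ≤ b.ncard := by
    have hch : ∀ v : b, ∃ s, s ∈ S ∧ ver n s = v.1 := fun v => hb1 v.2
    choose g hg1 hg2 using hch
    have hfb : Fintype b := hfin.fintype
    refine ⟨Finset.univ.image g, ?_, ?_, ?_⟩
    · intro s hs
      obtain ⟨v, -, rfl⟩ := Finset.mem_image.1 (Finset.mem_coe.1 hs)
      exact hg1 v
    · ext v
      constructor
      · rintro ⟨s, hs, rfl⟩
        obtain ⟨w, -, rfl⟩ := Finset.mem_image.1 (Finset.mem_coe.1 hs)
        rw [hg2]
        exact w.2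
      · intro hv
        exact ⟨g ⟨v, hv⟩, by simp, hg2 ⟨v, hv⟩⟩
    · refine Finset.card_image_le.trans (le_of_eq ?_)
      rw [Finset.card_univ, ← Nat.card_eq_fintype_card]
      rfl
  refine ⟨T, hT1, hT2.2.trans ?_, fun c hc => ?_⟩
  · have hfb : Fintype b := hfin.fintype
    have h1 := hb3.fintype_card_le_finrank
    rw [Module.finrank_fintype_fun_eq_card] at h1
    rw [← Nat.card_coe_set_eq, Nat.card_eq_fintype_card]
    refine h1.trans (le_of_eq ?_)
    simp
  · rw [hT2.1, hb2]
    exact ver_mem_span n hc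

end veronese

section lin

variable {R : Type} [CommRing R] [Algebra k R] {κ ι : Type} [Fintype κ] [Fintype ι]

/-- The linear map `R → k^ι` with the matrix `c` with respect to the basis `b` of `R`. -/
noncomputable def lin (b : Module.Basis κ k R) (c : κ × ι → k) : R →ₗ[k] (ι → k) :=
  b.constr k fun j i => c (j, i)

omit [Fintype ι] in
theorem lin_basis (b : Module.Basis κ k R) (c : κ × ι → k) (j : κ) (i : ι) :
    lin b c (b j) i = c (j, i) := by
  unfold lin
  rw [Module.Basis.constr_basis]

/-- **Interpolation.** -/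
theorem interpolation (b : Module.Basis κ k R) (n : ℕ) (S : Set (κ × ι → k)) :
    ∃ T : Finset (κ × ι → k), (T : Set (κ × ι → k)) ⊆ S ∧
      T.card ≤ (n + 1) ^ Fintype.card (κ × ι) ∧
      ∀ c, InClosure S c → ∀ x : Pow k R n,
        (∀ t ∈ T, PiTensorProduct.map (fun _ : Fin n => lin b t) x = 0) →
          PiTensorProduct.map (fun _ : Fin n => lin b c) x = 0 := by
  classical
  obtain ⟨T, hT1, hT2, hT3⟩ := exists_finset_ver n S
  refine ⟨T, hT1, hT2, fun c hc x hx => ?_⟩
  -- the coordinates of the target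
  let B := Basis.piTensorProduct fun _ : Fin n => Pi.basisFun k ι
  let E := Basis.piTensorProduct fun _ : Fin n => b
  -- the exponents
  have hle : ∀ (l : Fin n → κ) (j : Fin n → ι) (q : κ × ι),
      (Finset.univ.filter fun i => (l i, j i) = q).card < n + 1 := by
    intro l j q
    refine Nat.lt_succ_of_le ((Finset.card_filter_le _ _).trans ?_)
    simp
  let m : (Fin n → κ) → (Fin n → ι) → (κ × ι → Fin (n + 1)) := fun l j q =>
    ⟨(Finset.univ.filter fun i => (l i, j i) = q).card, hle l j q⟩
  have hm : ∀ (s : κ × ι → k) l j, ∏ i, s (l i, j i) = ver n s (m l j) := by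
    intro s l j
    rw [Finset.prod_comp s fun i => (l i, j i)]
    refine Finset.prod_subset (Finset.subset_univ _) fun q _ hq => ?_
    have : (Finset.univ.filter fun i => (l i, j i) = q) = ∅ := by
      rw [Finset.filter_eq_empty_iff]
      intro i _ hi
      exact hq (Finset.mem_image.2 ⟨i, Finset.mem_univ _, hi⟩)
    rw [this, Finset.card_empty, pow_zero]
  have hbas : ∀ (s : κ × ι → k) l j,
      B.repr (PiTensorProduct.map (fun _ : Fin n => lin b s) (E l)) j = ver n s (m l j) := by
    intro s l j
    rw [← hm]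
    change B.repr (PiTensorProduct.map _ (Basis.piTensorProduct _ l)) j = _
    rw [Basis.piTensorProduct_apply, PiTensorProduct.map_tprod,
      Basis.piTensorProduct_repr_tprod_apply]
    refine Finset.prod_congr rfl fun i _ => ?_
    rw [Pi.basisFun_repr, lin_basis]
  -- the functional
  let Λ : (Fin n → ι) → ((κ × ι → Fin (n + 1)) → k) →ₗ[k] k := fun j =>
    ∑ l, E.repr x l • LinearMap.proj (m l j)
  have hΛ : ∀ (s : κ × ι → k) j,
      B.repr (PiTensorProduct.map (fun _ : Fin n => lin b s) x) j = Λ j (ver n s) := by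
    intro s j
    conv_lhs => rw [← E.sum_repr x]
    rw [map_sum, map_sum, Finset.sum_apply', LinearMap.sum_apply]
    refine Finset.sum_congr rfl fun l _ => ?_
    rw [map_smul, map_smul, Finsupp.smul_apply, hbas]
    rfl
  rw [← map_eq_zero_iff _ B.repr.injective]
  ext j
  rw [hΛ, Finsupp.zero_apply]
  have h1 : Submodule.span k (ver n '' (T : Set (κ × ι → k))) ≤ LinearMap.ker (Λ j) := by
    rw [Submodule.span_le]
    rintro _ ⟨t, ht, rfl⟩
    change Λ j (ver n t) = 0
    rw [← hΛ, hx t ht, map_zero, Finsupp.zero_apply]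
  exact h1 (hT3 c hc)

end lin

end Pool.Agent.Q180.SC
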