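import Pool.Agent.Q180.SC.Interp
import Mathlib.RingTheory.MvPolynomial.Symmetric.FundamentalTheorem
import Mathlib.RingTheory.Polynomial.Vieta
import Mathlib.FieldTheory.IsAlgClosed.Basic

/-!
# The orderings of the roots of a family of monic polynomials, and the Zariski closure
-/

set_option autoImplicit false

namespace Pool.Agent.Q180.SC.Str

open Polynomial

variable {k : Type} [Field k] {τ : Type} {n : ℕ}

/-- evaluation of a polynomial in `n` variables with coefficients in a polynomial ring -/
noncomputable abbrev ev (s : τ → k) (ρ : Fin n → k) :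
    MvPolynomial (Fin n) (MvPolynomial τ k) →+* k :=
  MvPolynomial.eval₂Hom (MvPolynomial.eval s) ρ

theorem ev_esymm {χ : (MvPolynomial τ k)[X]} {s : τ → k} {ρ : Fin n → k}
    (h : ∏ j, (X - C (ρ j)) = χ.map (MvPolynomial.eval s)) (i : ℕ) (hi : i ≤ n) :
    ev s ρ (MvPolynomial.esymm (Fin n) _ i) =
      MvPolynomial.eval s ((-1) ^ i * χ.coeff (n - i)) := by
  have h1 : ev s ρ (MvPolynomial.esymm (Fin n) _ i) = (Finset.univ.val.map ρ).esymm i := by
    rw [← MvPolynomial.aeval_esymm_eq_multiset_esymm (Fin n) k i ρ,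
      ← MvPolynomial.map_esymm (Fin n) (MvPolynomial τ k) i (MvPolynomial.eval s)]
    rw [MvPolynomial.coe_eval₂Hom, MvPolynomial.aeval_def, MvPolynomial.eval₂_map]
    rfl
  have h2 : (∏ j, (X - C (ρ j))).coeff (n - i) = (χ.map (MvPolynomial.eval s)).coeff (n - i) :=
    congrArg (fun p => p.coeff (n - i)) h
  have h3 : ∏ j, (X - C (ρ j)) = ((Finset.univ.val.map ρ).map fun t => X - C t).prod := by
    rw [Multiset.map_map]
    rfl
  have hc : Multiset.card (Finset.univ.val.map ρ) = n := by
    rw [Multiset.card_map, Finset.card_val, Finset.card_univ, Fintype.card_fin]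
  rw [h3, Multiset.prod_X_sub_C_coeff _ (by rw [hc]; omega), coeff_map, hc,
    Nat.sub_sub_self hi] at h2
  rw [h1, map_mul, ← h2, map_pow, map_neg, map_one, ← mul_assoc, ← mul_pow, neg_one_mul, neg_neg,
    one_pow, one_mul]

theorem exists_coeff (χ : (MvPolynomial τ k)[X]) (p : MvPolynomial (Fin n) (MvPolynomial τ k))
    (hp : p.IsSymmetric) : ∃ κ : MvPolynomial τ k, ∀ (s : τ → k) (ρ : Fin n → k),
      ∏ j, (X - C (ρ j)) = χ.map (MvPolynomial.eval s) → ev s ρ p = MvPolynomial.eval s κ := by
  obtain ⟨q, hq⟩ := (MvPolynomial.esymmAlgHom_fin_bijective (MvPolynomial τ k) n).2 ⟨p, hp⟩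
  have hq' : MvPolynomial.aeval (fun i : Fin n => MvPolynomial.esymm (Fin n) _ (i + 1)) q = p := by
    rw [← MvPolynomial.esymmAlgHom_apply, hq]
  refine ⟨MvPolynomial.eval (fun i : Fin n => (-1) ^ ((i : ℕ) + 1) * χ.coeff (n - ((i : ℕ) + 1))) q,
    fun s ρ h => ?_⟩
  rw [← hq']
  have h1 : (ev s ρ).comp (MvPolynomial.aeval
      (fun i : Fin n => MvPolynomial.esymm (Fin n) (MvPolynomial τ k) (i + 1))).toRingHom =
      (MvPolynomial.eval s).comp (MvPolynomial.eval
        (fun i : Fin n => (-1) ^ ((i : ℕ) + 1) * χ.coeff (n - ((i : ℕ) + 1)))) := by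
    refine MvPolynomial.ringHom_ext (fun r => ?_) fun i => ?_
    · change ev s ρ (MvPolynomial.aeval _ (MvPolynomial.C r)) =
        MvPolynomial.eval s (MvPolynomial.eval _ (MvPolynomial.C r))
      rw [MvPolynomial.aeval_C, MvPolynomial.eval_C, MvPolynomial.algebraMap_eq]
      exact MvPolynomial.eval₂Hom_C _ _ _
    · change ev s ρ (MvPolynomial.aeval _ (MvPolynomial.X i)) =
        MvPolynomial.eval s (MvPolynomial.eval _ (MvPolynomial.X i))
      rw [MvPolynomial.aeval_X, MvPolynomial.eval_X]
      exact ev_esymm h _ i.2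
  exact RingHom.congr_fun h1 q

/-- **Orderings of roots.** If a polynomial vanishes at all points `(s, ρ)` where `s ∈ S` and `ρ` is
an ordering of the roots of `χ_s`, then it vanishes at `(c, ρ)` for every point `c` of the Zariski
closure of `S` and every ordering `ρ` of the roots of `χ_c`. -/
theorem closure_roots [IsAlgClosed k] {χ : (MvPolynomial τ k)[X]} (hχ : χ.Monic)
    (hn : χ.natDegree = n) {S : Set (τ → k)} {c : τ → k} (hc : InClosure S c) (ρ : Fin n → k)
    (hρ : ∏ j, (X - C (ρ j)) = χ.map (MvPolynomial.eval c)) :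
    InClosure {z : τ ⊕ Fin n → k | z ∘ Sum.inl ∈ S ∧
      ∏ j, (X - C (z (Sum.inr j))) = χ.map (MvPolynomial.eval (z ∘ Sum.inl))}
      (Sum.elim c ρ) := by
  classical
  intro P hP
  -- the polynomial with coefficients in a polynomial ring
  let P' : MvPolynomial (Fin n) (MvPolynomial τ k) :=
    MvPolynomial.aeval (Sum.elim (fun t => MvPolynomial.C (MvPolynomial.X t)) MvPolynomial.X) P
  have hP' : ∀ (s : τ → k) (r : Fin n → k), ev s r P' = MvPolynomial.eval (Sum.elim s r) P := by
    intro s r
    have h1 : (ev s r).comp (MvPolynomial.aeval (Sum.elim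
        (fun t => MvPolynomial.C (MvPolynomial.X t)) MvPolynomial.X) :
        MvPolynomial (τ ⊕ Fin n) k →ₐ[k] MvPolynomial (Fin n) (MvPolynomial τ k)).toRingHom =
        MvPolynomial.eval (Sum.elim s r) := by
      refine MvPolynomial.ringHom_ext (fun b => ?_) fun i => ?_
      · change ev s r (MvPolynomial.aeval _ (MvPolynomial.C b)) = _
        rw [MvPolynomial.aeval_C, MvPolynomial.eval_C]
        change ev s r (MvPolynomial.C (MvPolynomial.C b)) = b
        rw [ev, MvPolynomial.eval₂Hom_C, MvPolynomial.eval_C]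
      · change ev s r (MvPolynomial.aeval _ (MvPolynomial.X i)) = _
        rw [MvPolynomial.aeval_X, MvPolynomial.eval_X]
        rcases i with t | j
        · simp only [Sum.elim_inl]
          rw [ev, MvPolynomial.eval₂Hom_C, MvPolynomial.eval_X]
        · simp only [Sum.elim_inr]
          exact MvPolynomial.eval₂Hom_X' _ _ _
    exact RingHom.congr_fun h1 P
  have hren : ∀ (s : τ → k) (r : Fin n → k) (e : Equiv.Perm (Fin n)),
      ev s r (MvPolynomial.rename e P') = MvPolynomial.eval (Sum.elim s (r ∘ e)) P := by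
    intro s r e
    rw [← hP', ev, MvPolynomial.coe_eval₂Hom, MvPolynomial.eval₂_rename]
    rfl
  let Q : (MvPolynomial (Fin n) (MvPolynomial τ k))[X] :=
    ∏ e : Equiv.Perm (Fin n), (X - C (MvPolynomial.rename e P'))
  have hQ : ∀ m, (Q.coeff m).IsSymmetric := by
    intro m f
    have h1 : Q.map (MvPolynomial.rename f :
        MvPolynomial (Fin n) (MvPolynomial τ k) →ₐ[MvPolynomial τ k] _).toRingHom = Q := by
      rw [Polynomial.map_prod]
      simp only [Polynomial.map_sub, Polynomial.map_X, Polynomial.map_C]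
      refine Fintype.prod_equiv (Equiv.mulLeft f) _ _ fun e => ?_
      congr 2
      change MvPolynomial.rename f (MvPolynomial.rename e P') = _
      rw [MvPolynomial.rename_rename]
      rfl
    have h2 := congrArg (fun p => p.coeff m) h1
    simp only [coeff_map] at h2
    exact h2
  choose κ hκ using fun m => exists_coeff χ (Q.coeff m) (hQ m)
  have hmap : ∀ (s : τ → k) (r : Fin n → k), Q.map (ev s r) =
      ∏ e : Equiv.Perm (Fin n), (X - C (MvPolynomial.eval (Sum.elim s (r ∘ e)) P)) := by
    intro s r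
    rw [Polynomial.map_prod]
    simp only [Polynomial.map_sub, Polynomial.map_X, Polynomial.map_C, hren]
  -- on `S`
  have hS : ∀ s ∈ S, ∀ m, MvPolynomial.eval s (κ m) =
      if m = Fintype.card (Equiv.Perm (Fin n)) then 1 else 0 := by
    intro s hs m
    have hmon : (χ.map (MvPolynomial.eval s)).Monic := hχ.map _
    have hdeg : (χ.map (MvPolynomial.eval s)).natDegree = n := by
      rw [hχ.natDegree_map, hn]
    have hspl := IsAlgClosed.splits (χ.map (MvPolynomial.eval s))
    have hcard : Multiset.card (χ.map (MvPolynomial.eval s)).roots = n := by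
      rw [← hspl.natDegree_eq_card_roots, hdeg]
    obtain ⟨r, hr⟩ : ∃ r : Fin n → k,
        (Finset.univ.val.map r) = (χ.map (MvPolynomial.eval s)).roots := by
      obtain ⟨l, hl⟩ := Quot.exists_rep (χ.map (MvPolynomial.eval s)).roots
      have hl' : (l : Multiset k) = (χ.map (MvPolynomial.eval s)).roots := hl
      have hlen : l.length = n := by
        rw [← hcard, ← hl', Multiset.coe_card]
      subst hlen
      refine ⟨l.get, ?_⟩
      rw [← hl']
      change ((List.finRange l.length : Multiset (Fin l.length)).map l.get) = _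
      rw [Multiset.map_coe, List.map_get_finRange]
    have hprod : ∏ j, (X - C (r j)) = χ.map (MvPolynomial.eval s) := by
      have h1 : ∏ j, (X - C (r j)) = ((Finset.univ.val.map r).map fun t => X - C t).prod := by
        rw [Multiset.map_map]
        rfl
      rw [h1, hr]
      exact (hspl.eq_prod_roots_of_monic hmon).symm
    rw [← hκ m s r hprod, ← coeff_map, hmap]
    have hzero : ∀ e : Equiv.Perm (Fin n), MvPolynomial.eval (Sum.elim s (r ∘ e)) P = 0 := by
      intro e
      refine hP _ ⟨?_, ?_⟩
      · rw [Sum.elim_comp_inl]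
        exact hs
      · rw [Sum.elim_comp_inl, ← hprod]
        simp only [Sum.elim_inr, Function.comp_apply]
        exact Fintype.prod_equiv e _ _ fun _ => rfl
    simp only [hzero, map_zero, sub_zero, Finset.prod_const, Finset.card_univ, coeff_X_pow]
  -- at the point `c`
  have hcc : ∀ m, MvPolynomial.eval c (κ m) =
      if m = Fintype.card (Equiv.Perm (Fin n)) then 1 else 0 := by
    intro m
    have h1 := hc (κ m - MvPolynomial.C (if m = Fintype.card (Equiv.Perm (Fin n)) then 1 else 0))
      fun s hs => by rw [map_sub, MvPolynomial.eval_C, hS s hs, sub_self]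
    rw [map_sub, MvPolynomial.eval_C] at h1
    exact sub_eq_zero.1 h1
  have hfin : Q.map (ev c ρ) = X ^ Fintype.card (Equiv.Perm (Fin n)) := by
    ext m
    rw [coeff_map, hκ m c ρ hρ, hcc, coeff_X_pow]
  have h1 := congrArg (fun p => p.eval (MvPolynomial.eval (Sum.elim c ρ) P)) hfin
  simp only [hmap, eval_prod, eval_sub, eval_X, eval_C, eval_pow] at h1
  have h2 : (∏ e : Equiv.Perm (Fin n), (MvPolynomial.eval (Sum.elim c ρ) P -
      MvPolynomial.eval (Sum.elim c (ρ ∘ e)) P)) = 0 := by
    refine Finset.prod_eq_zero (Finset.mem_univ 1) ?_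
    rw [Equiv.Perm.coe_one, Function.comp_id, sub_self]
  rw [h2] at h1
  exact (pow_eq_zero_iff Fintype.card_ne_zero).1 h1.symm

end Pool.Agent.Q180.SC.Str
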