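import Pool.Agent.Q180.SC.Block
import Pool.Agent.Q180.SC.Sym
import Mathlib.RingTheory.Artinian.Module
import Mathlib.LinearAlgebra.Matrix.Charpoly.Coeff
import Mathlib.LinearAlgebra.Matrix.Charpoly.LinearMap
import Mathlib.RingTheory.Ideal.Quotient.Operations

/-!
# Limits in the variety of all algebra structures
-/

set_option autoImplicit false

namespace Pool.Agent.Q180.SC.Str

open scoped TensorProduct PowerSeries Topology
open Pool.Agent.H826R3.SM Pool.Agent.TH671.DU Filter

variable {k : Type} [Field k]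

section charpoly

variable {ι : Type} [Fintype ι] [DecidableEq ι]

/-- the matrix of the multiplication by the element with the coordinates `α` -/
noncomputable def cm (α : ι → k) : Matrix ι ι (MvPolynomial (ι × ι × ι) k) :=
  Matrix.of fun l j => ∑ i, MvPolynomial.C (α i) * MvPolynomial.X (i, j, l)

theorem cm_map {o : ι} (α : ι → k) {c : ι × ι × ι → k} {A : Type} [CommRing A] [Algebra k A]
    {v : Module.Basis ι k A} (h : IsStr o c A v) :
    (cm α).map (MvPolynomial.eval c) = Algebra.leftMulMatrix v (el α v) := by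
  ext l j
  rw [Algebra.leftMulMatrix_eq_repr_mul, Matrix.map_apply, cm, Matrix.of_apply, map_sum, el,
    Finset.sum_mul, map_sum, Finset.sum_apply']
  refine Finset.sum_congr rfl fun i _ => ?_
  rw [map_mul, MvPolynomial.eval_C, MvPolynomial.eval_X, smul_mul_assoc, h.2, map_smul,
    Finsupp.smul_apply, smul_eq_mul, map_sum, Finset.sum_apply', Finset.sum_eq_single l]
  · rw [map_smul, Finsupp.smul_apply, Module.Basis.repr_self, Finsupp.single_eq_same,
      smul_eq_mul, mul_one]
  · intro b _ hb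
    rw [map_smul, Finsupp.smul_apply, Module.Basis.repr_self, Finsupp.single_eq_of_ne hb.symm,
      smul_zero]
  · intro hc
    exact absurd (Finset.mem_univ _) hc

theorem charpoly_eq {o : ι} (α : ι → k) {c : ι × ι × ι → k} {A : Type} [CommRing A] [Algebra k A]
    {v : Module.Basis ι k A} (h : IsStr o c A v) :
    (cm α).charpoly.map (MvPolynomial.eval c) = (Algebra.leftMulMatrix v (el α v)).charpoly := by
  rw [← Matrix.charpoly_map, cm_map α h]

variable {n : ℕ} {A : Type} [CommRing A] [Algebra k A]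

theorem pr_univ {v : Module.Basis ι k A} {x : A} {ρ : Fin n → k}
    (h : ∏ j, (Polynomial.X - Polynomial.C (ρ j)) = (Algebra.leftMulMatrix v x).charpoly) :
    pr Finset.univ ρ x = 0 := by
  have h1 : Polynomial.aeval x (∏ j, (Polynomial.X - Polynomial.C (ρ j))) =
      pr Finset.univ ρ x := by
    rw [map_prod, pr]
    refine Finset.prod_congr rfl fun j _ => ?_
    rw [map_sub, Polynomial.aeval_X, Polynomial.aeval_C]
  rw [← h1, h]
  apply Algebra.leftMulMatrix_injective v
  rw [map_zero, ← Polynomial.aeval_algHom_apply]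
  exact Matrix.aeval_self_charpoly _

theorem not_isUnit {v : Module.Basis ι k A} {x : A} {ρ : Fin n → k}
    (h : ∏ j, (Polynomial.X - Polynomial.C (ρ j)) = (Algebra.leftMulMatrix v x).charpoly)
    (j : Fin n) : ¬ IsUnit (x - algebraMap k A (ρ j)) := by
  intro hu
  have h1 : (Algebra.leftMulMatrix v x).charpoly.eval (ρ j) = 0 := by
    rw [← h, Polynomial.eval_prod]
    refine Finset.prod_eq_zero (Finset.mem_univ j) ?_
    rw [Polynomial.eval_sub, Polynomial.eval_X, Polynomial.eval_C, sub_self]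
  rw [Matrix.eval_charpoly] at h1
  have h2 : Matrix.scalar ι (ρ j) - Algebra.leftMulMatrix v x =
      Algebra.leftMulMatrix v (-(x - algebraMap k A (ρ j))) := by
    rw [neg_sub, map_sub, AlgHom.commutes]
    rfl
  rw [h2] at h1
  have h3 : IsUnit (Algebra.leftMulMatrix v (-(x - algebraMap k A (ρ j)))) := hu.neg.map _
  rw [Matrix.isUnit_iff_isUnit_det, h1] at h3
  exact not_isUnit_zero h3

omit [Fintype ι] [DecidableEq ι] in
theorem isCoprime_pr {T T' : Finset (Fin n)} {ρ : Fin n → k} (x : A)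
    (h : ∀ j ∈ T, ∀ j' ∈ T', ρ j ≠ ρ j') : IsCoprime (pr T ρ x) (pr T' ρ x) := by
  refine IsCoprime.prod_left fun j hj => IsCoprime.prod_right fun j' hj' => ?_
  have h1 : ρ j' - ρ j ≠ 0 := sub_ne_zero.2 (h j hj j' hj').symm
  refine ⟨algebraMap k A (ρ j' - ρ j)⁻¹, -algebraMap k A (ρ j' - ρ j)⁻¹, ?_⟩
  have h2 : algebraMap k A (ρ j' - ρ j)⁻¹ * (algebraMap k A (ρ j') - algebraMap k A (ρ j)) = 1 := by
    rw [← map_sub, ← map_mul, inv_mul_cancel₀ h1, map_one]
  rw [← h2]
  ring

omit [Fintype ι] [DecidableEq ι] in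
theorem pr_mul_compl (T : Finset (Fin n)) (ρ : Fin n → k) (x : A) :
    pr T ρ x * pr Tᶜ ρ x = pr Finset.univ ρ x :=
  Finset.prod_mul_prod_compl T _

end charpoly

theorem exists_roots [IsAlgClosed k] {n : ℕ} (p : Polynomial k) (hp : p.Monic)
    (hn : p.natDegree = n) :
    ∃ r : Fin n → k, ∏ j, (Polynomial.X - Polynomial.C (r j)) = p := by
  have hspl := IsAlgClosed.splits p
  have hcard : Multiset.card p.roots = n := by
    rw [← hspl.natDegree_eq_card_roots, hn]
  obtain ⟨l, hl⟩ := Quot.exists_rep p.roots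
  have hl' : (l : Multiset k) = p.roots := hl
  have hlen : l.length = n := by
    rw [← hcard, ← hl', Multiset.coe_card]
  subst hlen
  have hr : (Finset.univ.val.map l.get) = p.roots := by
    rw [← hl']
    change ((List.finRange l.length : Multiset (Fin l.length)).map l.get) = _
    rw [Multiset.map_coe, List.map_get_finRange]
  refine ⟨l.get, ?_⟩
  have h1 : ∏ j, (Polynomial.X - Polynomial.C (l.get j)) =
      ((Finset.univ.val.map l.get).map fun t => Polynomial.X - Polynomial.C t).prod := by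
    rw [Multiset.map_map]
    rfl
  rw [h1, hr]
  exact (hspl.eq_prod_roots_of_monic hp).symm

section pi

variable [IsAlgClosed k]

theorem rate_pi_le (l : ℕ) : ∀ (Y : Fin (l + 1) → Type) [∀ i, CommRing (Y i)]
    [∀ i, Algebra k (Y i)] [∀ i, Module.Finite k (Y i)] [∀ i, Nontrivial (Y i)],
    rate k (∀ i, Y i) ≤ ∑ i, rate k (Y i) := by
  induction l with
  | zero =>
    intro Y _ _ _ _
    rw [Fin.sum_univ_one]
    refine SC.rate_of_injective (Pi.evalAlgHom k Y 0) fun f g hfg => ?_
    funext i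
    have h0 : i = 0 := Fin.ext (by omega)
    subst h0
    exact hfg
  | succ l ih =>
    intro Y _ _ _ _
    rw [SC.rate_congr (finSplit' k (l + 1) Y), Fin.sum_univ_succ]
    have hn : Nontrivial (∀ i : Fin (l + 1), Y i.succ) :=
      Pi.nontrivial
    exact (rate_prod_le _ _).trans (add_le_add_right (ih fun i => Y i.succ) _)

end pi

section main

variable [IsAlgClosed k] {ι : Type} [Fintype ι] [DecidableEq ι]

/-- The part `S_w` of the family: the factors belonging to the sets `T i` are contained in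
smoothable schemes of degree `w i`. -/
def PartOf (o : ι) (α : ι → k) {n l : ℕ} (T : Fin (l + 1) → Finset (Fin n))
    (w : Fin (l + 1) → ℕ) : Set ((ι × ι × ι) ⊕ Fin n → k) :=
  {z | ∃ (A : Type) (_ : CommRing A) (_ : Algebra k A) (v : Module.Basis ι k A),
    IsStr o (z ∘ Sum.inl) A v ∧ ∀ i, 
      pr (T i) (z ∘ Sum.inr) (el α v) * pr (T i)ᶜ (z ∘ Sum.inr) (el α v) = 0 ∧
      Nontrivial (A ⧸ Ideal.span {pr (T i) (z ∘ Sum.inr) (el α v)}) ∧
      mdeg k (A ⧸ Ideal.span {pr (T i) (z ∘ Sum.inr) (el α v)}) ≤ w i}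

/-- the product of the differences of the roots which are different at the limit -/
noncomputable def disc {n : ℕ} (ρ₀ : Fin n → k) : MvPolynomial ((ι × ι × ι) ⊕ Fin n) k :=
  open Classical in
  ∏ j, ∏ j', if ρ₀ j = ρ₀ j' then 1 else
    (MvPolynomial.X (Sum.inr j) - MvPolynomial.X (Sum.inr j'))

omit [IsAlgClosed k] [Fintype ι] [DecidableEq ι] in
theorem eval_disc {n : ℕ} (ρ₀ : Fin n → k) (z : (ι × ι × ι) ⊕ Fin n → k) :
    MvPolynomial.eval z (disc ρ₀) ≠ 0 ↔
      ∀ j j', ρ₀ j ≠ ρ₀ j' → z (Sum.inr j) ≠ z (Sum.inr j') := by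
  classical
  rw [disc, map_prod, Finset.prod_ne_zero_iff]
  simp only [map_prod, Finset.prod_ne_zero_iff, Finset.mem_univ, true_implies]
  refine forall_congr' fun j => forall_congr' fun j' => ?_
  split_ifs with h
  · simp [h]
  · simp [h, sub_ne_zero]

/-- every member of the family belongs to one of the parts -/
theorem mem_partOf {o : ι} {α : ι → k} {n l D : ℕ} {T : Fin (l + 1) → Finset (Fin n)}
    (hT : ∀ i, (T i).Nonempty) {ρ₀ : Fin n → k} (hTd : ∀ i j, j ∈ T i → ∀ j', j' ∉ T i →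
      ρ₀ j ≠ ρ₀ j') (hTT : ∀ i i', i ≠ i' → Disjoint (T i) (T i'))
    {z : (ι × ι × ι) ⊕ Fin n → k} (hz : MvPolynomial.eval z (disc ρ₀) ≠ 0)
    (hS : ∃ (A : Type) (_ : CommRing A) (_ : Algebra k A) (v : Module.Basis ι k A),
      IsStr o (z ∘ Sum.inl) A v ∧ mdeg k A ≤ D)
    (hρ : ∏ j, (Polynomial.X - Polynomial.C (z (Sum.inr j))) =
      (cm α).charpoly.map (MvPolynomial.eval (z ∘ Sum.inl))) :
    ∃ w : Fin (l + 1) → ℕ, ∑ i, w i ≤ D ∧ z ∈ PartOf o α T w := by
  obtain ⟨A, i1, i2, v, hA, hD⟩ := hS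
  have hfin : Module.Finite k A := Module.Finite.of_basis v
  rw [charpoly_eq α hA] at hρ
  rw [eval_disc] at hz
  have h0 := pr_univ (ρ := z ∘ Sum.inr) hρ
  have hcop : ∀ i i', i ≠ i' → IsCoprime (pr (T i) (z ∘ Sum.inr) (el α v))
      (pr (T i') (z ∘ Sum.inr) (el α v)) := by
    intro i i' hii
    refine isCoprime_pr _ fun j hj j' hj' => hz j j' (hTd i j hj j' fun h => ?_)
    exact Finset.disjoint_left.1 (hTT i i' hii) h hj'
  refine ⟨fun i => mdeg k (A ⧸ Ideal.span {pr (T i) (z ∘ Sum.inr) (el α v)}), ?_,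
    A, i1, i2, v, hA, fun i => ⟨?_, ?_, le_rfl⟩⟩
  · rw [← mdeg_pi' (k := k) (l + 1)
      (fun i => A ⧸ Ideal.span {pr (T i) (z ∘ Sum.inr) (el α v)})]
    refine le_trans ?_ hD
    let f : A →ₐ[k] (∀ i, A ⧸ Ideal.span {pr (T i) (z ∘ Sum.inr) (el α v)}) :=
      AlgHom.pi fun i => Ideal.Quotient.mkₐ k _
    have hf : Function.Surjective f := by
      intro y
      obtain ⟨x, hx⟩ := Ideal.pi_quotient_surjective
        (I := fun i => Ideal.span {pr (T i) (z ∘ Sum.inr) (el α v)})
        (fun i i' hii => (Ideal.isCoprime_span_singleton_iff _ _).2 (hcop i i' hii)) y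
      exact ⟨x, funext hx⟩
    obtain ⟨D', hD'⟩ := exists_fam (k := k) A
    exact mdeg_le ((mdeg_spec hD').of_surjective f hf)
  · rw [pr_mul_compl]
    exact h0
  · rw [Ideal.Quotient.nontrivial_iff, Ne, Ideal.span_singleton_eq_top]
    intro hu
    obtain ⟨j, hj⟩ := hT i
    have h1 : (el α v - algebraMap k A ((z ∘ Sum.inr) j)) ∣
        pr (T i) (z ∘ Sum.inr) (el α v) := Finset.dvd_prod_of_mem _ hj
    exact not_isUnit (ρ := z ∘ Sum.inr) hρ j (isUnit_of_dvd_unit h1 hu)

end main

end Pool.Agent.Q180.SC.Str
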