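import Pool.Agent.Q180.SC.LimX

/-!
# Limits in the variety of all algebra structures: the growth rate
-/

set_option autoImplicit false

namespace Pool.Agent.Q180.SC.Str

open scoped TensorProduct PowerSeries Topology
open Pool.Agent.H826R3.SM Pool.Agent.TH671.DU Filter

variable {k : Type} [Field k] [IsAlgClosed k]

/-- the maximal ideals of a finite algebra, and an element which takes different values at them -/
theorem exists_separating (A : Type) [CommRing A] [Algebra k A] [Module.Finite k A]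
    [Nontrivial A] : ∃ (l : ℕ) (m : Fin (l + 1) → Ideal A) (ν : Fin (l + 1) → k) (x : A),
      (∀ i, (m i).IsMaximal) ∧ (∀ M : Ideal A, M.IsMaximal → ∃ i, M = m i) ∧
        Function.Injective ν ∧ ∀ i (μ : k), x - algebraMap k A μ ∈ m i ↔ μ = ν i := by
  have hart : IsArtinianRing A := IsArtinianRing.of_finite k A
  have hinf : Infinite k := IsAlgClosed.instInfinite
  obtain ⟨r, ⟨e⟩⟩ := Finite.exists_equiv_fin (MaximalSpectrum A)
  obtain ⟨l, rfl⟩ : ∃ l, r = l + 1 := by
    cases r with
    | zero =>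
      obtain ⟨M, hM⟩ := Ideal.exists_maximal A
      exact (e ⟨M, hM⟩).elim0
    | succ l => exact ⟨l, rfl⟩
  let m : Fin (l + 1) → Ideal A := fun i => (e.symm i).asIdeal
  have hm : ∀ i, (m i).IsMaximal := fun i => (e.symm i).isMaximal
  have hmi : Function.Injective m := by
    intro i j hij
    apply e.symm.injective
    exact MaximalSpectrum.ext hij
  let ν : Fin (l + 1) → k := fun i => Infinite.natEmbedding k (i : ℕ)
  have hν : Function.Injective ν := fun i j hij =>
    Fin.ext ((Infinite.natEmbedding k).injective hij)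
  obtain ⟨x, hx⟩ := Ideal.pi_quotient_surjective (I := m)
    (fun i j hij => Ideal.isCoprime_of_isMaximal fun h => hij (hmi h))
    (fun i => Ideal.Quotient.mk (m i) (algebraMap k A (ν i)))
  refine ⟨l, m, ν, x, hm, fun M hM => ⟨e ⟨M, hM⟩, ?_⟩, hν, fun i μ => ?_⟩
  · change M = (e.symm (e ⟨M, hM⟩)).asIdeal
    rw [e.symm_apply_apply]
  · have h1 : x - algebraMap k A (ν i) ∈ m i := by
      rw [← Ideal.Quotient.eq]
      exact hx i
    constructor
    · intro h
      by_contra hne
      have h2 : algebraMap k A (μ - ν i) ∈ m i := by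
        have h3 := (m i).sub_mem h1 h
        rw [map_sub]
        convert h3 using 1
        ring
      exact (hm i).ne_top (Ideal.eq_top_of_isUnit_mem _ h2
        ((sub_ne_zero.2 hne).isUnit.map _))
    · rintro rfl
      exact h1

variable {ι : Type} [Fintype ι] [DecidableEq ι]

/-- **A bound for the growth rate of a limit.** -/
theorem rate_le_of_mdeg_le (o : ι) {D : ℕ} {S : Set (ι × ι × ι → k)}
    (hS : ∀ s ∈ S, ∃ (A : Type) (_ : CommRing A) (_ : Algebra k A) (v : Module.Basis ι k A),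
      IsStr o s A v ∧ mdeg k A ≤ D) {c : ι × ι × ι → k} (hc : InClosure S c)
    {A : Type} [CommRing A] [Algebra k A] {v : Module.Basis ι k A} (h : IsStr o c A v) :
    rate k A ≤ D := by
  classical
  have hfin : Module.Finite k A := Module.Finite.of_basis v
  have hnt : Nontrivial A := by
    refine Module.nontrivial_of_finrank_pos (R := k) ?_
    rw [Module.finrank_eq_card_basis v]
    exact Fintype.card_pos_iff.2 ⟨o⟩
  obtain ⟨l, m, ν, x, hm, hall, hν, hx⟩ := exists_separating (k := k) A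
  let α : ι → k := fun i => v.repr x i
  have hel : el α v = x := v.sum_repr x
  set χ := (cm α).charpoly with hχ
  have hmon : χ.Monic := Matrix.charpoly_monic _
  have hdeg : χ.natDegree = Fintype.card ι := Matrix.charpoly_natDegree_eq_dim _
  obtain ⟨ρ₀, hρ₀⟩ := exists_roots (n := Fintype.card ι) (χ.map (MvPolynomial.eval c))
    (hmon.map _) (by rw [hmon.natDegree_map, hdeg])
  have hρ₁ : ∏ j, (Polynomial.X - Polynomial.C (ρ₀ j)) =
      (Algebra.leftMulMatrix v x).charpoly := by
    rw [hρ₀, hχ, charpoly_eq α h, hel]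
  have h0 : pr Finset.univ ρ₀ x = 0 := pr_univ hρ₁
  let T : Fin (l + 1) → Finset (Fin (Fintype.card ι)) := fun i =>
    Finset.univ.filter fun j => ρ₀ j = ν i
  have hTmem : ∀ i j, j ∈ T i ↔ ρ₀ j = ν i := fun i j => by
    simp only [T, Finset.mem_filter, Finset.mem_univ, true_and]
  have hT : ∀ i, (T i).Nonempty := by
    intro i
    have h1 : pr Finset.univ ρ₀ x ∈ m i := by rw [h0]; exact (m i).zero_mem
    obtain ⟨j, -, hj⟩ := ((hm i).isPrime.prod_mem_iff).1 h1
    exact ⟨j, (hTmem i j).2 ((hx i _).1 hj)⟩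
  have hTd : ∀ i j, j ∈ T i → ∀ j', j' ∉ T i → ρ₀ j ≠ ρ₀ j' := by
    intro i j hj j' hj' he
    exact hj' ((hTmem i j').2 (he.symm.trans ((hTmem i j).1 hj)))
  have hTT : ∀ i i', i ≠ i' → Disjoint (T i) (T i') := by
    intro i i' hii
    rw [Finset.disjoint_left]
    intro j hj hj'
    exact hii (hν (((hTmem i j).1 hj).symm.trans ((hTmem i' j).1 hj')))
  -- the local factors
  have hcop : ∀ i, IsCoprime (pr (T i) ρ₀ x) (pr (T i)ᶜ ρ₀ x) := fun i =>
    isCoprime_pr x fun j hj j' hj' => hTd i j hj j' (Finset.mem_compl.1 hj')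
  have hmem : ∀ i, pr (T i) ρ₀ x ∈ m i := by
    intro i
    obtain ⟨j, hj⟩ := hT i
    refine Ideal.mem_of_dvd _ (Finset.dvd_prod_of_mem _ hj) ((hx i _).2 ((hTmem i j).1 hj))
  have huniq : ∀ i (M : Ideal A), M.IsMaximal → pr (T i) ρ₀ x ∈ M → M = m i := by
    intro i M hM h1
    obtain ⟨i', rfl⟩ := hall M hM
    obtain ⟨j, hj, hj'⟩ := (hM.isPrime.prod_mem_iff).1 h1
    have h2 := (hx i' _).1 hj'
    rw [(hTmem i j).1 hj] at h2
    rw [hν h2]
  have hloc : ∀ i, IsLocalRing (A ⧸ Ideal.span {pr (T i) ρ₀ x}) := by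
    intro i
    have hnti : Nontrivial (A ⧸ Ideal.span {pr (T i) ρ₀ x}) := by
      rw [Ideal.Quotient.nontrivial_iff]
      intro htop
      refine (hm i).ne_top (top_le_iff.1 ?_)
      rw [← htop, Ideal.span_singleton_le_iff_mem]
      exact hmem i
    have hkey : ∀ M : Ideal (A ⧸ Ideal.span {pr (T i) ρ₀ x}), M.IsMaximal →
        M.comap (Ideal.Quotient.mk _) = m i := by
      intro M hM
      have h1 : (M.comap (Ideal.Quotient.mk (Ideal.span {pr (T i) ρ₀ x}))).IsMaximal :=
        Ideal.comap_isMaximal_of_surjective _ Ideal.Quotient.mk_surjective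
      refine huniq i _ h1 ?_
      rw [Ideal.mem_comap, Ideal.Quotient.eq_zero_iff_mem.2 (Ideal.mem_span_singleton_self _)]
      exact M.zero_mem
    obtain ⟨M, hM⟩ := Ideal.exists_maximal (A ⧸ Ideal.span {pr (T i) ρ₀ x})
    refine IsLocalRing.of_unique_max_ideal ⟨M, hM, fun M' hM' => ?_⟩
    refine Ideal.comap_injective_of_surjective _ Ideal.Quotient.mk_surjective ?_
    exact (hkey M' hM').trans (hkey M hM).symm
  -- the closure
  have hroots := closure_roots hmon hdeg hc ρ₀ hρ₀
  obtain ⟨w, hw, hcl⟩ : ∃ w : Fin (l + 1) → ℕ, ∑ i, w i ≤ D ∧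
      InClosure (PartOf o α T w) (Sum.elim c ρ₀) := by
    by_contra hcon
    push Not at hcon
    let W : Finset (Fin (l + 1) → ℕ) :=
      (Fintype.piFinset fun _ => Finset.range (D + 1)).filter fun w => ∑ i, w i ≤ D
    have hW : ∀ w : Fin (l + 1) → ℕ, w ∈ W ↔ ∑ i, w i ≤ D := by
      intro w
      simp only [W, Finset.mem_filter, Fintype.mem_piFinset, Finset.mem_range,
        and_iff_right_iff_imp]
      intro hsum i
      exact Nat.lt_succ_of_le ((Finset.single_le_sum (fun _ _ => Nat.zero_le _)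
        (Finset.mem_univ i)).trans hsum)
    have hP : ∀ w : Fin (l + 1) → ℕ, ∃ P : MvPolynomial ((ι × ι × ι) ⊕ Fin (Fintype.card ι)) k,
        w ∈ W → (∀ z ∈ PartOf o α T w, MvPolynomial.eval z P = 0) ∧
          MvPolynomial.eval (Sum.elim c ρ₀) P ≠ 0 := by
      intro w
      by_cases hw : w ∈ W
      · have h1 := hcon w ((hW w).1 hw)
        unfold InClosure at h1
        push Not at h1
        obtain ⟨P, h2, h3⟩ := h1
        exact ⟨P, fun _ => ⟨h2, h3⟩⟩
      · exact ⟨0, fun h => absurd h hw⟩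
    choose P hP using hP
    have h1 := hroots (disc ρ₀ * ∏ w ∈ W, P w) fun z hz => by
      by_cases hd : MvPolynomial.eval z (disc ρ₀) = 0
      · rw [map_mul, hd, zero_mul]
      obtain ⟨w, hw1, hw2⟩ := mem_partOf (o := o) (α := α) hT hTd hTT hd (hS _ hz.1) hz.2
      rw [map_mul, map_prod]
      refine mul_eq_zero_of_right _ (Finset.prod_eq_zero ((hW w).2 hw1) ?_)
      exact (hP w ((hW w).2 hw1)).1 z hw2
    rw [map_mul, map_prod] at h1
    rcases mul_eq_zero.1 h1 with h2 | h2
    · refine absurd h2 ((eval_disc ρ₀ _).2 fun j j' hjj => ?_)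
      exact hjj
    · obtain ⟨w, hw1, hw2⟩ := Finset.prod_eq_zero_iff.1 h2
      exact (hP w hw1).2 hw2
  have hne : (PartOf o α T w).Nonempty := by
    by_contra hcon
    have := hcl 1 fun s hs => absurd ⟨s, hs⟩ hcon
    simp at this
  -- the bounds for the local factors
  have hblock : ∀ i, rate k (A ⧸ Ideal.span {pr (T i) ρ₀ x}) ≤ w i := by
    intro i
    have hwi : 1 ≤ w i := by
      obtain ⟨z, B, _, _, u, h1, h2⟩ := hne
      have hfinB : Module.Finite k B := Module.Finite.of_basis u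
      obtain ⟨-, h3, h4⟩ := h2 i
      exact (Module.finrank_pos (R := k)).trans_le ((finrank_le_mdeg _).trans h4)
    have h1 := block o α (T i) hwi (S := PartOf o α T w) (c := Sum.elim c ρ₀)
      (fun z hz => by
        obtain ⟨B, i1, i2, u, h2, h3⟩ := hz
        exact ⟨B, i1, i2, u, h2, (h3 i).1, (h3 i).2.1, (h3 i).2.2⟩) hcl
      (A := A) (v := v) (by rw [Sum.elim_comp_inl]; exact h)
      (by rw [Sum.elim_comp_inr, hel]; exact hcop i)
      (by rw [Sum.elim_comp_inr, hel]; exact hloc i)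
    rw [Sum.elim_comp_inr, hel] at h1
    exact h1
  -- the algebra is contained in the product of its local factors
  let f : A →ₐ[k] (∀ i, A ⧸ Ideal.span {pr (T i) ρ₀ x}) :=
    AlgHom.pi fun i => Ideal.Quotient.mkₐ k _
  have hf : Function.Injective f := by
    rw [injective_iff_map_eq_zero]
    intro y hy
    have hy' : ∀ i, y ∈ Ideal.span {pr (T i) ρ₀ x} := fun i =>
      Ideal.Quotient.eq_zero_iff_mem.1 (congrFun hy i)
    by_contra hne
    have hann : Ideal.span {y} ≠ ⊥ := by
      rw [Ne, Ideal.span_singleton_eq_bot]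
      exact hne
    have h1 : (Submodule.annihilator (Ideal.span {y})) ≠ ⊤ := by
      intro htop
      rw [Submodule.annihilator_eq_top_iff] at htop
      exact hann htop
    obtain ⟨M, hM, hle⟩ := Ideal.exists_le_maximal _ h1
    obtain ⟨i, rfl⟩ := hall M hM
    have h2 : pr (T i)ᶜ ρ₀ x ∈ m i := by
      apply hle
      rw [Submodule.mem_annihilator]
      intro z hz
      obtain ⟨z', rfl⟩ := Ideal.mem_span_singleton'.1 hz
      obtain ⟨y', hy'⟩ := Ideal.mem_span_singleton'.1 (hy' i)
      rw [← hy', smul_eq_mul]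
      calc pr (T i)ᶜ ρ₀ x * (z' * (y' * pr (T i) ρ₀ x)) =
          z' * y' * (pr (T i) ρ₀ x * pr (T i)ᶜ ρ₀ x) := by ring
        _ = 0 := by rw [pr_mul_compl, h0, mul_zero]
    obtain ⟨j, hj, hj'⟩ := (hM.isPrime.prod_mem_iff).1 h2
    exact (Finset.mem_compl.1 hj) ((hTmem i j).2 ((hx i _).1 hj'))
  have hnti : ∀ i, Nontrivial (A ⧸ Ideal.span {pr (T i) ρ₀ x}) := fun i =>
    (hloc i).toNontrivial
  calc rate k A ≤ rate k (∀ i, A ⧸ Ideal.span {pr (T i) ρ₀ x}) := SC.rate_of_injective f hf
    _ ≤ ∑ i, rate k (A ⧸ Ideal.span {pr (T i) ρ₀ x}) := rate_pi_le l _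
    _ ≤ ∑ i, (w i : ℝ) := Finset.sum_le_sum fun i _ => hblock i
    _ ≤ D := by exact_mod_cast hw

end Pool.Agent.Q180.SC.Str
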