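import Pool.Agent.Q180.SC.LimY

/-!
# The growth rate is lower semicontinuous in the variety of all algebra structures
-/

set_option autoImplicit false

namespace Pool.Agent.Q180.SC.Str

open scoped TensorProduct PowerSeries Topology
open Pool.Agent.H826R3.SM Pool.Agent.TH671.DU Filter

variable {k : Type} [Field k]

/-- the structure constants of a power -/
noncomputable def powConst {ι : Type} (n : ℕ) :
    (Fin n → ι) × (Fin n → ι) × (Fin n → ι) → MvPolynomial (ι × ι × ι) k :=
  fun q => ∏ m, MvPolynomial.X (q.1 m, q.2.1 m, q.2.2 m)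

theorem isStr_pow {ι : Type} [Fintype ι] [DecidableEq ι] {o : ι} {c : ι × ι × ι → k} {A : Type}
    [CommRing A] [Algebra k A] {v : Module.Basis ι k A} (h : IsStr o c A v) (n : ℕ) :
    IsStr (fun _ : Fin n => o) (evalAt (powConst n) c) (Pow k A n)
      (Basis.piTensorProduct fun _ : Fin n => v) := by
  constructor
  · rw [Basis.piTensorProduct_apply]
    simp only [h.1]
    rfl
  · intro I J
    rw [Basis.piTensorProduct_apply, Basis.piTensorProduct_apply, PiTensorProduct.tprod_mul_tprod]
    have h1 : ((fun i => v (I i)) * fun i => v (J i)) =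
        fun m => ∑ l, c (I m, J m, l) • v l := by
      funext m
      exact h.2 (I m) (J m)
    rw [h1, MultilinearMap.map_sum]
    refine Finset.sum_congr rfl fun L _ => ?_
    rw [MultilinearMap.map_smul_univ, Basis.piTensorProduct_apply]
    congr 1
    rw [evalAt, powConst, map_prod]
    refine Finset.prod_congr rfl fun m _ => ?_
    rw [MvPolynomial.eval_X]

variable [IsAlgClosed k]

theorem rate_pow_le_rate {A : Type} [CommRing A] [Algebra k A] [Module.Finite k A] [Nontrivial A]
    (n : ℕ) : rate k A ^ n ≤ rate k (Pow k A n) := by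
  have hfin := finite_Pow (k := k) (R := A) n
  rw [rate_eq (k := k) (Pow k A n)]
  have h0 : (0 : ℝ) ≤ rate k A := (Nat.cast_nonneg _).trans (finrank_le_rate A)
  refine le_irate _ _ (pow_nonneg h0 n) fun m => ?_
  rw [← pow_mul]
  refine (rate_pow_le (k := k) A (n * (m + 1))).trans ?_
  have hfin2 := finite_Pow (k := k) (R := Pow k A n) (m + 1)
  obtain ⟨D, hD⟩ := exists_fam (k := k) (Pow k (Pow k A n) (m + 1))
  have hone : Fam k (Pow k A 0) 1 := by
    have h1 := fam_points (k := k) 1
    refine h1.of_surjective ((powZero k A).symm.toAlgHom.comp (Pi.evalAlgHom k _ 0)) ?_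
    exact (powZero k A).symm.surjective.comp fun y => ⟨fun _ => y, rfl⟩
  have h2 := fam_blocks (mdeg_spec hD) hone
  have h3 := mdeg_le h2
  rw [mul_one, add_zero] at h3
  exact_mod_cast h3

/-- **The growth rate is lower semicontinuous** in the variety of all algebra structures. -/
theorem rate_limit {ι : Type} [Fintype ι] [DecidableEq ι] (o : ι) {S : Set (ι × ι × ι → k)}
    {x : ℝ} (hS : ∀ s ∈ S, ∃ (A : Type) (_ : CommRing A) (_ : Algebra k A)
      (v : Module.Basis ι k A), IsStr o s A v ∧ rate k A ≤ x) {c : ι × ι × ι → k}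
    (hc : InClosure S c) {A : Type} [CommRing A] [Algebra k A] {v : Module.Basis ι k A}
    (h : IsStr o c A v) : rate k A ≤ x := by
  have hfin : Module.Finite k A := Module.Finite.of_basis v
  have hnt : Nontrivial A := by
    refine Module.nontrivial_of_finrank_pos (R := k) ?_
    rw [Module.finrank_eq_card_basis v]
    exact Fintype.card_pos_iff.2 ⟨o⟩
  rcases S.eq_empty_or_nonempty with rfl | ⟨s₀, hs₀⟩
  · have := hc 1 (fun s hs => absurd hs (Set.notMem_empty s))
    simp at this
  have hx1 : 1 ≤ x := by
    obtain ⟨B, _, _, w, h1, h2⟩ := hS s₀ hs₀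
    have hfinB : Module.Finite k B := Module.Finite.of_basis w
    have hp : 0 < Module.finrank k B := by
      rw [Module.finrank_eq_card_basis w]
      exact Fintype.card_pos_iff.2 ⟨o⟩
    have hntB : Nontrivial B := Module.nontrivial_of_finrank_pos hp
    have h4 : (1 : ℝ) ≤ Module.finrank k B := by exact_mod_cast hp
    exact h4.trans ((finrank_le_rate B).trans h2)
  refine le_of_forall_pos_le_add fun η hη => ?_
  obtain ⟨C, hC, hU⟩ := uniform_degree (k := k) (Fintype.card ι) x η hη
  refine le_of_pow_le (C := C) (by linarith) fun n => ?_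
  set D := ⌊C * (x + η) ^ n⌋₊ with hD
  have hS' : ∀ s ∈ evalAt (powConst n) '' S, ∃ (A : Type) (_ : CommRing A) (_ : Algebra k A)
      (v : Module.Basis (Fin n → ι) k A), IsStr (fun _ : Fin n => o) s A v ∧ mdeg k A ≤ D := by
    rintro _ ⟨s, hs, rfl⟩
    obtain ⟨B, i1, i2, w, h1, h2⟩ := hS s hs
    have hfinB : Module.Finite k B := Module.Finite.of_basis w
    have hr : Module.finrank k B = Fintype.card ι := Module.finrank_eq_card_basis w
    have hntB : Nontrivial B := by
      refine Module.nontrivial_of_finrank_pos (R := k) ?_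
      rw [hr]
      exact Fintype.card_pos_iff.2 ⟨o⟩
    have h6 := hU B hr.le h2 n
    rw [finrank_add_eq B n] at h6
    exact ⟨Pow k B n, inferInstance, inferInstance, Basis.piTensorProduct fun _ : Fin n => w,
      isStr_pow h1 n, Nat.le_floor h6⟩
  have h1 := rate_le_of_mdeg_le (fun _ : Fin n => o) hS' (closure_image (powConst n) hc)
    (isStr_pow h n)
  calc rate k A ^ n ≤ rate k (Pow k A n) := rate_pow_le_rate n
    _ ≤ D := h1
    _ ≤ C * (x + η) ^ n := Nat.floor_le (by positivity)

/-- **Finitely many polynomials in the structure constants** describe the condition that the growth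
rate is at most `x`. -/
theorem exists_polynomials {ι : Type} [Fintype ι] [DecidableEq ι] (o : ι) (x : ℝ) :
    ∃ P : Finset (MvPolynomial (ι × ι × ι) k), ∀ (c : ι × ι × ι → k) (A : Type) [CommRing A]
      [Algebra k A] (v : Module.Basis ι k A), IsStr o c A v →
        (rate k A ≤ x ↔ ∀ p ∈ P, MvPolynomial.eval c p = 0) := by
  classical
  let S : Set (ι × ι × ι → k) := {s | ∃ (A : Type) (_ : CommRing A) (_ : Algebra k A)
    (v : Module.Basis ι k A), IsStr o s A v ∧ rate k A ≤ x}
  let V : Ideal (MvPolynomial (ι × ι × ι) k) :=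
    { carrier := {P | ∀ s ∈ S, MvPolynomial.eval s P = 0}
      zero_mem' := fun s _ => map_zero _
      add_mem' := fun {p q} hp hq s hs => by rw [map_add, hp s hs, hq s hs, add_zero]
      smul_mem' := fun c p hp s hs => by rw [smul_eq_mul, map_mul, hp s hs, mul_zero] }
  obtain ⟨P, hP⟩ : V.FG := IsNoetherian.noetherian V
  have hV : ∀ p, p ∈ V ↔ ∀ s ∈ S, MvPolynomial.eval s p = 0 := fun p => Iff.rfl
  refine ⟨P, fun c A _ _ v h => ⟨fun h' p hp => ?_, fun h' => ?_⟩⟩
  · have h1 : p ∈ V := by rw [← hP]; exact Ideal.subset_span hp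
    exact (hV p).1 h1 c ⟨A, _, _, v, h, h'⟩
  · refine rate_limit o (S := S) (fun s hs => hs) (fun p hp => ?_) h
    have h0 : p ∈ V := (hV p).2 hp
    rw [← hP] at h0
    have h2 : Ideal.span (P : Set (MvPolynomial (ι × ι × ι) k)) ≤
        RingHom.ker (MvPolynomial.eval c) := by
      rw [Ideal.span_le]
      intro q hq
      exact h' q hq
    exact h2 h0

end Pool.Agent.Q180.SC.Str
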