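import Pool.Agent.Q180.SC.Cover

/-!
# Local limits in the variety of all algebra structures
-/

set_option autoImplicit false

namespace Pool.Agent.Q180.SC

open scoped TensorProduct PowerSeries Topology
open Pool.Agent.H826R3.SM Pool.Agent.TH671.DU Filter

variable {k : Type} [Field k]

/-- The basis `v` of `A` begins with `1`, and `c` are the structure constants of `A` with respect
to `v`. -/
def IsStructure {d : ℕ} (c : Fin (d + 1) × Fin (d + 1) × Fin (d + 1) → k) (A : Type) [CommRing A]
    [Algebra k A] (v : Module.Basis (Fin (d + 1)) k A) : Prop :=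
  v 0 = 1 ∧ ∀ i j, v i * v j = ∑ l, c (i, j, l) • v l

section poly

variable {d : ℕ}

/-- the coordinates of the product of the elements `v i - a i`, `i ∈ L`, as polynomials in the
structure constants -/
noncomputable def cpoly (a : Fin (d + 1) → k) :
    List (Fin (d + 1)) → Fin (d + 1) →
      MvPolynomial (Fin (d + 1) × Fin (d + 1) × Fin (d + 1)) k
  | [], l => if l = 0 then 1 else 0
  | i :: L, l => ∑ j, cpoly a L j * MvPolynomial.X (i, j, l) - MvPolynomial.C (a i) * cpoly a L l

theorem eval_cpoly (a : Fin (d + 1) → k) {c : Fin (d + 1) × Fin (d + 1) × Fin (d + 1) → k}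
    {A : Type} [CommRing A] [Algebra k A] {v : Module.Basis (Fin (d + 1)) k A}
    (h : IsStructure c A v) (L : List (Fin (d + 1))) :
    (L.map fun i => v i - algebraMap k A (a i)).prod =
      ∑ l, MvPolynomial.eval c (cpoly a L l) • v l := by
  induction L with
  | nil =>
    rw [List.map_nil, List.prod_nil, Finset.sum_eq_single 0]
    · rw [cpoly, if_pos rfl, map_one, one_smul, h.1]
    · intro l _ hl
      rw [cpoly, if_neg hl, map_zero, zero_smul]
    · intro hc
      exact absurd (Finset.mem_univ _) hc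
  | cons i L ih =>
    rw [List.map_cons, List.prod_cons, ih, sub_mul, Finset.mul_sum]
    have h1 : ∀ l, MvPolynomial.eval c (cpoly a (i :: L) l) =
        ∑ j, MvPolynomial.eval c (cpoly a L j) * c (i, j, l) -
          a i * MvPolynomial.eval c (cpoly a L l) := by
      intro l
      rw [cpoly, map_sub, map_sum, map_mul, MvPolynomial.eval_C]
      simp only [map_mul, MvPolynomial.eval_X]
    simp only [h1, sub_smul, Finset.sum_sub_distrib, Finset.sum_smul]
    congr 1
    · rw [Finset.sum_comm]
      refine Finset.sum_congr rfl fun j _ => ?_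
      rw [mul_smul_comm, h.2, Finset.smul_sum]
      refine Finset.sum_congr rfl fun l _ => ?_
      rw [smul_smul]
    · rw [Finset.mul_sum]
      refine Finset.sum_congr rfl fun l _ => ?_
      rw [← Algebra.smul_def, smul_smul]

/-- the coordinates of `A` -/
noncomputable def crd (a : Fin (d + 1) → k) {A : Type} [CommRing A] [Algebra k A]
    (v : Module.Basis (Fin (d + 1)) k A) : MvPolynomial (Fin (d + 1)) k →ₐ[k] A :=
  MvPolynomial.aeval fun i => v i - algebraMap k A (a i)

/-- the coordinate polynomials of a monomial -/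
noncomputable def mpoly (a : Fin (d + 1) → k) (s : Fin (d + 1) →₀ ℕ) (l : Fin (d + 1)) :
    MvPolynomial (Fin (d + 1) × Fin (d + 1) × Fin (d + 1)) k :=
  cpoly a (Finsupp.toMultiset s).toList l

theorem crd_monomial (a : Fin (d + 1) → k) {c : Fin (d + 1) × Fin (d + 1) × Fin (d + 1) → k}
    {A : Type} [CommRing A] [Algebra k A] {v : Module.Basis (Fin (d + 1)) k A}
    (h : IsStructure c A v) (s : Fin (d + 1) →₀ ℕ) (l : Fin (d + 1)) :
    v.repr (crd a v (MvPolynomial.monomial s 1)) l = MvPolynomial.eval c (mpoly a s l) := by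
  have h1 : crd a v (MvPolynomial.monomial s 1) =
      ((Finsupp.toMultiset s).toList.map fun i => v i - algebraMap k A (a i)).prod := by
    unfold crd
    rw [MvPolynomial.aeval_monomial, map_one, one_mul, ← Multiset.prod_coe, ← Multiset.map_coe,
      Multiset.coe_toList, Finsupp.toMultiset_map, Finsupp.prod_toMultiset,
      Finsupp.prod_mapDomain_index]
    · intro b
      rw [pow_zero]
    · intro b m₁ m₂
      rw [pow_add]
  rw [h1, eval_cpoly a h, map_sum, Finset.sum_apply']
  rw [Finset.sum_eq_single l]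
  · rw [map_smul, Finsupp.smul_apply, Module.Basis.repr_self, Finsupp.single_eq_same, smul_eq_mul,
      mul_one]
    rfl
  · intro j _ hj
    rw [map_smul, Finsupp.smul_apply, Module.Basis.repr_self, Finsupp.single_eq_of_ne hj.symm,
      smul_zero]
  · intro hc
    exact absurd (Finset.mem_univ _) hc

/-- the coordinates of a polynomial on the `N`-th power -/
theorem exists_pow_poly (a : Fin (d + 1) → k) (N : ℕ)
    (F : MvPolynomial (Fin N × Fin (d + 1)) k) (j : Fin N → Fin (d + 1)) :
    ∃ Q : MvPolynomial (Fin (d + 1) × Fin (d + 1) × Fin (d + 1)) k,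
      ∀ (c : Fin (d + 1) × Fin (d + 1) × Fin (d + 1) → k) (A : Type) [CommRing A] [Algebra k A]
        (v : Module.Basis (Fin (d + 1)) k A), IsStructure c A v →
          (Basis.piTensorProduct fun _ : Fin N => v).repr (phiPow (crd a v) N F) j =
            MvPolynomial.eval c Q := by
  induction F using MvPolynomial.induction_on' with
  | monomial s b =>
    refine ⟨MvPolynomial.C b * ∏ l, mpoly a (part s l) (j l), fun c A _ _ v h => ?_⟩
    have h7 : MvPolynomial.monomial s b = b • MvPolynomial.monomial s (1 : k) := by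
      rw [MvPolynomial.smul_monomial, smul_eq_mul, mul_one]
    rw [h7, map_smul, map_smul, Finsupp.smul_apply, smul_eq_mul, map_mul, MvPolynomial.eval_C,
      map_prod, phiPow_monomial, Basis.piTensorProduct_repr_tprod_apply]
    congr 1
    exact Finset.prod_congr rfl fun l _ => crd_monomial a h _ _
  | add p q hp hq =>
    obtain ⟨P, hP⟩ := hp
    obtain ⟨Q, hQ⟩ := hq
    refine ⟨P + Q, fun c A _ _ v h => ?_⟩
    rw [map_add, map_add, Finsupp.add_apply, hP c A v h, hQ c A v h, map_add]

/-- vanishing on the powers passes to the Zariski closure -/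
theorem phiPow_eq_zero_of_closure (a : Fin (d + 1) → k) (N : ℕ)
    (F : MvPolynomial (Fin N × Fin (d + 1)) k)
    {S : Set (Fin (d + 1) × Fin (d + 1) × Fin (d + 1) → k)}
    (hS : ∀ s ∈ S, ∃ (A : Type) (_ : CommRing A) (_ : Algebra k A)
      (v : Module.Basis (Fin (d + 1)) k A), IsStructure s A v ∧ phiPow (crd a v) N F = 0)
    {c : Fin (d + 1) × Fin (d + 1) × Fin (d + 1) → k} (hc : InClosure S c)
    {A : Type} [CommRing A] [Algebra k A] {v : Module.Basis (Fin (d + 1)) k A}
    (h : IsStructure c A v) : phiPow (crd a v) N F = 0 := by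
  apply (Basis.piTensorProduct fun _ : Fin N => v).repr.injective
  rw [map_zero]
  ext j
  obtain ⟨Q, hQ⟩ := exists_pow_poly a N F j
  rw [hQ c A v h, Finsupp.zero_apply]
  refine hc Q fun s hs => ?_
  obtain ⟨B, _, _, w, h1, h2⟩ := hS s hs
  rw [← hQ s B w h1, h2, map_zero, Finsupp.zero_apply]

end poly

theorem crd_surjective {d : ℕ} (a : Fin (d + 1) → k) {A : Type} [CommRing A] [Algebra k A]
    (v : Module.Basis (Fin (d + 1)) k A) : Function.Surjective (crd a v) := by
  intro y
  refine ⟨∑ i, MvPolynomial.C (v.repr y i) *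
    (MvPolynomial.X i + MvPolynomial.C (a i)), ?_⟩
  conv_rhs => rw [← v.sum_repr y]
  rw [map_sum]
  refine Finset.sum_congr rfl fun i _ => ?_
  rw [map_mul, map_add]
  have h1 : crd a v (MvPolynomial.X i) = v i - algebraMap k A (a i) := MvPolynomial.aeval_X _ _
  have h2 : ∀ c : k, crd a v (MvPolynomial.C c) = algebraMap k A c := fun c =>
    (crd a v).commutes c
  rw [h1, h2, h2, sub_add_cancel, Algebra.smul_def]

/-- monomials of large degree vanish on a local scheme supported at the origin -/
theorem nil_of_local {σ A : Type} [CommRing A] [Algebra k A] [Module.Finite k A] [IsLocalRing A]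
    (φ : MvPolynomial σ k →ₐ[k] A) (hφ : ∀ i, φ (MvPolynomial.X i) ∈ IsLocalRing.maximalIdeal A)
    (e : ℕ) (he : Module.finrank k A ≤ e) (s : σ →₀ ℕ) (hs : e < s.degree) :
    φ (MvPolynomial.monomial s 1) = 0 := by
  have h1 : φ (MvPolynomial.monomial s 1) ∈ IsLocalRing.maximalIdeal A ^ s.degree := by
    rw [MvPolynomial.monomial_eq, map_mul, map_finsuppProd, MvPolynomial.C_1, map_one, one_mul,
      Finsupp.prod, Finsupp.degree_apply, ← Finset.prod_pow_eq_pow_sum]
    refine Ideal.prod_mem_prod fun i _ => ?_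
    rw [map_pow]
    exact Ideal.pow_mem_pow (hφ i) _
  have h2 := Ideal.pow_le_pow_right hs.le h1
  rw [pow_maximal_eq_bot A e he] at h2
  exact h2

theorem aug_mem {A : Type} [CommRing A] [Algebra k A] [IsLocalRing A] (χ : A →ₐ[k] k) {x : A}
    (hx : χ x = 0) : x ∈ IsLocalRing.maximalIdeal A := by
  rw [IsLocalRing.mem_maximalIdeal, mem_nonunits_iff]
  intro hu
  have h1 := hu.map χ
  rw [hx] at h1
  exact not_isUnit_zero h1

theorem le_of_pow_le {r x C : ℝ} (hx : 0 < x) (h : ∀ n : ℕ, r ^ n ≤ C * x ^ n) : r ≤ x := by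
  by_contra hcon
  push Not at hcon
  have hq : 1 < r / x := (one_lt_div hx).2 hcon
  obtain ⟨n, hn⟩ := pow_unbounded_of_one_lt C hq
  have h1 := h n
  rw [div_pow, lt_div_iff₀ (by positivity)] at hn
  linarith

/-- **Local limits.** -/
theorem local_limit [IsAlgClosed k] {d : ℕ}
    {S : Set (Fin (d + 1) × Fin (d + 1) × Fin (d + 1) → k)} {x : ℝ}
    (hS : ∀ s ∈ S, ∃ (A : Type) (_ : CommRing A) (_ : Algebra k A)
      (v : Module.Basis (Fin (d + 1)) k A), IsStructure s A v ∧ rate k A ≤ x)
    {c : Fin (d + 1) × Fin (d + 1) × Fin (d + 1) → k} (hc : InClosure S c)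
    {A : Type} [CommRing A] [Algebra k A] [IsLocalRing A] {v : Module.Basis (Fin (d + 1)) k A}
    (h : IsStructure c A v) : rate k A ≤ x := by
  have hfin : Module.Finite k A := Module.Finite.of_basis v
  have hrk : Module.finrank k A = d + 1 := by
    rw [Module.finrank_eq_card_basis v, Fintype.card_fin]
  obtain ⟨χ⟩ := exists_aug (k := k) A
  let a : Fin (d + 1) → k := fun i => χ (v i)
  have hX : ∀ i, crd a v (MvPolynomial.X i) ∈ IsLocalRing.maximalIdeal A := by
    intro i
    have h1 : crd a v (MvPolynomial.X i) = v i - algebraMap k A (a i) := MvPolynomial.aeval_X _ _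
    rw [h1]
    apply aug_mem χ
    rw [map_sub, AlgHom.commutes]
    exact sub_self _
  have hnil := nil_of_local (crd a v) hX (d + 1) hrk.le
  rcases S.eq_empty_or_nonempty with rfl | ⟨s₀, hs₀⟩
  · have := hc 1 (fun s hs => absurd hs (Set.notMem_empty s))
    simp at this
  -- the algebras of the set `S`
  have hS' : ∀ s ∈ S, ∃ (A : Type) (_ : CommRing A) (_ : Algebra k A)
      (v : Module.Basis (Fin (d + 1)) k A), IsStructure s A v ∧ rate k A ≤ x ∧
        Module.Finite k A ∧ Nontrivial A ∧ Module.finrank k A = d + 1 := by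
    intro s hs
    obtain ⟨B, i1, i2, w, h1, h2⟩ := hS s hs
    have h3 : Module.finrank k B = d + 1 := by
      rw [Module.finrank_eq_card_basis w, Fintype.card_fin]
    refine ⟨B, i1, i2, w, h1, h2, Module.Finite.of_basis w, ?_, h3⟩
    exact Module.nontrivial_of_finrank_pos (R := k) (by rw [h3]; exact Nat.succ_pos d)
  have hx1 : 1 ≤ x := by
    obtain ⟨B, _, _, w, _, h2, _, _, _⟩ := hS' s₀ hs₀
    have h4 : (1 : ℝ) ≤ Module.finrank k B := by
      exact_mod_cast (Module.finrank_pos (R := k) (M := B))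
    exact h4.trans ((finrank_le_rate B).trans h2)
  refine le_of_forall_pos_le_add fun η hη => ?_
  obtain ⟨C, hC, hU⟩ := uniform_degree (k := k) (d + 1) x η hη
  refine le_of_pow_le (C := C) (by linarith) fun n => ?_
  set D := ⌊C * (x + η) ^ n⌋₊ with hD
  have hfam : ∀ s ∈ S, ∃ (A : Type) (_ : CommRing A) (_ : Algebra k A)
      (v : Module.Basis (Fin (d + 1)) k A), IsStructure s A v ∧ Module.Finite k A ∧
        Nontrivial A ∧ mdeg k (Pow k A n) ≤ D ∧ Fam k (Pow k A n) D := by
    intro s hs
    obtain ⟨B, i1, i2, w, h1, h2, h3, h4, h5⟩ := hS' s hs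
    have h6 := hU B h5.le h2 n
    rw [finrank_add_eq B n] at h6
    have h7 : mdeg k (Pow k B n) ≤ D := Nat.le_floor h6
    refine ⟨B, i1, i2, w, h1, h3, h4, h7, ?_⟩
    have := finite_Pow (k := k) (R := B) n
    obtain ⟨D', hD'⟩ := exists_fam (k := k) (Pow k B n)
    exact (mdeg_spec hD').mono h7
  have hD1 : 1 ≤ D := by
    obtain ⟨B, _, _, w, _, _, _, h7, _⟩ := hfam s₀ hs₀
    exact (one_le_mdeg_pow B n).trans h7
  have h1 : rate k A ^ n ≤ D := by
    refine rate_pow_le_of_covers (crd a v) (crd_surjective a v) (d + 1) hnil n D hD1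
      fun M Θ hΘ F hdeg hF => ?_
    refine phiPow_eq_zero_of_closure a (M * n) F (fun s hs => ?_) hc h
    obtain ⟨B, i1, i2, w, h2, _, _, _, h5⟩ := hfam s hs
    exact ⟨B, i1, i2, w, h2, covers_gridSet (crd a w) h5 (M * n) M _ le_rfl Θ hΘ F hdeg hF⟩
  exact h1.trans (Nat.floor_le (by positivity))

end Pool.Agent.Q180.SC
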