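import Pool.Agent.Q180.SC.Interp

/-!
# Growth rates on the Zariski closure of a family
-/

set_option autoImplicit false

namespace Pool.Agent.Q180.SC

open scoped TensorProduct PowerSeries Topology
open Pool.Agent.H826R3.SM Pool.Agent.TH671.DU Filter

variable {k : Type} [Field k]

section ker

variable {R : Type} [CommRing R] [Algebra k R] {κ ι : Type} [Fintype κ] [Fintype ι]

/-- The kernel of the linear map `R → k^ι` with the matrix `c` is the ideal `I`. -/
def IsKernel (b : Module.Basis κ k R) (c : κ × ι → k) (I : Ideal R) : Prop :=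
  ∀ x : R, x ∈ I ↔ lin b c x = 0

theorem ker_iff (b : Module.Basis κ k R) {c : κ × ι → k} {I : Ideal R} (h : IsKernel b c I)
    (n : ℕ) (x : Pow k R n) :
    powMap (Ideal.Quotient.mkₐ k I) n x = 0 ↔
      PiTensorProduct.map (fun _ : Fin n => lin b c) x = 0 := by
  obtain ⟨σ, hσ⟩ := (Ideal.Quotient.mkₐ k I).toLinearMap.exists_rightInverse_of_surjective
    (LinearMap.range_eq_top.2 Ideal.Quotient.mk_surjective)
  have hσ' : ∀ y : R ⧸ I, Ideal.Quotient.mk I (σ y) = y := fun y => LinearMap.congr_fun hσ y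
  let g : (R ⧸ I) →ₗ[k] (ι → k) := lin b c ∘ₗ σ
  have hg : Function.Injective g := by
    rw [injective_iff_map_eq_zero]
    intro y hy
    have h1 : σ y ∈ I := (h _).2 hy
    rw [← hσ' y, Ideal.Quotient.eq_zero_iff_mem]
    exact h1
  have hgf : g ∘ₗ (Ideal.Quotient.mkₐ k I).toLinearMap = lin b c := by
    refine LinearMap.ext fun y => ?_
    change lin b c (σ (Ideal.Quotient.mk I y)) = lin b c y
    rw [← sub_eq_zero, ← map_sub, ← h, ← Ideal.Quotient.eq]
    exact hσ' _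
  have h2 : PiTensorProduct.map (fun _ : Fin n => lin b c) x =
      PiTensorProduct.map (fun _ : Fin n => g) (powMap (Ideal.Quotient.mkₐ k I) n x) := by
    have h3 := LinearMap.congr_fun (powMap_eq_map (Ideal.Quotient.mkₐ k I) n) x
    rw [AlgHom.toLinearMap_apply] at h3
    rw [h3, ← LinearMap.comp_apply, ← PiTensorProduct.map_comp, hgf]
  rw [h2, map_eq_zero_iff _ (map_injective g hg n)]

end ker

theorem exists_exp (e : ℕ) (c a : ℝ) (ha : 0 ≤ a) {x y : ℝ} (hx : 0 < x) (hxy : x < y) :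
    ∃ n : ℕ, 0 < n ∧ (a * ((n : ℝ) + 1) ^ e + c) * x ^ n ≤ y ^ n := by
  have hr : 1 < y / x := (one_lt_div hx).2 hxy
  have h1 : Tendsto (fun n : ℕ => (n : ℝ) ^ e / (y / x) ^ n) atTop (𝓝 0) :=
    tendsto_pow_const_div_const_pow_of_one_lt e hr
  have h2 : ∀ᶠ n : ℕ in atTop, (n : ℝ) ^ e / (y / x) ^ n < 1 / (a * 2 ^ e + |c| + 1) :=
    h1.eventually_lt_const (by positivity)
  obtain ⟨n, hn, hn1⟩ := (h2.and (eventually_ge_atTop 1)).exists
  refine ⟨n, hn1, ?_⟩
  have hq : 0 < (y / x) ^ n := by positivity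
  rw [div_lt_div_iff₀ hq (by positivity), one_mul] at hn
  have hn1' : (1 : ℝ) ≤ n := by exact_mod_cast hn1
  have h3 : ((n : ℝ) + 1) ^ e ≤ 2 ^ e * (n : ℝ) ^ e := by
    rw [← mul_pow]
    exact pow_le_pow_left₀ (by positivity) (by linarith) e
  have h4 : (1 : ℝ) ≤ (n : ℝ) ^ e := one_le_pow₀ hn1'
  have h5 : a * ((n : ℝ) + 1) ^ e + c ≤ (y / x) ^ n := by
    calc a * ((n : ℝ) + 1) ^ e + c ≤ a * (2 ^ e * (n : ℝ) ^ e) + |c| * (n : ℝ) ^ e := by
          refine add_le_add (mul_le_mul_of_nonneg_left h3 ha) ?_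
          exact (le_abs_self c).trans (le_mul_of_one_le_right (abs_nonneg c) h4)
      _ ≤ (n : ℝ) ^ e * (a * 2 ^ e + |c| + 1) := by nlinarith
      _ ≤ _ := hn.le
  calc (a * ((n : ℝ) + 1) ^ e + c) * x ^ n ≤ (y / x) ^ n * x ^ n :=
        mul_le_mul_of_nonneg_right h5 (by positivity)
    _ = y ^ n := by rw [div_pow, div_mul_cancel₀ _ (by positivity)]

section main

variable [IsAlgClosed k] {R : Type} [CommRing R] [Algebra k R] [Module.Finite k R]
  {κ ι : Type} [Fintype κ] [Fintype ι]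

theorem growth_of_rate {A : Type} [CommRing A] [Algebra k A] [Module.Finite k A] [Nontrivial A]
    {x η : ℝ} (h : rate k A ≤ x) (hη : 0 < η) : Growth k A (x + η) := by
  obtain ⟨C, hC, hG⟩ := rate_growth (k := k) A η hη
  have h0 : (0 : ℝ) ≤ rate k A := (Nat.cast_nonneg _).trans (finrank_le_rate A)
  refine ⟨C, hC, fun n => ⟨mdeg k (Pow k A n), (hG n).trans ?_, ?_⟩⟩
  · exact mul_le_mul_of_nonneg_left (pow_le_pow_left₀ (by linarith) (by linarith) n) hC
  · obtain ⟨D, hD⟩ := exists_fam (k := k) (Pow k A n)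
    exact mdeg_spec hD

theorem finite_Pow (n : ℕ) : Module.Finite k (Pow k R n) :=
  Module.Finite.of_basis (Basis.piTensorProduct fun _ : Fin n => Module.finBasis k R)

/-- **Uniform growth on the Zariski closure.** -/
theorem uniform (b : Module.Basis κ k R) (S : Set (κ × ι → k)) (x : ℝ)
    (hS : ∀ s ∈ S, ∃ I : Ideal R, IsKernel b s I ∧ I ≠ ⊤ ∧ rate k (R ⧸ I) ≤ x) (η : ℝ)
    (hη : 0 < η) :
    ∃ C : ℝ, 0 ≤ C ∧ ∀ c, InClosure S c → ∀ I : Ideal R, IsKernel b c I →
      ∀ N : ℕ, (mdeg k (Pow k (R ⧸ I) N) : ℝ) ≤ C * (x + η) ^ N := by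
  classical
  rcases S.eq_empty_or_nonempty with rfl | ⟨s₀, hs₀⟩
  · refine ⟨0, le_rfl, fun c hc => ?_⟩
    have := hc 1 (fun s hs => absurd hs (Set.notMem_empty s))
    simp at this
  choose! J hJ1 hJ2 hJ3 using hS
  have hx1 : 1 ≤ x := by
    have hnt : Nontrivial (R ⧸ J s₀) := Ideal.Quotient.nontrivial_iff.2 (hJ2 s₀ hs₀)
    have h1 : (1 : ℝ) ≤ Module.finrank k (R ⧸ J s₀) := by
      exact_mod_cast (Module.finrank_pos (R := k) (M := R ⧸ J s₀))
    exact h1.trans ((finrank_le_rate _).trans (hJ3 s₀ hs₀))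
  obtain ⟨n, hn, hexp⟩ := exists_exp (Fintype.card (κ × ι)) 1 1 zero_le_one
    (show (0 : ℝ) < x + η / 2 by linarith) (show x + η / 2 < x + η by linarith)
  obtain ⟨T, hT1, hT2, hT3⟩ := interpolation b n S
  let T' := insert s₀ T
  have hT'S : ∀ t ∈ T', t ∈ S := by
    intro t ht
    rcases Finset.mem_insert.1 ht with rfl | ht
    · exact hs₀
    · exact hT1 ht
  let K : (κ × ι → k) → Ideal (Pow k R n) := fun t =>
    RingHom.ker (powMap (Ideal.Quotient.mkₐ k (J t)) n)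
  have hG : Growth k (Pow k R n ⧸ ⨅ t ∈ T', K t) (T'.card * (x + η / 2) ^ n) := by
    refine growth_biInf K T' ⟨s₀, Finset.mem_insert_self _ _⟩ (by positivity) fun t ht => ?_
    have hnt : Nontrivial (R ⧸ J t) := Ideal.Quotient.nontrivial_iff.2 (hJ2 t (hT'S t ht))
    have h1 := growth_pow (growth_of_rate (hJ3 t (hT'S t ht)) (half_pos hη)) n
    obtain ⟨e⟩ := pow_quot_equiv (k := k) (J t) n
    exact h1.of_surjective e.symm.toAlgHom e.symm.surjective
  have hcard : (T'.card : ℝ) * (x + η / 2) ^ n ≤ (x + η) ^ n := by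
    refine le_trans ?_ hexp
    refine mul_le_mul_of_nonneg_right ?_ (by positivity)
    rw [one_mul]
    have : T'.card ≤ (n + 1) ^ Fintype.card (κ × ι) + 1 :=
      (Finset.card_insert_le _ _).trans (Nat.add_le_add_right hT2 1)
    exact_mod_cast this
  have hR : ∀ r, ∃ D, Fam k (Pow k R r) D := fun r => by
    have := finite_Pow (k := k) (R := R) r
    exact exists_fam (k := k) (Pow k R r)
  obtain ⟨C, hC, hU⟩ := uniform_bound hn hR (show 1 ≤ x + η by linarith) hcard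
    (by positivity) hG
  refine ⟨C, hC, fun c hc I hI N => ?_⟩
  have hle : (⨅ t ∈ T', K t) ≤ RingHom.ker (powMap (Ideal.Quotient.mkₐ k I) n) := by
    intro y hy
    rw [RingHom.mem_ker]
    change powMap (Ideal.Quotient.mkₐ k I) n y = 0
    rw [ker_iff b hI]
    refine hT3 c hc y fun t ht => ?_
    rw [← ker_iff b (hJ1 t (hT1 ht))]
    have h1 : y ∈ K t := by
      have h2 := Ideal.mem_iInf.1 hy t
      exact Ideal.mem_iInf.1 h2 (Finset.mem_insert_of_mem ht)
    exact h1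
  obtain ⟨e⟩ := pow_quot_equiv (k := k) I n
  obtain ⟨D, hD1, hD2⟩ := hU (R ⧸ I) (Ideal.Quotient.mkₐ k I)
    (e.toAlgHom.comp (Ideal.Quotient.factorₐ k hle)) Ideal.Quotient.mk_surjective
    (e.surjective.comp (Ideal.Quotient.factor_surjective hle)) N
  refine le_trans ?_ hD1
  exact_mod_cast mdeg_le hD2

/-- **The growth rate on the Zariski closure.** -/
theorem rate_le_of_closure (b : Module.Basis κ k R) (S : Set (κ × ι → k)) (x : ℝ)
    (hS : ∀ s ∈ S, ∃ I : Ideal R, IsKernel b s I ∧ I ≠ ⊤ ∧ rate k (R ⧸ I) ≤ x)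
    {c : κ × ι → k} (hc : InClosure S c) {I : Ideal R} (hI : IsKernel b c I) (hI' : I ≠ ⊤) :
    rate k (R ⧸ I) ≤ x := by
  refine le_of_forall_pos_le_add fun η hη => ?_
  obtain ⟨C, hC, h⟩ := uniform b S x hS η hη
  have hnt : Nontrivial (R ⧸ I) := Ideal.Quotient.nontrivial_iff.2 hI'
  have hx0 : 0 < x + η := by
    rcases S.eq_empty_or_nonempty with rfl | ⟨s₀, hs₀⟩
    · have := hc 1 (fun s hs => absurd hs (Set.notMem_empty s))
      simp at this
    obtain ⟨J, h1, h2, h3⟩ := hS s₀ hs₀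
    have hnt : Nontrivial (R ⧸ J) := Ideal.Quotient.nontrivial_iff.2 h2
    have h4 : (0 : ℝ) ≤ rate k (R ⧸ J) := (Nat.cast_nonneg _).trans (finrank_le_rate _)
    linarith
  rw [rate_eq]
  exact irate_le_of_growth _ C _ hC hx0 fun N => h c hc I hI N

end main

end Pool.Agent.Q180.SC
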