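import Pool.Agent.Q180.SC.Sub

/-!
# Local schemes and equations of bounded degree

Let `Spec A` be a local closed subscheme of affine space, supported at the origin and killed by the
monomials of degree `h + 1`, and let `G` be a finite subscheme of affine space such that all
polynomials of degree at most `h` which vanish on `G` vanish on `Spec A`. If `G` is contained in a
smoothable scheme of degree `D`, then `Spec A` is contained in one of degree `(h + 1) D`: in the
limit `t → 0` of the union of `h + 1` dilations `t θ_j G`.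
-/

set_option autoImplicit false

namespace Pool.Agent.Q180.SC

open scoped TensorProduct PowerSeries
open Pool.Agent.H826R3.SM

variable {k : Type} [Field k]

theorem isReduced_pi {𝒢 : Type} [CommRing 𝒢] [Algebra k⟦X⟧ 𝒢] (n : ℕ)
    (h : IsReduced (LL k ⊗[k⟦X⟧] 𝒢)) : IsReduced (LL k ⊗[k⟦X⟧] (Fin n → 𝒢)) := by
  have e : (LL k ⊗[k⟦X⟧] (Fin n → 𝒢)) ≃ₐ[LL k] (Fin n → LL k ⊗[k⟦X⟧] 𝒢) :=
    Algebra.TensorProduct.piRight k⟦X⟧ (LL k) (LL k) fun _ : Fin n => 𝒢
  exact isReduced_of_injective e e.injective

/-- a weight matrix -/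
theorem exists_weights [Infinite k] (h : ℕ) : ∃ (θ : Fin (h + 1) → k)
    (β : Fin (h + 1) → Fin (h + 1) → k), ∀ a b : Fin (h + 1),
      ∑ j, β a j * θ j ^ (b : ℕ) = if a = b then 1 else 0 := by
  classical
  obtain ⟨θ⟩ : Nonempty (Fin (h + 1) ↪ k) :=
    ⟨(Fin.valEmbedding).trans (Infinite.natEmbedding k)⟩
  have hdet : (Matrix.vandermonde θ).det ≠ 0 := Matrix.det_vandermonde_ne_zero_iff.2 θ.injective
  have hu : IsUnit (Matrix.vandermonde θ).det := isUnit_iff_ne_zero.2 hdet
  refine ⟨θ, fun a j => (Matrix.vandermonde θ)⁻¹ a j, fun a b => ?_⟩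
  have h1 := congrFun (congrFun (Matrix.nonsing_inv_mul _ hu) a) b
  rw [Matrix.mul_apply, Matrix.one_apply] at h1
  exact h1

theorem exists_factor {V W U : Type} [AddCommGroup V] [Module k V] [AddCommGroup W] [Module k W]
    [AddCommGroup U] [Module k U] (p : V →ₗ[k] W) (q : V →ₗ[k] U)
    (hpq : LinearMap.ker p ≤ LinearMap.ker q) : ∃ m : W →ₗ[k] U, ∀ x, m (p x) = q x := by
  obtain ⟨σ, hσ⟩ := p.rangeRestrict.exists_rightInverse_of_surjective
    (LinearMap.range_eq_top.2 p.surjective_rangeRestrict)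
  obtain ⟨m, hm⟩ := LinearMap.exists_extend (q ∘ₗ σ)
  refine ⟨m, fun x => ?_⟩
  have h1 := LinearMap.congr_fun hm ⟨p x, ⟨x, rfl⟩⟩
  have h2 : m (p x) = q (σ ⟨p x, ⟨x, rfl⟩⟩) := h1
  rw [h2, ← sub_eq_zero, ← map_sub]
  apply hpq
  have h3 := LinearMap.congr_fun hσ ⟨p x, ⟨x, rfl⟩⟩
  have h4 : p (σ ⟨p x, ⟨x, rfl⟩⟩) = p x := congrArg Subtype.val h3
  change p (σ ⟨p x, ⟨x, rfl⟩⟩ - x) = 0
  rw [map_sub, h4, sub_self]

/-- **Scaling.** -/
theorem fam_of_degree [Infinite k] {σ : Type} {A G : Type} [CommRing A] [Algebra k A]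
    [CommRing G] [Algebra k G] (φ : MvPolynomial σ k →ₐ[k] A) (hφ : Function.Surjective φ)
    (γ : MvPolynomial σ k →ₐ[k] G) (h : ℕ)
    (hnil : ∀ s : σ →₀ ℕ, h < s.degree → φ (MvPolynomial.monomial s 1) = 0)
    (hle : ∀ F : MvPolynomial σ k, (∀ s ∈ F.support, s.degree ≤ h) → γ F = 0 → φ F = 0)
    {D : ℕ} (hG : Fam k G D) : Fam k A ((h + 1) * D) := by
  classical
  obtain ⟨𝒢, c1, c2, h1, h2, h3, h4, π, h5, h6⟩ := hG
  obtain ⟨θ, β, hβ⟩ := exists_weights (k := k) h
  choose g hg using fun i => h5 (γ (MvPolynomial.X i))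
  -- the map of coordinates
  let Φ : MvPolynomial σ k⟦X⟧ →ₐ[k⟦X⟧] (Fin (h + 1) → 𝒢) :=
    MvPolynomial.aeval fun i j => (PowerSeries.X * PowerSeries.C (θ j)) • g i
  have hΦ : ∀ (s : σ →₀ ℕ) (j : Fin (h + 1)), Φ (MvPolynomial.monomial s 1) j =
      (PowerSeries.X * PowerSeries.C (θ j)) ^ s.degree • (s.prod fun i e => g i ^ e) := by
    intro s j
    have h7 : Φ (MvPolynomial.monomial s 1) =
        s.prod fun i e => (fun j => (PowerSeries.X * PowerSeries.C (θ j)) • g i :
          Fin (h + 1) → 𝒢) ^ e := by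
      simp only [Φ, MvPolynomial.aeval_monomial, map_one, one_mul]
    rw [h7, Finsupp.prod, Finset.prod_apply, Finsupp.prod, Finsupp.degree_apply,
      ← Finset.prod_pow_eq_pow_sum, ← Finset.prod_smul]
    refine Finset.prod_congr rfl fun i _ => ?_
    rw [Pi.pow_apply, smul_pow]
  let S : Subalgebra k⟦X⟧ (Fin (h + 1) → 𝒢) := Φ.range
  have hfin : Module.Finite k⟦X⟧ S :=
    inferInstanceAs (Module.Finite k⟦X⟧ (Subalgebra.toSubmodule S))
  have hfree : Module.Free k⟦X⟧ S :=
    inferInstanceAs (Module.Free k⟦X⟧ (Subalgebra.toSubmodule S))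
  -- the special fibre
  let ev : MvPolynomial σ k⟦X⟧ →+* A :=
    φ.toRingHom.comp (MvPolynomial.map (PowerSeries.constantCoeff (R := k)))
  have key : ∀ F : MvPolynomial σ k⟦X⟧, Φ F = 0 → ev F = 0 := by
    intro F hF
    by_contra hne
    -- a functional on `A`
    obtain ⟨l, hl⟩ : ∃ l : A →ₗ[k] k, l (ev F) ≠ 0 := by
      by_contra hcon
      push Not at hcon
      exact hne ((Module.forall_dual_apply_eq_zero_iff k (ev F)).1 hcon)
    -- the functional on `G`
    let W : Submodule k (MvPolynomial σ k) :=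
      { carrier := {F | ∀ s ∈ F.support, s.degree ≤ h}
        zero_mem' := by simp
        add_mem' := fun {a b} ha hb s hs => by
          rcases Finset.mem_union.1 (MvPolynomial.support_add hs) with h7 | h7
          · exact ha s h7
          · exact hb s h7
        smul_mem' := fun c a ha s hs => ha s (MvPolynomial.support_smul hs) }
    have hW : ∀ F, F ∈ W ↔ ∀ s ∈ F.support, s.degree ≤ h := fun F => Iff.rfl
    obtain ⟨m, hm⟩ : ∃ m : G →ₗ[k] k, ∀ F ∈ W, m (γ F) = l (φ F) := by
      let p : W →ₗ[k] G := γ.toLinearMap ∘ₗ W.subtype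
      let q : W →ₗ[k] k := l ∘ₗ φ.toLinearMap ∘ₗ W.subtype
      have hpq : LinearMap.ker p ≤ LinearMap.ker q := by
        intro x hx
        have h7 : φ (x : MvPolynomial σ k) = 0 := hle x x.2 hx
        change l (φ x) = 0
        rw [h7, map_zero]
      obtain ⟨m, hm⟩ := exists_factor p q hpq
      exact ⟨m, fun F hF => hm ⟨F, hF⟩⟩
    -- the functional on the family
    let b := Module.finBasis k⟦X⟧ 𝒢
    let Λ : 𝒢 →ₗ[k⟦X⟧] k⟦X⟧ := b.constr k⟦X⟧ fun i => PowerSeries.C (m (π (b i)))
    have hΛ : ∀ y, PowerSeries.constantCoeff (Λ y) = m (π y) := by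
      intro y
      conv_rhs => rw [← b.sum_repr y]
      conv_lhs => rw [← b.sum_repr y]
      rw [map_sum, map_sum, map_sum, map_sum]
      refine Finset.sum_congr rfl fun i _ => ?_
      rw [map_smul, Module.Basis.constr_basis, smul_eq_mul, map_mul, PowerSeries.constantCoeff_C,
        Algebra.smul_def, map_mul, h6, ← Algebra.smul_def, map_smul, smul_eq_mul]
    -- the combination
    let E : MvPolynomial σ k⟦X⟧ →ₗ[k⟦X⟧] k⟦X⟧ := ∑ a : Fin (h + 1), ∑ j : Fin (h + 1),
      (PowerSeries.X ^ (h - (a : ℕ)) * PowerSeries.C (β a j)) •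
        (Λ ∘ₗ LinearMap.proj j ∘ₗ Φ.toLinearMap)
    have hE : ∀ F, E F = ∑ a : Fin (h + 1), ∑ j : Fin (h + 1),
        (PowerSeries.X ^ (h - (a : ℕ)) * PowerSeries.C (β a j)) * Λ (Φ F j) := by
      intro F
      simp only [E, LinearMap.sum_apply, LinearMap.smul_apply, LinearMap.comp_apply,
        LinearMap.proj_apply, AlgHom.toLinearMap_apply, smul_eq_mul]
    have hmon : ∀ s : σ →₀ ℕ, ∃ r : k⟦X⟧, E (MvPolynomial.monomial s 1) =
        PowerSeries.X ^ h * PowerSeries.C (l (φ (MvPolynomial.monomial s 1))) +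
          PowerSeries.X ^ (h + 1) * r := by
      intro s
      set G0 : k⟦X⟧ := Λ (s.prod fun i e => g i ^ e) with hG0
      have h7 : E (MvPolynomial.monomial s 1) = (∑ a : Fin (h + 1),
          PowerSeries.X ^ (h - (a : ℕ) + s.degree) *
            PowerSeries.C (∑ j, β a j * θ j ^ s.degree)) * G0 := by
        rw [hE, Finset.sum_mul]
        refine Finset.sum_congr rfl fun a _ => ?_
        rw [map_sum, Finset.mul_sum, Finset.sum_mul]
        refine Finset.sum_congr rfl fun j _ => ?_
        rw [hΦ, map_smul, smul_eq_mul, mul_pow, map_mul, map_pow, pow_add]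
        ring
      by_cases hs : s.degree ≤ h
      · have h8 : ∀ a : Fin (h + 1), ∑ j, β a j * θ j ^ s.degree =
            if a = ⟨s.degree, Nat.lt_succ_of_le hs⟩ then 1 else 0 := fun a =>
          hβ a ⟨s.degree, Nat.lt_succ_of_le hs⟩
        have h9 : (∑ a : Fin (h + 1), PowerSeries.X ^ (h - (a : ℕ) + s.degree) *
            PowerSeries.C (∑ j, β a j * θ j ^ s.degree) : k⟦X⟧) = PowerSeries.X ^ h := by
          rw [Finset.sum_eq_single ⟨s.degree, Nat.lt_succ_of_le hs⟩]
          · rw [h8, if_pos rfl, map_one, mul_one]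
            congr 1
            simp only
            omega
          · intro a _ ha
            rw [h8, if_neg ha, map_zero, mul_zero]
          · intro hc
            exact absurd (Finset.mem_univ _) hc
        obtain ⟨r, hr⟩ := powerSeries_split G0
        refine ⟨r, ?_⟩
        have h10 : PowerSeries.constantCoeff G0 = l (φ (MvPolynomial.monomial s 1)) := by
          rw [hG0, hΛ, ← hm _ (by
            rw [hW]
            intro u hu
            have := MvPolynomial.support_monomial_subset hu
            rw [Finset.mem_singleton] at this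
            rw [this]
            exact hs)]
          congr 1
          rw [map_finsuppProd, MvPolynomial.monomial_eq, map_mul, map_finsuppProd]
          simp only [map_pow, hg, map_one, one_mul]
        rw [h7, h9]
        conv_lhs => rw [hr, h10]
        ring
      · push Not at hs
        rw [hnil s hs, map_zero, map_zero, mul_zero]
        have h8 : ∀ a : Fin (h + 1), (PowerSeries.X ^ (h - (a : ℕ) + s.degree) : k⟦X⟧) =
            PowerSeries.X ^ (h + 1) * PowerSeries.X ^ (h - (a : ℕ) + s.degree - (h + 1)) := by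
          intro a
          rw [← pow_add]
          congr 1
          omega
        refine ⟨(∑ a : Fin (h + 1), PowerSeries.X ^ (h - (a : ℕ) + s.degree - (h + 1)) *
            PowerSeries.C (∑ j, β a j * θ j ^ s.degree)) * G0, ?_⟩
        rw [h7, zero_add, ← mul_assoc, Finset.mul_sum]
        congr 1
        refine Finset.sum_congr rfl fun a _ => ?_
        rw [h8 a]
        ring
    have hall : ∃ r : k⟦X⟧, E F = PowerSeries.X ^ h * PowerSeries.C (l (ev F)) +
        PowerSeries.X ^ (h + 1) * r := by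
      clear hF hne hl
      induction F using MvPolynomial.induction_on' with
      | monomial s c =>
        obtain ⟨r, hr⟩ := hmon s
        obtain ⟨c', hc'⟩ := powerSeries_split c
        have h7 : MvPolynomial.monomial s c = c • MvPolynomial.monomial s (1 : k⟦X⟧) := by
          rw [MvPolynomial.smul_monomial, smul_eq_mul, mul_one]
        have h8 : ev (MvPolynomial.monomial s c) =
            PowerSeries.constantCoeff c • φ (MvPolynomial.monomial s 1) := by
          change φ (MvPolynomial.map _ _) = _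
          rw [MvPolynomial.map_monomial, ← map_smul, MvPolynomial.smul_monomial, smul_eq_mul,
            mul_one]
        refine ⟨c * r + c' * PowerSeries.C (l (φ (MvPolynomial.monomial s 1))), ?_⟩
        rw [h8, h7, map_smul, map_smul, smul_eq_mul, smul_eq_mul, hr, map_mul]
        conv_lhs => rw [mul_add]
        nth_rewrite 1 [hc']
        ring
      | add p q hp hq =>
        obtain ⟨r, hr⟩ := hp
        obtain ⟨r', hr'⟩ := hq
        refine ⟨r + r', ?_⟩
        rw [map_add, hr, hr', map_add, map_add, map_add]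
        ring
    obtain ⟨r, hr⟩ := hall
    have h7 : E F = 0 := by
      rw [hE]
      refine Finset.sum_eq_zero fun a _ => Finset.sum_eq_zero fun j _ => ?_
      rw [hF, Pi.zero_apply, map_zero, mul_zero]
    rw [h7] at hr
    have h8 : (PowerSeries.X : k⟦X⟧) ^ h * (PowerSeries.C (l (ev F)) + PowerSeries.X * r) = 0 := by
      rw [hr]
      ring
    have h9 := (mul_eq_zero.1 h8).resolve_left (pow_ne_zero _ PowerSeries.X_ne_zero)
    have h10 := congrArg (PowerSeries.constantCoeff (R := k)) h9
    rw [map_add, PowerSeries.constantCoeff_C, map_mul, PowerSeries.constantCoeff_X, zero_mul,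
      add_zero, map_zero] at h10
    exact hl h10
  have hev : Function.Surjective ev := by
    intro a
    obtain ⟨F, hF⟩ := hφ a
    refine ⟨MvPolynomial.map (PowerSeries.C (R := k)) F, ?_⟩
    change φ (MvPolynomial.map _ (MvPolynomial.map _ F)) = a
    rw [MvPolynomial.map_map]
    have h7 : (PowerSeries.constantCoeff (R := k)).comp (PowerSeries.C (R := k)) =
        RingHom.id k := by
      ext c
      simp
    rw [h7, MvPolynomial.map_id]
    exact hF
  have hsurj : Function.Surjective Φ.rangeRestrict := Φ.rangeRestrict_surjective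
  have hfac : RingHom.ker Φ.rangeRestrict.toRingHom ≤ RingHom.ker ev := by
    intro x hx
    refine key x ?_
    have h7 : Φ.rangeRestrict x = 0 := hx
    exact congrArg Subtype.val h7
  let ρ : S →+* A := Φ.rangeRestrict.toRingHom.liftOfSurjective hsurj ⟨ev, hfac⟩
  have hρ : ∀ x, ρ (Φ.rangeRestrict x) = ev x := fun x =>
    Φ.rangeRestrict.toRingHom.liftOfRightInverse_comp_apply _
      (Function.rightInverse_surjInv hsurj) ⟨ev, hfac⟩ x
  refine ⟨S, inferInstance, inferInstance, hfin, hfree, ?_, ?_, ρ, ?_, ?_⟩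
  · let g : LL k ⊗[k⟦X⟧] S →ₐ[k⟦X⟧] LL k ⊗[k⟦X⟧] (Fin (h + 1) → 𝒢) :=
      Algebra.TensorProduct.map (AlgHom.id k⟦X⟧ (LL k)) S.val
    have hg : Function.Injective g := by
      have := Module.Flat.lTensor_preserves_injective_linearMap (M := LL k)
        S.val.toLinearMap Subtype.val_injective
      exact this
    have hred := isReduced_pi (h + 1) h3
    exact isReduced_of_injective g hg
  · refine (Submodule.finrank_le (Subalgebra.toSubmodule S)).trans ?_
    rw [Module.finrank_pi_fintype]
    simp only [Finset.sum_const, Finset.card_univ, Fintype.card_fin, smul_eq_mul]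
    exact Nat.mul_le_mul_left _ h4
  · intro a
    obtain ⟨x, hx⟩ := hev a
    exact ⟨Φ.rangeRestrict x, by rw [hρ, hx]⟩
  · intro c
    have h7 : algebraMap k⟦X⟧ S c = Φ.rangeRestrict (algebraMap k⟦X⟧ _ c) :=
      (Φ.rangeRestrict.commutes c).symm
    rw [h7, hρ]
    change φ (MvPolynomial.map _ (MvPolynomial.C c)) = _
    rw [MvPolynomial.map_C]
    exact φ.commutes _

end Pool.Agent.Q180.SC
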