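import Pool.Agent.Q180.SC.Scale
import Pool.Agent.H826R3.SM.WDefs
import Mathlib.Combinatorics.Nullstellensatz

/-!
# Powers and points over the field of Laurent series
-/

set_option autoImplicit false

namespace Pool.Agent.Q180.SC

open scoped TensorProduct PowerSeries
open Pool.Agent.H826R3.SM

variable {k : Type} [Field k]

/-- The coordinates of the power `Γ^N` of an affine scheme `Γ` with coordinates `φ (X i)`. -/
noncomputable def phiPow {σ A : Type} [CommRing A] [Algebra k A] (φ : MvPolynomial σ k →ₐ[k] A)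
    (N : ℕ) : MvPolynomial (Fin N × σ) k →ₐ[k] Pow k A N :=
  MvPolynomial.aeval fun q => sg k A q.1 (φ (MvPolynomial.X q.2))

theorem phiPow_rename {σ A : Type} [CommRing A] [Algebra k A] (φ : MvPolynomial σ k →ₐ[k] A)
    (N : ℕ) (l : Fin N) (F : MvPolynomial σ k) :
    phiPow φ N (MvPolynomial.rename (Prod.mk l) F) = sg k A l (φ F) := by
  have h : (phiPow φ N).comp (MvPolynomial.rename (Prod.mk l)) = (sg k A l).comp φ := by
    refine MvPolynomial.algHom_ext fun i => ?_
    rw [AlgHom.comp_apply, MvPolynomial.rename_X]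
    exact MvPolynomial.aeval_X _ _
  exact AlgHom.congr_fun h F

theorem monomial_eq_prod {σ : Type} {N : ℕ} (s : Fin N × σ →₀ ℕ) :
    (MvPolynomial.monomial s (1 : k)) =
      ∏ l, MvPolynomial.rename (Prod.mk l) (MvPolynomial.monomial (part s l) (1 : k)) := by
  rw [prod_rename_monomial, sum_mapDomain_part]

theorem phiPow_monomial {σ A : Type} [CommRing A] [Algebra k A] (φ : MvPolynomial σ k →ₐ[k] A)
    (N : ℕ) (s : Fin N × σ →₀ ℕ) : phiPow φ N (MvPolynomial.monomial s 1) =
      PiTensorProduct.tprod k fun l => φ (MvPolynomial.monomial (part s l) 1) := by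
  rw [monomial_eq_prod, map_prod, tprod_eq_prod_single]
  exact Finset.prod_congr rfl fun l _ => phiPow_rename φ N l _

theorem algebraMap_LL (c : k) :
    algebraMap k (LL k) c = algebraMap k⟦X⟧ (LL k) (PowerSeries.C c) := by
  rw [IsScalarTower.algebraMap_apply k (LaurentSeries k) (LL k),
    IsScalarTower.algebraMap_apply k⟦X⟧ (LaurentSeries k) (LL k)]
  congr 1

/-- **Separation.** -/
theorem sep {B τ : Type} [CommRing B] [Algebra k B] (ψ : MvPolynomial τ k →ₐ[k] B) {D : ℕ}
    (hB : Fam k B D) (M : ℕ) (F : MvPolynomial (Fin M × τ) k)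
    (hF : ∀ (q : Fin D × τ → LL k) (f : Fin M → Fin D),
      MvPolynomial.aeval (fun x : Fin M × τ => q (f x.1, x.2)) F = 0) : phiPow ψ M F = 0 := by
  classical
  obtain ⟨𝒜, c1, c2, h1, h2, h3, h4, π, h5, h6⟩ := hB
  let b := Module.finBasis k⟦X⟧ 𝒜
  set r := Module.finrank k⟦X⟧ 𝒜 with hr
  -- the characters
  have hli := linearIndependent_toLinearMap k⟦X⟧ 𝒜 (LL k)
  let v : (𝒜 →ₐ[k⟦X⟧] LL k) → (Fin r → LL k) := fun χ i => χ (b i)
  have hv : LinearIndependent (LL k) v := by
    have h7 := hli.map' (b.constr (LL k)).symm.toLinearMap (LinearEquiv.ker _)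
    exact h7
  have hfinX : Finite (𝒜 →ₐ[k⟦X⟧] LL k) := hv.finite
  have := Fintype.ofFinite (𝒜 →ₐ[k⟦X⟧] LL k)
  have hcard : Fintype.card (𝒜 →ₐ[k⟦X⟧] LL k) ≤ D := by
    have h7 := hv.fintype_card_le_finrank
    rw [Module.finrank_fin_fun] at h7
    exact h7.trans h4
  obtain ⟨e⟩ : Nonempty ((𝒜 →ₐ[k⟦X⟧] LL k) ↪ Fin D) := by
    rw [Function.Embedding.nonempty_iff_card_le, Fintype.card_fin]
    exact hcard
  have hspan : Submodule.span (LL k) (Set.range v) = ⊤ := by
    rw [red_iff_sep b] at h3
    by_contra hne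
    obtain ⟨w, hw⟩ : ∃ w, w ∉ Submodule.span (LL k) (Set.range v) := by
      by_contra hcon
      push Not at hcon
      exact hne (eq_top_iff.2 fun w _ => hcon w)
    obtain ⟨l, hl1, hl2⟩ := Submodule.exists_le_ker_of_notMem hw
    have hl3 : ∀ u : Fin r → LL k, l u = ∑ i, l (Pi.single i 1) * u i := by
      intro u
      conv_lhs => rw [LinearMap.pi_apply_eq_sum_univ l u]
      refine Finset.sum_congr rfl fun i _ => ?_
      rw [smul_eq_mul, mul_comm]
      congr 2
      funext j
      simp [Pi.single_apply, eq_comm]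
    have h7 := h3 (fun i => l (Pi.single i 1)) fun χ => by
      rw [← hl3 (v χ)]
      exact hl2 (Submodule.subset_span ⟨χ, rfl⟩)
    apply hl1
    rw [hl3]
    refine Finset.sum_eq_zero fun i _ => ?_
    rw [congrFun h7 i, Pi.zero_apply, zero_mul]
  -- functionals
  have hfun : ∀ l : B →ₗ[k] k, ∃ (Λ : 𝒜 →ₗ[k⟦X⟧] k⟦X⟧) (a : (𝒜 →ₐ[k⟦X⟧] LL k) → LL k),
      (∀ y, PowerSeries.constantCoeff (Λ y) = l (π y)) ∧
        ∀ y, algebraMap k⟦X⟧ (LL k) (Λ y) = ∑ χ, a χ * χ y := by
    intro l
    let Λ : 𝒜 →ₗ[k⟦X⟧] k⟦X⟧ := b.constr k⟦X⟧ fun i => PowerSeries.C (l (π (b i)))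
    have hΛ : ∀ y, PowerSeries.constantCoeff (Λ y) = l (π y) := by
      intro y
      conv_rhs => rw [← b.sum_repr y]
      conv_lhs => rw [← b.sum_repr y]
      rw [map_sum, map_sum, map_sum, map_sum]
      refine Finset.sum_congr rfl fun i _ => ?_
      rw [map_smul, Module.Basis.constr_basis, smul_eq_mul, map_mul, PowerSeries.constantCoeff_C,
        Algebra.smul_def, map_mul, h6, ← Algebra.smul_def, map_smul, smul_eq_mul]
    have h7 : (fun i => algebraMap k⟦X⟧ (LL k) (Λ (b i))) ∈
        Submodule.span (LL k) (Set.range v) := by rw [hspan]; trivial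
    rw [Submodule.mem_span_range_iff_exists_fun] at h7
    obtain ⟨a, ha⟩ := h7
    refine ⟨Λ, a, hΛ, fun y => ?_⟩
    conv_lhs => rw [← b.sum_repr y]
    rw [map_sum, map_sum]
    have h8 : ∀ χ : 𝒜 →ₐ[k⟦X⟧] LL k, χ y =
        ∑ i, algebraMap k⟦X⟧ (LL k) (b.repr y i) * χ (b i) := by
      intro χ
      conv_lhs => rw [← b.sum_repr y]
      rw [map_sum]
      refine Finset.sum_congr rfl fun i _ => ?_
      rw [map_smul, Algebra.smul_def]
    simp only [h8, Finset.mul_sum]
    rw [Finset.sum_comm]
    refine Finset.sum_congr rfl fun i _ => ?_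
    rw [map_smul, smul_eq_mul, map_mul, ← congrFun ha i, Finset.sum_apply, Finset.mul_sum]
    refine Finset.sum_congr rfl fun χ _ => ?_
    rw [Pi.smul_apply, smul_eq_mul]
    ring
  -- the functionals on the power separate
  let β := Module.Basis.ofVectorSpace k B
  let Bas := Basis.piTensorProduct fun _ : Fin M => β
  apply Bas.repr.injective
  rw [map_zero]
  ext j
  rw [Finsupp.zero_apply]
  choose Λ a hΛ1 hΛ2 using hfun
  choose g hg using fun i => h5 (ψ (MvPolynomial.X i))
  let l : Fin M → (B →ₗ[k] k) := fun t => β.coord (j t)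
  -- the coordinate of a product
  let Ξ : MvPolynomial (Fin M × τ) k →ₗ[k] k⟦X⟧ :=
    (MvPolynomial.basisMonomials (Fin M × τ) k).constr k fun s =>
      ∏ t, Λ (l t) ((part s t).prod fun i n => g i ^ n)
  have hΞ : ∀ s : Fin M × τ →₀ ℕ, Ξ (MvPolynomial.monomial s 1) =
      ∏ t, Λ (l t) ((part s t).prod fun i n => g i ^ n) := by
    intro s
    have h7 : (MvPolynomial.monomial s (1 : k)) =
        MvPolynomial.basisMonomials (Fin M × τ) k s := by
      rw [MvPolynomial.coe_basisMonomials]
    rw [h7]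
    exact Module.Basis.constr_basis _ _ _ _
  have hcoord : ∀ G : MvPolynomial (Fin M × τ) k,
      PowerSeries.constantCoeff (Ξ G) = Bas.repr (phiPow ψ M G) j := by
    intro G
    induction G using MvPolynomial.induction_on' with
    | monomial s c =>
      have h7 : MvPolynomial.monomial s c = c • MvPolynomial.monomial s (1 : k) := by
        rw [MvPolynomial.smul_monomial, smul_eq_mul, mul_one]
      have h8 : ∀ (c : k) (y : k⟦X⟧), PowerSeries.constantCoeff (c • y) =
          c * PowerSeries.constantCoeff y := fun c y => by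
        rw [PowerSeries.smul_eq_C_mul, map_mul, PowerSeries.constantCoeff_C]
      rw [h7, map_smul, h8, hΞ, map_smul, map_smul, Finsupp.smul_apply, smul_eq_mul,
        phiPow_monomial, map_prod]
      congr 1
      change _ = (Basis.piTensorProduct fun _ : Fin M => β).repr _ j
      rw [Basis.piTensorProduct_repr_tprod_apply]
      refine Finset.prod_congr rfl fun t _ => ?_
      rw [hΛ1, map_finsuppProd]
      change β.coord (j t) _ = β.repr _ (j t)
      rw [Module.Basis.coord_apply]
      congr 2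
      rw [MvPolynomial.monomial_eq, map_mul, map_finsuppProd]
      simp only [map_pow, hg, map_one, one_mul]
    | add p q hp hq => rw [map_add, map_add, hp, hq, map_add, map_add, Finsupp.add_apply]
  rw [← hcoord]
  -- the sum over the points
  have hsum : ∀ G : MvPolynomial (Fin M × τ) k, algebraMap k⟦X⟧ (LL k) (Ξ G) =
      ∑ f : Fin M → (𝒜 →ₐ[k⟦X⟧] LL k), (∏ t, a (l t) (f t)) *
        MvPolynomial.aeval (fun x : Fin M × τ => f x.1 (g x.2)) G := by
    intro G
    induction G using MvPolynomial.induction_on' with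
    | monomial s c =>
      have h7 : MvPolynomial.monomial s c = c • MvPolynomial.monomial s (1 : k) := by
        rw [MvPolynomial.smul_monomial, smul_eq_mul, mul_one]
      have h8 : ∀ f : Fin M → (𝒜 →ₐ[k⟦X⟧] LL k),
          MvPolynomial.aeval (fun x : Fin M × τ => f x.1 (g x.2)) (MvPolynomial.monomial s (1 : k)) =
            ∏ t, f t ((part s t).prod fun i n => g i ^ n) := by
        intro f
        rw [monomial_eq_prod, map_prod]
        refine Finset.prod_congr rfl fun t _ => ?_
        rw [MvPolynomial.aeval_rename, MvPolynomial.aeval_monomial, map_one, one_mul,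
          map_finsuppProd]
        simp only [map_pow]
        rfl
      rw [h7, map_smul, hΞ]
      simp only [map_smul, h8]
      rw [PowerSeries.smul_eq_C_mul, map_mul, map_prod]
      simp only [hΛ2]
      rw [Finset.prod_univ_sum, Fintype.piFinset_univ, Finset.mul_sum]
      refine Finset.sum_congr rfl fun f _ => ?_
      rw [Finset.prod_mul_distrib, Algebra.smul_def]
      rw [algebraMap_LL c]
      ring
    | add p q hp hq =>
      rw [map_add, map_add, hp, hq, ← Finset.sum_add_distrib]
      refine Finset.sum_congr rfl fun f _ => ?_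
      rw [map_add, mul_add]
  have hzero : algebraMap k⟦X⟧ (LL k) (Ξ F) = 0 := by
    rw [hsum]
    refine Finset.sum_eq_zero fun f _ => ?_
    have h7 := hF (fun x => if h : ∃ χ, e χ = x.1 then h.choose (g x.2) else 0)
      fun t => e (f t)
    have h8 : (fun x : Fin M × τ => if h : ∃ χ, e χ = e (f x.1) then h.choose (g x.2) else 0) =
        fun x : Fin M × τ => f x.1 (g x.2) := by
      funext x
      have h9 : ∃ χ, e χ = e (f x.1) := ⟨f x.1, rfl⟩
      rw [dif_pos h9, e.injective h9.choose_spec]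
    have h10 : MvPolynomial.aeval (fun x : Fin M × τ => f x.1 (g x.2)) F = 0 := by
      rw [← h8]
      exact h7
    rw [h10, mul_zero]
  have hinj : Function.Injective (algebraMap k⟦X⟧ (LL k)) := by
    have : FaithfulSMul k⟦X⟧ (LL k) := inferInstance
    exact FaithfulSMul.algebraMap_injective _ _
  rw [map_eq_zero_iff _ hinj] at hzero
  rw [hzero, map_zero]

/-- **Separation by points with coordinates in a finite set.** -/
theorem sep_grid {B τ : Type} [CommRing B] [Algebra k B] [Finite τ]
    (ψ : MvPolynomial τ k →ₐ[k] B) {D : ℕ} (hB : Fam k B D) (M h : ℕ) (Θ : Finset k)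
    (hΘ : h < Θ.card) (F : MvPolynomial (Fin M × τ) k) (hdeg : F.totalDegree ≤ h)
    (hF : ∀ (q : Fin D × τ → k) (f : Fin M → Fin D), (∀ x, q x ∈ Θ) →
      MvPolynomial.eval (fun x : Fin M × τ => q (f x.1, x.2)) F = 0) : phiPow ψ M F = 0 := by
  refine sep ψ hB M F fun q f => ?_
  have h1 : MvPolynomial.rename (fun x : Fin M × τ => (f x.1, x.2)) F = 0 := by
    refine MvPolynomial.eq_zero_of_eval_zero_at_prod_finset _ (fun _ => Θ) (fun i => ?_)
      fun x hx => ?_
    · refine lt_of_le_of_lt ?_ hΘ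
      exact (MvPolynomial.degreeOf_le_totalDegree _ _).trans
        ((MvPolynomial.totalDegree_rename_le _ _).trans hdeg)
    · rw [MvPolynomial.eval_rename]
      exact hF x f hx
  have h2 : MvPolynomial.aeval (fun x : Fin M × τ => q (f x.1, x.2)) F =
      MvPolynomial.aeval q (MvPolynomial.rename (fun x : Fin M × τ => (f x.1, x.2)) F) := by
    rw [MvPolynomial.aeval_rename]
    rfl
  rw [h2, h1, map_zero]

end Pool.Agent.Q180.SC
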