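import Pool.Agent.Q180.SC.Limit
import Pool.Agent.TH671.DU.Poly

/-!
# Structure constants with respect to a basis with a distinguished element, with parameters
-/

set_option autoImplicit false

namespace Pool.Agent.Q180.SC.Str

open scoped TensorProduct PowerSeries Topology
open Pool.Agent.H826R3.SM Pool.Agent.TH671.DU Filter

variable {k : Type} [Field k]

/-- The element number `o` of the basis `v` of `A` is `1`, and `c` are the structure constants of
`A` with respect to `v`. -/
def IsStr {ι : Type} [Fintype ι] (o : ι) (c : ι × ι × ι → k) (A : Type) [CommRing A]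
    [Algebra k A] (v : Module.Basis ι k A) : Prop :=
  v o = 1 ∧ ∀ i j, v i * v j = ∑ l, c (i, j, l) • v l

section poly

variable {ι : Type} [Fintype ι] [DecidableEq ι]

/-- the coordinates of the product of the elements `v i - a i`, `i ∈ L`, as polynomials in the
structure constants -/
noncomputable def cpoly (o : ι) (a : ι → k) : List ι → ι → MvPolynomial (ι × ι × ι) k
  | [], l => if l = o then 1 else 0
  | i :: L, l => ∑ j, cpoly o a L j * MvPolynomial.X (i, j, l) - MvPolynomial.C (a i) * cpoly o a L l

theorem eval_cpoly {o : ι} (a : ι → k) {c : ι × ι × ι → k}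
    {A : Type} [CommRing A] [Algebra k A] {v : Module.Basis ι k A}
    (h : IsStr o c A v) (L : List ι) :
    (L.map fun i => v i - algebraMap k A (a i)).prod =
      ∑ l, MvPolynomial.eval c (cpoly o a L l) • v l := by
  induction L with
  | nil =>
    rw [List.map_nil, List.prod_nil, Finset.sum_eq_single o]
    · rw [cpoly, if_pos rfl, map_one, one_smul, h.1]
    · intro l _ hl
      rw [cpoly, if_neg hl, map_zero, zero_smul]
    · intro hc
      exact absurd (Finset.mem_univ _) hc
  | cons i L ih =>
    rw [List.map_cons, List.prod_cons, ih, sub_mul, Finset.mul_sum]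
    have h1 : ∀ l, MvPolynomial.eval c (cpoly o a (i :: L) l) =
        ∑ j, MvPolynomial.eval c (cpoly o a L j) * c (i, j, l) -
          a i * MvPolynomial.eval c (cpoly o a L l) := by
      intro l
      rw [cpoly, map_sub, map_sum, map_mul, MvPolynomial.eval_C]
      simp only [map_mul, MvPolynomial.eval_X]
    simp only [h1, sub_smul, Finset.sum_sub_distrib, Finset.sum_smul]
    congr 1
    · rw [Finset.sum_comm]
      refine Finset.sum_congr rfl fun j _ => ?_
      rw [mul_smul_comm, h.2, Finset.smul_sum]
      refine Finset.sum_congr rfl fun l _ => ?_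
      rw [smul_smul]
    · rw [Finset.mul_sum]
      refine Finset.sum_congr rfl fun l _ => ?_
      rw [← Algebra.smul_def, smul_smul]

omit [Fintype ι] [DecidableEq ι] in
/-- the coordinates of `A` -/
noncomputable def crd (a : ι → k) {A : Type} [CommRing A] [Algebra k A]
    (v : Module.Basis ι k A) : MvPolynomial ι k →ₐ[k] A :=
  MvPolynomial.aeval fun i => v i - algebraMap k A (a i)

/-- the coordinate polynomials of a monomial -/
noncomputable def mpoly (o : ι) (a : ι → k) (s : ι →₀ ℕ) (l : ι) :
    MvPolynomial (ι × ι × ι) k :=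
  cpoly o a (Finsupp.toMultiset s).toList l

theorem crd_monomial {o : ι} (a : ι → k) {c : ι × ι × ι → k}
    {A : Type} [CommRing A] [Algebra k A] {v : Module.Basis ι k A}
    (h : IsStr o c A v) (s : ι →₀ ℕ) (l : ι) :
    v.repr (crd a v (MvPolynomial.monomial s 1)) l = MvPolynomial.eval c (mpoly o a s l) := by
  have h1 : crd a v (MvPolynomial.monomial s 1) =
      ((Finsupp.toMultiset s).toList.map fun i => v i - algebraMap k A (a i)).prod := by
    unfold crd
    rw [MvPolynomial.aeval_monomial, map_one, one_mul, ← Multiset.prod_coe, ← Multiset.map_coe,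
      Multiset.coe_toList, Finsupp.toMultiset_map, Finsupp.prod_toMultiset,
      Finsupp.prod_mapDomain_index]
    · intro b
      rw [pow_zero]
    · intro b m₁ m₂
      rw [pow_add]
  rw [h1, eval_cpoly a h, map_sum, Finset.sum_apply']
  rw [Finset.sum_eq_single l]
  · rw [map_smul, Finsupp.smul_apply, Module.Basis.repr_self, Finsupp.single_eq_same, smul_eq_mul,
      mul_one]
    rfl
  · intro j _ hj
    rw [map_smul, Finsupp.smul_apply, Module.Basis.repr_self, Finsupp.single_eq_of_ne hj.symm,
      smul_zero]
  · intro hc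
    exact absurd (Finset.mem_univ _) hc

/-- the coordinates of a polynomial with parameters on the `N`-th power -/
theorem exists_pow_poly {θ : Type} (o : ι) (a : ι → k) (N : ℕ)
    (H : MvPolynomial (Fin N × ι) (MvPolynomial θ k)) (j : Fin N → ι) :
    ∃ Q : MvPolynomial ((ι × ι × ι) ⊕ θ) k,
      ∀ (c : ι × ι × ι → k) (ρ : θ → k) (A : Type) [CommRing A] [Algebra k A]
        (v : Module.Basis ι k A), IsStr o c A v →
          (Basis.piTensorProduct fun _ : Fin N => v).repr
            (phiPow (crd a v) N (MvPolynomial.map (MvPolynomial.eval ρ) H)) j =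
            MvPolynomial.eval (Sum.elim c ρ) Q := by
  induction H using MvPolynomial.induction_on' with
  | monomial s b =>
    refine ⟨MvPolynomial.rename Sum.inr b *
      MvPolynomial.rename Sum.inl (∏ l, mpoly o a (part s l) (j l)), fun c ρ A _ _ v h => ?_⟩
    have h7 : MvPolynomial.map (MvPolynomial.eval ρ) (MvPolynomial.monomial s b) =
        MvPolynomial.eval ρ b • MvPolynomial.monomial s (1 : k) := by
      rw [MvPolynomial.map_monomial, MvPolynomial.smul_monomial, smul_eq_mul, mul_one]
    rw [h7, map_smul, map_smul, Finsupp.smul_apply, smul_eq_mul, map_mul,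
      MvPolynomial.eval_rename, MvPolynomial.eval_rename, Sum.elim_comp_inr, Sum.elim_comp_inl,
      map_prod, phiPow_monomial, Basis.piTensorProduct_repr_tprod_apply]
    congr 1
    exact Finset.prod_congr rfl fun l _ => crd_monomial a h _ _
  | add p q hp hq =>
    obtain ⟨P, hP⟩ := hp
    obtain ⟨Q, hQ⟩ := hq
    refine ⟨P + Q, fun c ρ A _ _ v h => ?_⟩
    rw [map_add, map_add, map_add, Finsupp.add_apply, hP c ρ A v h, hQ c ρ A v h, map_add]

/-- vanishing on the powers passes to the Zariski closure -/
theorem phiPow_eq_zero_of_closure {θ : Type} (o : ι) (a : ι → k) (N : ℕ)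
    (H : MvPolynomial (Fin N × ι) (MvPolynomial θ k))
    {S : Set ((ι × ι × ι) ⊕ θ → k)}
    (hS : ∀ s ∈ S, ∃ (A : Type) (_ : CommRing A) (_ : Algebra k A)
      (v : Module.Basis ι k A), IsStr o (s ∘ Sum.inl) A v ∧
        phiPow (crd a v) N (MvPolynomial.map (MvPolynomial.eval (s ∘ Sum.inr)) H) = 0)
    {c : (ι × ι × ι) ⊕ θ → k} (hc : InClosure S c)
    {A : Type} [CommRing A] [Algebra k A] {v : Module.Basis ι k A}
    (h : IsStr o (c ∘ Sum.inl) A v) :
    phiPow (crd a v) N (MvPolynomial.map (MvPolynomial.eval (c ∘ Sum.inr)) H) = 0 := by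
  apply (Basis.piTensorProduct fun _ : Fin N => v).repr.injective
  rw [map_zero]
  ext j
  obtain ⟨Q, hQ⟩ := exists_pow_poly (θ := θ) o a N H j
  have he : ∀ s : (ι × ι × ι) ⊕ θ → k, Sum.elim (s ∘ Sum.inl) (s ∘ Sum.inr) = s := fun s => by
    funext x
    cases x <;> rfl
  rw [hQ _ _ A v h, Finsupp.zero_apply, he]
  refine hc Q fun s hs => ?_
  obtain ⟨B, _, _, w, h1, h2⟩ := hS s hs
  rw [← he s, ← hQ _ _ B w h1, h2, map_zero, Finsupp.zero_apply]

end poly

section crd

variable {ι : Type} [Fintype ι]

theorem crd_X (a : ι → k) {A : Type} [CommRing A] [Algebra k A] (v : Module.Basis ι k A) (i : ι) :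
    crd a v (MvPolynomial.X i) = v i - algebraMap k A (a i) := MvPolynomial.aeval_X _ _

theorem crd_surjective (a : ι → k) {A : Type} [CommRing A] [Algebra k A]
    (v : Module.Basis ι k A) : Function.Surjective (crd a v) := by
  intro y
  refine ⟨∑ i, MvPolynomial.C (v.repr y i) *
    (MvPolynomial.X i + MvPolynomial.C (a i)), ?_⟩
  conv_rhs => rw [← v.sum_repr y]
  rw [map_sum]
  refine Finset.sum_congr rfl fun i _ => ?_
  rw [map_mul, map_add]
  have h2 : ∀ c : k, crd a v (MvPolynomial.C c) = algebraMap k A c := fun c =>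
    (crd a v).commutes c
  rw [crd_X, h2, h2, sub_add_cancel, Algebra.smul_def]

end crd

end Pool.Agent.Q180.SC.Str
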