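import Pool.Agent.TH671.DU.Rate

/-!
# The least degree of a smoothable scheme is monotone under subalgebras

If `Spec B` is contained in a smoothable scheme of degree `D` and `A` is a subalgebra of `B`, then
`Spec A` is contained in a smoothable scheme of degree at most `D`.
-/

set_option autoImplicit false

namespace Pool.Agent.Q180.SC

open scoped TensorProduct PowerSeries
open Pool.Agent.H826R3.SM

variable {k : Type} [Field k]

instance flat_LL : Module.Flat k⟦X⟧ (LL k) :=
  Module.Flat.trans k⟦X⟧ (LaurentSeries k) (LL k)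

/-- **Subalgebras.** -/
theorem fam_of_injective {A B : Type} [CommRing A] [Algebra k A] [CommRing B] [Algebra k B]
    {D : ℕ} (h : Fam k B D) (f : A →ₐ[k] B) (hf : Function.Injective f) : Fam k A D := by
  obtain ⟨ℬ, c1, c2, h1, h2, h3, h4, π, h5, h6⟩ := h
  let S : Subalgebra k⟦X⟧ ℬ :=
    { carrier := {b | π b ∈ f.range}
      mul_mem' := fun {a b} ha hb => by
        change π (a * b) ∈ f.range
        rw [map_mul]
        exact mul_mem ha hb
      add_mem' := fun {a b} ha hb => by
        change π (a + b) ∈ f.range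
        rw [map_add]
        exact add_mem ha hb
      algebraMap_mem' := fun c => by
        change π (algebraMap k⟦X⟧ ℬ c) ∈ f.range
        rw [h6]
        exact f.range.algebraMap_mem _ }
  have hS : ∀ b : ℬ, b ∈ S ↔ π b ∈ f.range := fun b => Iff.rfl
  have hfin : Module.Finite k⟦X⟧ S :=
    inferInstanceAs (Module.Finite k⟦X⟧ (Subalgebra.toSubmodule S))
  have hfree : Module.Free k⟦X⟧ S :=
    inferInstanceAs (Module.Free k⟦X⟧ (Subalgebra.toSubmodule S))
  let e : A ≃ₐ[k] f.range := AlgEquiv.ofInjective f hf
  let ρ : S →+* A := e.symm.toRingEquiv.toRingHom.comp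
    ((π.comp S.subtype).codRestrict f.range.toSubsemiring fun x => x.2)
  have hρ : ∀ x : S, f (ρ x) = π x := by
    intro x
    have h7 : (e (e.symm ⟨π x, x.2⟩) : B) = π x := by rw [e.apply_symm_apply]
    exact h7
  refine ⟨S, inferInstance, inferInstance, hfin, hfree, ?_, ?_, ρ, ?_, ?_⟩
  · let g : LL k ⊗[k⟦X⟧] S →ₐ[k⟦X⟧] LL k ⊗[k⟦X⟧] ℬ :=
      Algebra.TensorProduct.map (AlgHom.id k⟦X⟧ (LL k)) S.val
    have hg : Function.Injective g := by
      have := Module.Flat.lTensor_preserves_injective_linearMap (M := LL k)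
        S.val.toLinearMap Subtype.val_injective
      exact this
    exact isReduced_of_injective g hg
  · exact (Submodule.finrank_le (Subalgebra.toSubmodule S)).trans h4
  · intro a
    obtain ⟨b, hb⟩ := h5 (f a)
    refine ⟨⟨b, (hS b).2 ⟨a, hb.symm⟩⟩, hf ?_⟩
    rw [hρ]
    exact hb
  · intro c
    apply hf
    rw [hρ, f.commutes]
    exact h6 c

section pow

variable {A B : Type} [CommRing A] [Algebra k A] [CommRing B] [Algebra k B]

/-- the map of powers -/
noncomputable def powMap (f : A →ₐ[k] B) (n : ℕ) : Pow k A n →ₐ[k] Pow k B n :=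
  powLift fun i => (sg k B i).comp f

theorem powMap_tprod (f : A →ₐ[k] B) {n : ℕ} (x : Fin n → A) :
    powMap f n (PiTensorProduct.tprod k x) = PiTensorProduct.tprod k fun i => f (x i) := by
  rw [tprod_eq_prod_single, map_prod, tprod_eq_prod_single]
  refine Finset.prod_congr rfl fun i _ => ?_
  exact powLift_single _ i (x i)

theorem powMap_eq_map (f : A →ₐ[k] B) (n : ℕ) :
    (powMap f n).toLinearMap = PiTensorProduct.map fun _ : Fin n => f.toLinearMap := by
  refine PiTensorProduct.ext (MultilinearMap.ext fun x => ?_)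
  change powMap f n (PiTensorProduct.tprod k x) = PiTensorProduct.map _ (PiTensorProduct.tprod k x)
  rw [powMap_tprod, PiTensorProduct.map_tprod]
  rfl

theorem map_injective {V W : Type} [AddCommGroup V] [Module k V] [AddCommGroup W] [Module k W]
    (g : V →ₗ[k] W) (hg : Function.Injective g) (n : ℕ) :
    Function.Injective (PiTensorProduct.map fun _ : Fin n => g) := by
  obtain ⟨p, hp⟩ := g.exists_leftInverse_of_injective (LinearMap.ker_eq_bot.2 hg)
  have h1 : (PiTensorProduct.map fun _ : Fin n => p) ∘ₗ (PiTensorProduct.map fun _ : Fin n => g) =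
      LinearMap.id := by
    rw [← PiTensorProduct.map_comp, hp]
    exact PiTensorProduct.map_id
  intro x y hxy
  have h2 := LinearMap.congr_fun h1 x
  have h3 := LinearMap.congr_fun h1 y
  rw [LinearMap.comp_apply] at h2 h3
  rw [hxy] at h2
  exact (h2.symm.trans h3)

theorem powMap_injective (f : A →ₐ[k] B) (hf : Function.Injective f) (n : ℕ) :
    Function.Injective (powMap f n) := by
  have h1 := map_injective (k := k) f.toLinearMap hf n
  rw [← powMap_eq_map] at h1
  exact h1

theorem powMap_surjective (f : A →ₐ[k] B) (hf : Function.Surjective f) (n : ℕ) :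
    Function.Surjective (powMap f n) :=
  powLift_surjective _ fun S hS => pow_eq_top S fun i b => by
    obtain ⟨a, rfl⟩ := hf b
    exact hS i a

theorem growth_of_injective {x : ℝ} (h : Growth k B x) (f : A →ₐ[k] B)
    (hf : Function.Injective f) : Growth k A x := by
  obtain ⟨C, hC, h⟩ := h
  refine ⟨C, hC, fun n => ?_⟩
  obtain ⟨D, h1, h2⟩ := h n
  exact ⟨D, h1, fam_of_injective h2 (powMap f n) (powMap_injective f hf n)⟩

end pow

end Pool.Agent.Q180.SC
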