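import Pool.Agent.Q180.SC.LimZ

/-!
# Universal covering sets
-/

set_option autoImplicit false

namespace Pool.Agent.Q180.SC

open scoped TensorProduct PowerSeries Topology
open Pool.Agent.H826R3.SM Pool.Agent.TH671.DU Filter

variable {k : Type} [Field k] [IsAlgClosed k]

/-- **Universal covering sets**: one set for all schemes of degree at most `d` with growth rate at
most `x`. -/
theorem exists_universal {σ : Type} [Fintype σ] (d e : ℕ) (x η : ℝ) (hη : 0 < η) :
    ∃ C : ℝ, 0 ≤ C ∧ ∀ (N : ℕ) (Θ : Finset k), e * N < Θ.card →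
      ∃ P : Finset (Fin N × σ → k), (∀ p ∈ P, ∀ q, p q ∈ Θ) ∧ (P.card : ℝ) ≤ C * (x + η) ^ N ∧
        ∀ (A : Type) [CommRing A] [Algebra k A] [Module.Finite k A] [Nontrivial A]
          (φ : MvPolynomial σ k →ₐ[k] A), Module.finrank k A ≤ d → rate k A ≤ x →
            Covers φ N (e * N) P := by
  rcases lt_or_ge x 1 with hx | hx
  · refine ⟨0, le_rfl, fun N Θ _ => ⟨∅, by simp, by simp, fun A _ _ _ _ φ _ hr => ?_⟩⟩
    have h1 : (1 : ℝ) ≤ Module.finrank k A := by
      exact_mod_cast (Module.finrank_pos (R := k) (M := A))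
    exact absurd ((h1.trans (finrank_le_rate A)).trans hr) (not_le.2 hx)
  obtain ⟨C₀, hC₀, hU⟩ := uniform_degree (k := k) d x (η / 3) (by linarith)
  obtain ⟨n, hn, hn2⟩ := exists_exp 0 C₀ 0 le_rfl (show (0 : ℝ) < x + η / 3 by linarith)
    (show x + η / 3 < x + η / 2 by linarith)
  rw [zero_mul, zero_add] at hn2
  set D := ⌊(x + η / 2) ^ n⌋₊ with hD
  have hDn : (D : ℝ) ≤ (x + η / 2) ^ n := Nat.floor_le (by positivity)
  obtain ⟨C₁, hC₁, hB⟩ := exists_bound (D * (n * Fintype.card σ)) e
    (show (0 : ℝ) < x + η / 2 by linarith) (show x + η / 2 < x + η by linarith)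
  refine ⟨(x + η / 2) ^ n * C₁, by positivity, fun N Θ hΘ => ?_⟩
  obtain ⟨Θ', hΘ', hcard⟩ := Finset.exists_subset_card_eq (show e * N + 1 ≤ Θ.card by omega)
  have hN : N ≤ (N / n + 1) * n := by
    have := Nat.div_add_mod N n
    have h2 := Nat.mod_lt N hn
    nlinarith
  set P := gridSet (σ := σ) D n N (N / n + 1) hN Θ' with hP
  have hP3 := card_gridSet (σ := σ) D n N (N / n + 1) hN Θ'
  refine ⟨P, fun p hp q => hΘ' (mem_gridSet hp q), ?_, fun A _ _ _ _ φ hA hr => ?_⟩
  · rw [hcard] at hP3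
    have h1 : (P.card : ℝ) ≤ ((e : ℝ) * N + 1) ^ (D * (n * Fintype.card σ)) *
        (D : ℝ) ^ (N / n + 1) := by exact_mod_cast hP3
    have h2 : (D : ℝ) ^ (N / n + 1) ≤ (x + η / 2) ^ n * (x + η / 2) ^ N := by
      calc (D : ℝ) ^ (N / n + 1) ≤ ((x + η / 2) ^ n) ^ (N / n + 1) :=
            pow_le_pow_left₀ (Nat.cast_nonneg _) hDn _
        _ = (x + η / 2) ^ n * (x + η / 2) ^ (n * (N / n)) := by
            rw [← pow_mul, ← pow_add]
            congr 1
            ring
        _ ≤ _ := mul_le_mul_of_nonneg_left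
            (pow_le_pow_right₀ (by linarith) (Nat.mul_div_le N n)) (by positivity)
    calc (P.card : ℝ) ≤ ((e : ℝ) * N + 1) ^ (D * (n * Fintype.card σ)) *
          (D : ℝ) ^ (N / n + 1) := h1
      _ ≤ ((e : ℝ) * N + 1) ^ (D * (n * Fintype.card σ)) *
          ((x + η / 2) ^ n * (x + η / 2) ^ N) :=
          mul_le_mul_of_nonneg_left h2 (by positivity)
      _ = (x + η / 2) ^ n * (((e : ℝ) * N + 1) ^ (D * (n * Fintype.card σ)) *
          (x + η / 2) ^ N) := by ring
      _ ≤ (x + η / 2) ^ n * (C₁ * (x + η) ^ N) :=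
          mul_le_mul_of_nonneg_left (hB N) (by positivity)
      _ = _ := by ring
  · have hfam : Fam k (Pow k A n) D := by
      have h1 := hU A hA hr n
      rw [finrank_add_eq A n] at h1
      have h2 : mdeg k (Pow k A n) ≤ D := Nat.le_floor (h1.trans hn2)
      have := finite_Pow (k := k) (R := A) n
      obtain ⟨D', hD'⟩ := exists_fam (k := k) (Pow k A n)
      exact (mdeg_spec hD').mono h2
    exact covers_gridSet φ hfam N (N / n + 1) (e * N) hN Θ' (by omega)

/-- the growth rate is at most `x` if there are covering sets of at most `C (x + η)^N` points -/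
theorem rate_le_of_covers {σ A : Type} [CommRing A] [Algebra k A]
    [Module.Finite k A] [Nontrivial A] (φ : MvPolynomial σ k →ₐ[k] A)
    (hφ : Function.Surjective φ) (e : ℕ)
    (hnil : ∀ s : σ →₀ ℕ, e < s.degree → φ (MvPolynomial.monomial s 1) = 0) (x : ℝ)
    (h : ∀ η : ℝ, 0 < η → ∃ C : ℝ, ∀ N : ℕ, ∃ P : Finset (Fin N × σ → k),
      Covers φ N (e * N) P ∧ (P.card : ℝ) ≤ C * (x + η) ^ N) : rate k A ≤ x := by
  have hinf : Infinite k := IsAlgClosed.instInfinite
  have hr1 : (1 : ℝ) ≤ rate k A := by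
    refine le_trans ?_ (finrank_le_rate A)
    exact_mod_cast (Module.finrank_pos (R := k) (M := A))
  -- the bound for positive bases
  have key : ∀ y : ℝ, 0 < y → (∀ η : ℝ, 0 < η → ∃ C : ℝ, ∀ N : ℕ,
      ∃ P : Finset (Fin N × σ → k), Covers φ N (e * N) P ∧ (P.card : ℝ) ≤ C * (y + η) ^ N) →
        rate k A ≤ y := by
    intro y hy h
    refine le_of_forall_pos_le_add fun η hη => ?_
    obtain ⟨C, hC⟩ := h (η / 2) (half_pos hη)
    obtain ⟨C₁, hC₁, hB⟩ := exists_bound 1 e (show (0 : ℝ) < y + η / 2 by linarith)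
      (show y + η / 2 < y + η by linarith)
    refine le_of_pow_le (C := max C 0 * C₁) (by linarith) fun N => ?_
    obtain ⟨P, hP1, hP2⟩ := hC N
    have h1 := mdeg_le (fam_of_covers φ hφ e hnil N P hP1)
    have h2 : (mdeg k (Pow k A N) : ℝ) ≤ ((e : ℝ) * N + 1) * P.card := by exact_mod_cast h1
    have h3 := hB N
    rw [pow_one] at h3
    calc rate k A ^ N ≤ mdeg k (Pow k A N) := rate_pow_le A N
      _ ≤ ((e : ℝ) * N + 1) * P.card := h2
      _ ≤ ((e : ℝ) * N + 1) * (max C 0 * (y + η / 2) ^ N) := by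
          refine mul_le_mul_of_nonneg_left (hP2.trans ?_) (by positivity)
          exact mul_le_mul_of_nonneg_right (le_max_left _ _) (by positivity)
      _ = max C 0 * (((e : ℝ) * N + 1) * (y + η / 2) ^ N) := by ring
      _ ≤ max C 0 * (C₁ * (y + η) ^ N) := mul_le_mul_of_nonneg_left h3 (le_max_right _ _)
      _ = _ := by ring
  rcases lt_or_ge 0 x with hx | hx
  · exact key x hx h
  · -- this case does not occur
    exfalso
    have h1 : rate k A ≤ 1 / 2 := by
      refine key (1 / 2) (by norm_num) fun η hη => ?_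
      obtain ⟨C, hC⟩ := h (1 / 2 + η - x) (by linarith)
      refine ⟨C, fun N => ?_⟩
      obtain ⟨P, hP1, hP2⟩ := hC N
      refine ⟨P, hP1, hP2.trans (le_of_eq ?_)⟩
      congr 2
      ring
    linarith

section bound

omit [IsAlgClosed k] in
theorem finrank_le_of_ker_le {W V₁ V₂ : Type} [AddCommGroup W] [Module k W] [AddCommGroup V₁]
    [Module k V₁] [Module.Finite k V₁] [AddCommGroup V₂] [Module k V₂] (f : W →ₗ[k] V₁)
    (g : W →ₗ[k] V₂) (h : LinearMap.ker f ≤ LinearMap.ker g) (hg : Function.Surjective g) :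
    Module.finrank k V₂ ≤ Module.finrank k V₁ := by
  obtain ⟨s, hs⟩ := f.rangeRestrict.exists_rightInverse_of_surjective f.range_rangeRestrict
  have hs' : ∀ y, f.rangeRestrict (s y) = y := fun y => LinearMap.congr_fun hs y
  have h1 : ∀ w, g (s (f.rangeRestrict w)) = g w := by
    intro w
    rw [← sub_eq_zero, ← map_sub]
    apply h
    rw [LinearMap.mem_ker, map_sub, sub_eq_zero]
    exact congrArg Subtype.val (hs' (f.rangeRestrict w))
  have h2 : Function.Surjective (g ∘ₗ s) := by
    intro v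
    obtain ⟨w, rfl⟩ := hg v
    exact ⟨f.rangeRestrict w, h1 w⟩
  exact (LinearMap.finrank_le_finrank_of_surjective h2).trans (Submodule.finrank_le _)

/-- a covering set has at least as many points as the degree of the power -/
theorem pow_le_card {σ A : Type} [CommRing A] [Algebra k A] [Module.Finite k A]
    (φ : MvPolynomial σ k →ₐ[k] A)
    (hφ : Function.Surjective φ) (e : ℕ)
    (hnil : ∀ s : σ →₀ ℕ, e < s.degree → φ (MvPolynomial.monomial s 1) = 0) (N : ℕ)
    (P : Finset (Fin N × σ → k)) (hP : Covers φ N (e * N) P) :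
    Module.finrank k A ^ N ≤ P.card := by
  classical
  let W := MvPolynomial.restrictTotalDegree (Fin N × σ) k (e * N)
  let f : W →ₗ[k] (P → k) := LinearMap.pi fun p =>
    (MvPolynomial.aeval (p : Fin N × σ → k) : MvPolynomial (Fin N × σ) k →ₐ[k] k).toLinearMap ∘ₗ
      W.subtype
  let g : W →ₗ[k] Pow k A N := (phiPow φ N).toLinearMap ∘ₗ W.subtype
  have hker : LinearMap.ker f ≤ LinearMap.ker g := by
    intro w hw
    refine hP w ((MvPolynomial.mem_restrictTotalDegree _ _ _).1 w.2) fun p hp => ?_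
    exact congrFun (LinearMap.mem_ker.1 hw) ⟨p, hp⟩
  have hg : Function.Surjective g := by
    intro y
    obtain ⟨F, rfl⟩ := phiPow_surjective φ hφ N y
    let F₁ : MvPolynomial (Fin N × σ) k :=
      ∑ s ∈ F.support.filter fun s => s.degree ≤ e * N, MvPolynomial.monomial s (F.coeff s)
    have h1 : F₁ ∈ W := by
      refine Submodule.sum_mem _ fun s hs => ?_
      rw [MvPolynomial.mem_restrictTotalDegree]
      refine (MvPolynomial.totalDegree_monomial_le _ _).trans ?_
      exact (Finset.mem_filter.1 hs).2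
    refine ⟨⟨F₁, h1⟩, ?_⟩
    change phiPow φ N F₁ = phiPow φ N F
    conv_rhs => rw [F.as_sum, map_sum, ← Finset.sum_filter_add_sum_filter_not F.support
      (fun s => s.degree ≤ e * N)]
    rw [map_sum, eq_comm, add_eq_left]
    refine Finset.sum_eq_zero fun s hs => ?_
    have h2 : e * N < s.degree := by
      have := (Finset.mem_filter.1 hs).2
      omega
    have h3 : MvPolynomial.monomial s (F.coeff s) = F.coeff s • MvPolynomial.monomial s (1 : k) := by
      rw [MvPolynomial.smul_monomial, smul_eq_mul, mul_one]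
    rw [h3, map_smul, phiPow_nil φ e hnil N s h2, smul_zero]
  have h3 := finrank_le_of_ker_le f g hker hg
  rw [finrank_Pow', Module.finrank_fintype_fun_eq_card, Fintype.card_coe] at h3
  exact h3

end bound

end Pool.Agent.Q180.SC
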