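import Pool.Agent.Q180.SC.Main

/-!
# All finite algebras of bounded degree are quotients of one finite algebra
-/

set_option autoImplicit false

namespace Pool.Agent.Q180.SC

open scoped TensorProduct PowerSeries Topology
open Pool.Agent.H826R3.SM Pool.Agent.TH671.DU Filter
open MvPolynomial (idealOfVars)

/-- `k[x_1, …, x_d] / (x_1, …, x_d)^d` -/
abbrev Trunc (k : Type) [Field k] (d : ℕ) : Type :=
  MvPolynomial (Fin d) k ⧸ (idealOfVars (Fin d) k) ^ d

theorem finite_trunc (k : Type) [Field k] (d : ℕ) : Module.Finite k (Trunc k d) := by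
  classical
  let g : (Fin d → Fin d) → Trunc k d := fun m =>
    Ideal.Quotient.mk _ (MvPolynomial.monomial (Finsupp.equivFunOnFinite.symm fun i => (m i : ℕ)) 1)
  have hspan : Submodule.span k (Set.range g) = ⊤ := by
    rw [eq_top_iff]
    rintro y -
    obtain ⟨F, rfl⟩ := Ideal.Quotient.mk_surjective y
    rw [← MvPolynomial.support_sum_monomial_coeff F, map_sum]
    refine Submodule.sum_mem _ fun s _ => ?_
    by_cases hs : s.degree < d
    · have hlt : ∀ i, s i < d := fun i => (Finsupp.le_degree i s).trans_lt hs
      have h1 : MvPolynomial.monomial s (MvPolynomial.coeff s F) =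
          MvPolynomial.coeff s F • MvPolynomial.monomial s (1 : k) := by
        rw [MvPolynomial.smul_monomial, smul_eq_mul, mul_one]
      rw [h1]
      have h2 : (Ideal.Quotient.mk (idealOfVars (Fin d) k ^ d))
          (MvPolynomial.coeff s F • MvPolynomial.monomial s (1 : k)) =
          MvPolynomial.coeff s F • g (fun i => ⟨s i, hlt i⟩) := by
        have h3 : (Finsupp.equivFunOnFinite.symm fun i : Fin d => s i) = s :=
          Finsupp.equivFunOnFinite.symm_apply_apply s
        change Ideal.Quotient.mk _ _ = MvPolynomial.coeff s F • Ideal.Quotient.mk _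
          (MvPolynomial.monomial (Finsupp.equivFunOnFinite.symm fun i : Fin d => s i) 1)
        rw [h3]
        rfl
      rw [h2]
      exact Submodule.smul_mem _ _ (Submodule.subset_span ⟨_, rfl⟩)
    · have h1 : MvPolynomial.monomial s (MvPolynomial.coeff s F) ∈ idealOfVars (Fin d) k ^ d := by
        rw [MvPolynomial.mem_pow_idealOfVars_iff']
        intro x hx
        rw [MvPolynomial.coeff_monomial, if_neg]
        rintro rfl
        exact hs hx
      rw [Ideal.Quotient.eq_zero_iff_mem.2 h1]
      exact Submodule.zero_mem _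
  exact ⟨⟨(Set.finite_range g).toFinset, by rw [Set.Finite.coe_toFinset]; exact hspan⟩⟩

section local_

variable {k₀ k : Type} [Field k₀] [Field k] [Algebra k₀ k]

theorem pow_maximal_eq_bot (A : Type) [CommRing A] [Algebra k A] [Module.Finite k A]
    [IsLocalRing A] (d : ℕ) (hd : Module.finrank k A ≤ d) :
    IsLocalRing.maximalIdeal A ^ d = ⊥ := by
  have hart : IsArtinianRing A := IsArtinianRing.of_finite k A
  set M : Ideal A := IsLocalRing.maximalIdeal A with hM
  have key : ∀ i, M ^ i = ⊥ ∨
      Module.finrank k ((M ^ i).restrictScalars k) + i ≤ Module.finrank k A := by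
    intro i
    induction i with
    | zero =>
      right
      rw [add_zero]
      exact Submodule.finrank_le _
    | succ i ih =>
      rcases ih with ih | ih
      · left
        rw [pow_succ, ih]
        simp
      · by_cases h0 : M ^ (i + 1) = ⊥
        · exact Or.inl h0
        right
        have hlt : (M ^ (i + 1)).restrictScalars k < (M ^ i).restrictScalars k := by
          refine lt_of_le_of_ne (Submodule.restrictScalars_mono k (Ideal.pow_le_pow_right
            (Nat.le_succ i))) fun heq => ?_
          have h1 : M ^ (i + 1) = M ^ i := (Submodule.restrictScalars_injective k A A) heq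
          have h2 : M ^ i = ⊥ := by
            refine Submodule.eq_bot_of_le_smul_of_le_jacobson_bot M (M ^ i)
              (IsNoetherian.noetherian _) ?_ ?_
            · rw [smul_eq_mul, ← pow_succ', h1]
            · rw [IsLocalRing.jacobson_eq_maximalIdeal ⊥ bot_ne_top]
          apply h0
          rw [h1, h2]
        have h3 := Submodule.finrank_lt_finrank_of_lt hlt
        omega
  rcases key d with h | h
  · exact h
  · have h1 : Module.finrank k ((M ^ d).restrictScalars k) = 0 := by omega
    rw [Submodule.finrank_eq_zero] at h1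
    exact (Submodule.restrictScalars_injective k A A) (by rw [h1]; simp)

variable (k₀) in
theorem exists_span_local [IsAlgClosed k] (A : Type) [CommRing A] [Algebra k A]
    [Module.Finite k A] [IsLocalRing A] [Algebra k₀ A] [IsScalarTower k₀ k A] (d : ℕ)
    (hd : Module.finrank k A ≤ d) :
    ∃ f : Trunc k₀ d →ₐ[k₀] A, Submodule.span k (Set.range f) = ⊤ := by
  classical
  have hart : IsArtinianRing A := IsArtinianRing.of_finite k A
  set M : Ideal A := IsLocalRing.maximalIdeal A with hM
  have hMmax : M.IsMaximal := IsLocalRing.maximalIdeal.isMaximal A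
  let _ : Field (A ⧸ M) := Ideal.Quotient.field M
  have hbij : Function.Bijective (algebraMap k (A ⧸ M)) :=
    IsAlgClosed.algebraMap_bijective_of_isIntegral
  let ee : k ≃ₐ[k] (A ⧸ M) := AlgEquiv.ofBijective (Algebra.ofId k (A ⧸ M)) hbij
  let aug : A →ₐ[k] k := ee.symm.toAlgHom.comp (Ideal.Quotient.mkₐ k M)
  have haug : ∀ x, aug x = 0 → x ∈ M := by
    intro x hx
    have h1 : ee.symm (Ideal.Quotient.mk M x) = 0 := hx
    rw [map_eq_zero_iff _ ee.symm.injective] at h1
    exact Ideal.Quotient.eq_zero_iff_mem.mp h1
  let W : Submodule k A := M.restrictScalars k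
  let b := Module.finBasis k W
  have hWd : Module.finrank k W ≤ d := (Submodule.finrank_le W).trans hd
  let a : Fin d → A := fun i => if h : (i : ℕ) < Module.finrank k W then (b ⟨i, h⟩ : A) else 0
  have haM : ∀ i, a i ∈ M := by
    intro i
    by_cases h : (i : ℕ) < Module.finrank k W
    · simp only [a, dif_pos h]
      exact (b ⟨i, h⟩).2
    · simp only [a, dif_neg h]
      exact M.zero_mem
  have hWspan : W ≤ Submodule.span k (Set.range a) := by
    intro x hx
    have h1 : x = ((∑ i, b.repr ⟨x, hx⟩ i • b i : W) : A) := by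
      rw [b.sum_repr]
    rw [h1, Submodule.coe_sum]
    refine Submodule.sum_mem _ fun i _ => ?_
    rw [Submodule.coe_smul]
    refine Submodule.smul_mem _ _ (Submodule.subset_span ⟨⟨i, i.2.trans_le hWd⟩, ?_⟩)
    simp only [a]
    rw [dif_pos i.2]
  let g : MvPolynomial (Fin d) k₀ →ₐ[k₀] A := MvPolynomial.aeval a
  have hg : ∀ x ∈ (idealOfVars (Fin d) k₀) ^ d, g x = 0 := by
    intro x hx
    have h2 : g x ∈ (idealOfVars (Fin d) k₀ ^ d).map g := Ideal.mem_map_of_mem _ hx
    rw [Ideal.map_pow] at h2
    have h3 : (idealOfVars (Fin d) k₀).map g ≤ M := by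
      rw [idealOfVars, Ideal.map_span, Ideal.span_le]
      rintro _ ⟨_, ⟨i, rfl⟩, rfl⟩
      change g (MvPolynomial.X i) ∈ M
      rw [MvPolynomial.aeval_X]
      exact haM i
    have h4 := Ideal.pow_right_mono h3 d h2
    rw [pow_maximal_eq_bot A d hd] at h4
    exact h4
  refine ⟨Ideal.Quotient.liftₐ _ g hg, ?_⟩
  have hX : ∀ i, a i ∈ Set.range (Ideal.Quotient.liftₐ _ g hg) := by
    intro i
    refine ⟨Ideal.Quotient.mk _ (MvPolynomial.X i), ?_⟩
    change g (MvPolynomial.X i) = a i
    exact MvPolynomial.aeval_X _ _
  rw [eq_top_iff]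
  rintro x -
  have h1 : x - algebraMap k A (aug x) ∈ M := by
    apply haug
    rw [map_sub, AlgHom.commutes]
    exact sub_self _
  have h3 : x = (x - algebraMap k A (aug x)) + aug x • (1 : A) := by
    rw [← Algebra.algebraMap_eq_smul_one]
    ring
  rw [h3]
  refine Submodule.add_mem _ ?_ ?_
  · refine Submodule.span_le.2 ?_ (hWspan (show _ ∈ W from h1))
    rintro _ ⟨i, rfl⟩
    exact Submodule.subset_span (hX i)
  · exact Submodule.smul_mem _ _ (Submodule.subset_span ⟨1, map_one _⟩)

end local_

end Pool.Agent.Q180.SC
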