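import Pool.Agent.Q180.SC.Univ

/-!
# All finite algebras of bounded degree are quotients of one finite algebra
-/

set_option autoImplicit false

namespace Pool.Agent.Q180.SC

open scoped TensorProduct PowerSeries Topology
open Pool.Agent.H826R3.SM Pool.Agent.TH671.DU Filter

variable {k₀ k : Type} [Field k₀] [Field k] [Algebra k₀ k]

variable (k₀) in
theorem exists_span_aux [IsAlgClosed k] (d m : ℕ) (hm : m ≤ d) :
    ∀ (A : Type) [CommRing A] [Algebra k A] [Module.Finite k A] [Algebra k₀ A]
      [IsScalarTower k₀ k A], Module.finrank k A = m → ∀ n, m ≤ n →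
        ∃ f : (Fin n → Trunc k₀ d) →ₐ[k₀] A, Submodule.span k (Set.range f) = ⊤ := by
  induction m using Nat.strong_induction_on with
  | _ m ih =>
    intro A _ _ _ _ _ hA n hn
    by_cases hnt : Nontrivial A
    swap
    · have hs : Subsingleton A := not_nontrivial_iff_subsingleton.1 hnt
      refine ⟨{ toFun := fun _ => 0
                map_one' := Subsingleton.elim _ _
                map_mul' := fun _ _ => Subsingleton.elim _ _
                map_zero' := rfl
                map_add' := fun _ _ => Subsingleton.elim _ _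
                commutes' := fun _ => Subsingleton.elim _ _ }, ?_⟩
      rw [eq_top_iff]
      rintro x -
      rw [Subsingleton.elim x 0]
      exact Submodule.zero_mem _
    have hpos : 0 < Module.finrank k A := Module.finrank_pos
    by_cases hloc : IsLocalRing A
    · obtain ⟨f, hf⟩ := exists_span_local k₀ (k := k) A d (by omega)
      refine ⟨f.comp (Pi.evalAlgHom k₀ (fun _ : Fin n => Trunc k₀ d) ⟨0, by omega⟩), ?_⟩
      rw [eq_top_iff, ← hf]
      refine Submodule.span_mono ?_
      rintro _ ⟨x, rfl⟩
      exact ⟨fun _ => x, rfl⟩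
    have hart : IsArtinianRing A := IsArtinianRing.of_finite k A
    obtain ⟨e, he, hu, hu'⟩ := exists_idem hloc
    let F : A ≃ₐ[k] (A ⧸ Ideal.span {e}) × (A ⧸ Ideal.span {1 - e}) :=
      AlgEquiv.ofBijective _ (crt_bij k e he)
    have hnt1 : Nontrivial (A ⧸ Ideal.span {e}) := by
      rw [Ideal.Quotient.nontrivial_iff, Ne, Ideal.span_singleton_eq_top]
      exact hu
    have hnt2 : Nontrivial (A ⧸ Ideal.span {1 - e}) := by
      rw [Ideal.Quotient.nontrivial_iff, Ne, Ideal.span_singleton_eq_top]
      exact hu'
    have hsum : Module.finrank k A = Module.finrank k (A ⧸ Ideal.span {e}) +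
        Module.finrank k (A ⧸ Ideal.span {1 - e}) := by
      rw [F.toLinearEquiv.finrank_eq, Module.finrank_prod]
    have hp1 : 0 < Module.finrank k (A ⧸ Ideal.span {e}) := Module.finrank_pos
    have hp2 : 0 < Module.finrank k (A ⧸ Ideal.span {1 - e}) := Module.finrank_pos
    obtain ⟨n₂, rfl⟩ : ∃ n₂, n = Module.finrank k (A ⧸ Ideal.span {e}) + n₂ :=
      ⟨n - Module.finrank k (A ⧸ Ideal.span {e}), by omega⟩
    obtain ⟨f₁, g1⟩ := ih _ (by omega) (by omega) (A ⧸ Ideal.span {e}) rfl _ le_rfl
    obtain ⟨f₂, g2⟩ := ih _ (by omega) (by omega) (A ⧸ Ideal.span {1 - e}) rfl n₂ (by omega)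
    let p₁ : (Fin (Module.finrank k (A ⧸ Ideal.span {e}) + n₂) → Trunc k₀ d) →ₐ[k₀]
        (Fin (Module.finrank k (A ⧸ Ideal.span {e})) → Trunc k₀ d) :=
      AlgHom.pi fun i =>
        Pi.evalAlgHom k₀ (fun _ => Trunc k₀ d) (Fin.castAdd n₂ i)
    let p₂ : (Fin (Module.finrank k (A ⧸ Ideal.span {e}) + n₂) → Trunc k₀ d) →ₐ[k₀]
        (Fin n₂ → Trunc k₀ d) :=
      AlgHom.pi fun i =>
        Pi.evalAlgHom k₀ (fun _ => Trunc k₀ d) (Fin.natAdd _ i)
    let G : (Fin (Module.finrank k (A ⧸ Ideal.span {e}) + n₂) → Trunc k₀ d) →ₐ[k₀]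
        (A ⧸ Ideal.span {e}) × (A ⧸ Ideal.span {1 - e}) :=
      (f₁.comp p₁).prod (f₂.comp p₂)
    have hG1 : ∀ x y, G (Fin.append x y) = (f₁ x, f₂ y) := by
      intro x y
      have h1 : p₁ (Fin.append x y) = x := by
        funext i
        exact Fin.append_left x y i
      have h2 : p₂ (Fin.append x y) = y := by
        funext i
        exact Fin.append_right x y i
      change (f₁ (p₁ _), f₂ (p₂ _)) = _
      rw [h1, h2]
    refine ⟨(F.symm.restrictScalars k₀).toAlgHom.comp G, ?_⟩
    have hspanG : Submodule.span k (Set.range G) = ⊤ := by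
      rw [eq_top_iff]
      rintro ⟨u, v⟩ -
      have h1 : ∀ u ∈ Submodule.span k (Set.range f₁),
          ((u, 0) : (A ⧸ Ideal.span {e}) × (A ⧸ Ideal.span {1 - e})) ∈
            Submodule.span k (Set.range G) := by
        intro u hu
        induction hu using Submodule.span_induction with
        | mem u hu =>
          obtain ⟨x, rfl⟩ := hu
          refine Submodule.subset_span ⟨Fin.append x 0, ?_⟩
          rw [hG1, map_zero]
        | zero => exact Submodule.zero_mem _
        | add u v _ _ hu hv =>
          have := Submodule.add_mem _ hu hv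
          rwa [Prod.mk_add_mk, add_zero] at this
        | smul c u _ hu =>
          have := Submodule.smul_mem _ c hu
          rwa [Prod.smul_mk, smul_zero] at this
      have h2 : ∀ v ∈ Submodule.span k (Set.range f₂),
          ((0, v) : (A ⧸ Ideal.span {e}) × (A ⧸ Ideal.span {1 - e})) ∈
            Submodule.span k (Set.range G) := by
        intro v hv
        induction hv using Submodule.span_induction with
        | mem v hv =>
          obtain ⟨y, rfl⟩ := hv
          refine Submodule.subset_span ⟨Fin.append 0 y, ?_⟩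
          rw [hG1, map_zero]
        | zero => exact Submodule.zero_mem _
        | add u v _ _ hu hv =>
          have := Submodule.add_mem _ hu hv
          rwa [Prod.mk_add_mk, add_zero] at this
        | smul c u _ hu =>
          have := Submodule.smul_mem _ c hu
          rwa [Prod.smul_mk, smul_zero] at this
      have h3 := Submodule.add_mem _ (h1 u (by rw [g1]; trivial)) (h2 v (by rw [g2]; trivial))
      rwa [Prod.mk_add_mk, add_zero, zero_add] at h3
    have h4 : Set.range ((F.symm.restrictScalars k₀).toAlgHom.comp G) =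
        F.symm.toLinearMap '' Set.range G := by
      ext y
      constructor
      · rintro ⟨x, rfl⟩
        exact ⟨G x, ⟨x, rfl⟩, rfl⟩
      · rintro ⟨_, ⟨x, rfl⟩, rfl⟩
        exact ⟨x, rfl⟩
    rw [h4, ← Submodule.map_span, hspanG, Submodule.map_top]
    exact LinearMap.range_eq_top.2 F.symm.surjective

/-- `(k[x_1, …, x_d] / (x_1, …, x_d)^d)^d`: all algebras of degree at most `d` are quotients of
this algebra -/
abbrev Univ (k : Type) [Field k] (d : ℕ) : Type := Fin d → Trunc k d

instance finite_univ (k : Type) [Field k] (d : ℕ) : Module.Finite k (Univ k d) := by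
  have := finite_trunc k d
  infer_instance

variable (k₀) in
theorem exists_span [IsAlgClosed k] (d : ℕ) (A : Type) [CommRing A] [Algebra k A]
    [Module.Finite k A] [Algebra k₀ A] [IsScalarTower k₀ k A] (hA : Module.finrank k A ≤ d) :
    ∃ f : Univ k₀ d →ₐ[k₀] A, Submodule.span k (Set.range f) = ⊤ :=
  exists_span_aux k₀ d _ hA A rfl d hA

theorem exists_surj [IsAlgClosed k] (d : ℕ) (A : Type) [CommRing A] [Algebra k A]
    [Module.Finite k A] (hA : Module.finrank k A ≤ d) :
    ∃ f : Univ k d →ₐ[k] A, Function.Surjective f := by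
  obtain ⟨f, hf⟩ := exists_span k d A hA
  refine ⟨f, fun y => ?_⟩
  have h1 : Submodule.span k (Set.range f) = LinearMap.range f.toLinearMap := by
    have : (Set.range f) = (LinearMap.range f.toLinearMap : Set A) := rfl
    rw [this, Submodule.span_eq]
  rw [h1] at hf
  have h2 : y ∈ LinearMap.range f.toLinearMap := by rw [hf]; trivial
  exact h2

end Pool.Agent.Q180.SC
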